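import Pool.Agent.Lib_helper15.STE.DefsG

/-! # STE, block admA : admissible functions -/

open MeasureTheory Filter Topology
open scoped InnerProductSpace

namespace Pool.Agent.Lib_helper15.STE

theorem admA_norm_inv_smul (x : E3) (hx : x ≠ 0) : ‖(‖x‖⁻¹ • x)‖ = 1 := by
  rw [norm_smul, norm_inv, norm_norm, inv_mul_cancel₀ (norm_ne_zero_iff.2 hx)]

theorem admA_unit (F : E3 → ℝ) (hF : Adm F) (x : E3) (hx : x ≠ 0) : F (‖x‖⁻¹ • x) = F x :=
  hF.hom x _ (inv_pos.2 (norm_pos_iff.2 hx))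

/-- `‖y‖ ‖x/‖x‖ - y/‖y‖‖ ≤ 2 ‖x - y‖` -/
theorem admA_dist (x y : E3) (hx : x ≠ 0) (hy : y ≠ 0) :
    ‖y‖ * ‖(‖x‖⁻¹ • x) - (‖y‖⁻¹ • y)‖ ≤ 2 * ‖x - y‖ := by
  have hx' : 0 < ‖x‖ := norm_pos_iff.2 hx
  have hy' : 0 < ‖y‖ := norm_pos_iff.2 hy
  have h1 : ‖y‖ * ‖(‖x‖⁻¹ • x) - (‖y‖⁻¹ • y)‖ = ‖(‖y‖ • (‖x‖⁻¹ • x) - y)‖ := by
    rw [← norm_norm y, ← norm_smul, smul_sub, norm_norm, smul_smul ‖y‖ ‖y‖⁻¹ y,
      mul_inv_cancel₀ hy'.ne', one_smul]
  have h2 : ‖y‖ • (‖x‖⁻¹ • x) - y = (x - y) + (‖y‖ - ‖x‖) • (‖x‖⁻¹ • x) := by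
    rw [sub_smul (‖y‖) (‖x‖), smul_smul ‖x‖ ‖x‖⁻¹ x, mul_inv_cancel₀ hx'.ne', one_smul]
    abel
  rw [h1, h2]
  calc ‖(x - y) + (‖y‖ - ‖x‖) • (‖x‖⁻¹ • x)‖
      ≤ ‖x - y‖ + ‖(‖y‖ - ‖x‖) • (‖x‖⁻¹ • x)‖ := norm_add_le _ _
    _ = ‖x - y‖ + |‖y‖ - ‖x‖| := by
        rw [norm_smul, admA_norm_inv_smul x hx, mul_one, Real.norm_eq_abs]
    _ ≤ ‖x - y‖ + ‖x - y‖ := by
        have := abs_norm_sub_norm_le y x
        rw [norm_sub_rev y x] at this
        linarith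
    _ = 2 * ‖x - y‖ := by ring

theorem admA_consts (F : E3 → ℝ) (hF : Adm F) : ∃ C : ℝ, 0 ≤ C ∧
    (∀ x : E3, x ≠ 0 → |F x| ≤ C) ∧
    (∀ x y : E3, x ≠ 0 → y ≠ 0 → ‖y‖ * |F x - F y| ≤ C * ‖x - y‖) := by
  obtain ⟨C, hC⟩ := hF.lip
  have he : ‖e 0‖ = 1 := by simp [e]
  have he0 : e 0 ≠ 0 := fun h => by rw [h, norm_zero] at he; exact zero_ne_one he
  have hC0 : 0 ≤ C := by
    have h := hC (e 0) (-(e 0)) he (by rw [norm_neg, he])
    have h2 : ‖e 0 - -e 0‖ = 2 := by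
      rw [sub_neg_eq_add, ← two_smul ℝ, norm_smul, he]; norm_num
    rw [h2] at h
    have := abs_nonneg (F (e 0) - F (-(e 0)))
    linarith
  have hb : ∀ x : E3, x ≠ 0 → |F x| ≤ |F (e 0)| + 2 * C := by
    intro x hx
    have h := hC (‖x‖⁻¹ • x) (e 0) (admA_norm_inv_smul x hx) he
    rw [admA_unit F hF x hx] at h
    have h2 : ‖‖x‖⁻¹ • x - e 0‖ ≤ 2 := by
      calc _ ≤ ‖‖x‖⁻¹ • x‖ + ‖e 0‖ := norm_sub_le _ _
        _ = 2 := by rw [admA_norm_inv_smul x hx, he]; norm_num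
    have h3 : |F x| ≤ |F x - F (e 0)| + |F (e 0)| := by
      have := abs_add_le (F x - F (e 0)) (F (e 0))
      simpa using this
    have h4 : C * ‖‖x‖⁻¹ • x - e 0‖ ≤ C * 2 := mul_le_mul_of_nonneg_left h2 hC0
    linarith
  refine ⟨|F (e 0)| + 2 * C, by positivity, hb, ?_⟩
  intro x y hx hy
  have h := hC (‖x‖⁻¹ • x) (‖y‖⁻¹ • y) (admA_norm_inv_smul x hx) (admA_norm_inv_smul y hy)
  rw [admA_unit F hF x hx, admA_unit F hF y hy] at h
  have h1 := admA_dist x y hx hy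
  have hy' : 0 < ‖y‖ := norm_pos_iff.2 hy
  have h0 : 0 ≤ |F (e 0)| * ‖x - y‖ := by positivity
  calc ‖y‖ * |F x - F y| ≤ ‖y‖ * (C * ‖(‖x‖⁻¹ • x) - (‖y‖⁻¹ • y)‖) :=
        mul_le_mul_of_nonneg_left h hy'.le
    _ = C * (‖y‖ * ‖(‖x‖⁻¹ • x) - (‖y‖⁻¹ • y)‖) := by ring
    _ ≤ C * (2 * ‖x - y‖) := mul_le_mul_of_nonneg_left h1 hC0
    _ ≤ (|F (e 0)| + 2 * C) * ‖x - y‖ := by nlinarith

theorem admA_cont (F : E3 → ℝ) (hF : Adm F) (y : E3) (hy : y ≠ 0) : ContinuousAt F y := by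
  obtain ⟨C, hC0, hb, hl⟩ := admA_consts F hF
  have hy' : 0 < ‖y‖ := norm_pos_iff.2 hy
  rw [ContinuousAt, tendsto_iff_norm_sub_tendsto_zero]
  have hlim : Tendsto (fun x : E3 => ‖y‖⁻¹ * (C * ‖x - y‖)) (𝓝 y) (𝓝 0) := by
    have : Continuous (fun x : E3 => ‖y‖⁻¹ * (C * ‖x - y‖)) := by fun_prop
    have h := this.tendsto y
    simpa using h
  refine squeeze_zero' (Eventually.of_forall fun x => norm_nonneg _) ?_ hlim
  filter_upwards [isOpen_compl_singleton.mem_nhds (show y ∈ ({0}ᶜ : Set E3) from hy)] with x hx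
  have h := hl x y hx hy
  rw [Real.norm_eq_abs, inv_mul_eq_div, le_div_iff₀ hy', mul_comm]
  exact h

theorem admA_meas (F : E3 → ℝ) (hF : Adm F) : Measurable F :=
  measurable_of_continuousOn_compl_singleton 0
    (fun y hy => (admA_cont F hF y hy).continuousWithinAt)

theorem admA_lipG (F : E3 → ℝ) (hF : Adm F) :
    ∃ K : NNReal, LipschitzWith K (fun x => ‖x‖ * F x) := by
  obtain ⟨C, hC0, hb, hl⟩ := admA_consts F hF
  refine ⟨(2 * C).toNNReal, LipschitzWith.of_dist_le_mul fun x y => ?_⟩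
  rw [Real.dist_eq, dist_eq_norm, Real.coe_toNNReal _ (by linarith)]
  by_cases hx : x = 0
  · by_cases hy : y = 0
    · simp [hx, hy]
    · have h := hb y hy
      subst hx
      rw [norm_zero, zero_mul, zero_sub, abs_neg, abs_mul, abs_norm, zero_sub, norm_neg]
      nlinarith [norm_nonneg y, mul_le_mul_of_nonneg_left h (norm_nonneg y)]
  · by_cases hy : y = 0
    · have h := hb x hx
      subst hy
      rw [norm_zero, zero_mul, sub_zero, abs_mul, abs_norm, sub_zero]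
      nlinarith [norm_nonneg x, mul_le_mul_of_nonneg_left h (norm_nonneg x)]
    · have h1 := hl x y hx hy
      have h2 := hb x hx
      have h3 : ‖x‖ * F x - ‖y‖ * F y = (‖x‖ - ‖y‖) * F x + ‖y‖ * (F x - F y) := by ring
      rw [h3]
      calc |(‖x‖ - ‖y‖) * F x + ‖y‖ * (F x - F y)|
          ≤ |(‖x‖ - ‖y‖) * F x| + |‖y‖ * (F x - F y)| := abs_add_le _ _
        _ = |‖x‖ - ‖y‖| * |F x| + ‖y‖ * |F x - F y| := by
            rw [abs_mul, abs_mul, abs_norm]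
        _ ≤ ‖x - y‖ * C + C * ‖x - y‖ := by
            refine add_le_add ?_ h1
            exact mul_le_mul (abs_norm_sub_norm_le x y) h2 (abs_nonneg _) (norm_nonneg _)
        _ = 2 * C * ‖x - y‖ := by ring

theorem admA_vol (F : E3 → ℝ) (hF : Adm F) : ∀ᵐ x : E3, x ≠ 0 → DifferentiableAt ℝ F x := by
  obtain ⟨K, hK⟩ := admA_lipG F hF
  filter_upwards [hK.ae_differentiableAt (μ := volume)] with x hx hx0
  have h1 : DifferentiableAt ℝ (fun x : E3 => ‖x‖⁻¹ * (‖x‖ * F x)) x :=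
    ((differentiableAt_id.norm ℝ hx0).inv (norm_ne_zero_iff.2 hx0)).mul hx
  refine h1.congr_of_eventuallyEq ?_
  filter_upwards [isOpen_compl_singleton.mem_nhds (show x ∈ ({0}ᶜ : Set E3) from hx0)] with y hy
  rw [← mul_assoc, inv_mul_cancel₀ (norm_ne_zero_iff.2 hy), one_mul]

theorem admA_cone (F : E3 → ℝ) (hF : Adm F) (x : E3) (r : ℝ) (hr : 0 < r)
    (h : DifferentiableAt ℝ F x) : DifferentiableAt ℝ F (r • x) := by
  have h1 : F = fun y => F (r⁻¹ • y) := funext fun y => (hF.hom y _ (inv_pos.2 hr)).symm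
  rw [h1]
  have h2 : DifferentiableAt ℝ (fun y : E3 => r⁻¹ • y) (r • x) := by fun_prop
  have h3 : DifferentiableAt ℝ F (r⁻¹ • (r • x)) := by
    rwa [smul_smul, inv_mul_cancel₀ hr.ne', one_smul]
  exact DifferentiableAt.comp (r • x) h3 h2

theorem admA_diff (F : E3 → ℝ) (hF : Adm F) : ∀ᵐ x ∂sig, DifferentiableAt ℝ F x := by
  have hmeas : MeasurableSet {x : E3 | DifferentiableAt ℝ F x} := measurableSet_of_differentiableAt ℝ F
  have hmap : Measurable (fun x : E3 => ‖x‖⁻¹ • x) := by fun_prop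
  unfold sig
  refine Measure.ae_smul_measure ?_ _
  rw [ae_map_iff hmap.aemeasurable hmeas]
  refine ae_restrict_of_ae ?_
  have h0 : ∀ᵐ x : E3, x ≠ 0 := by
    have : volume ({0} : Set E3) = 0 := measure_singleton 0
    exact measure_eq_zero_iff_ae_notMem.1 this
  filter_upwards [admA_vol F hF, h0] with x hx hx0
  exact admA_cone F hF x _ (inv_pos.2 (norm_pos_iff.2 hx0)) (hx hx0)

theorem admA_bound (F : E3 → ℝ) (hF : Adm F) :
    ∃ C : ℝ, ∀ x, ‖x‖ = 1 → |F x| ≤ C ∧ ‖fderiv ℝ F x‖ ≤ C := by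
  obtain ⟨C, hC0, hb, hl⟩ := admA_consts F hF
  refine ⟨C, fun x hx => ?_⟩
  have hx0 : x ≠ 0 := fun h => by rw [h, norm_zero] at hx; exact zero_ne_one hx
  refine ⟨hb x hx0, norm_fderiv_le_of_lip' ℝ hC0 ?_⟩
  filter_upwards [isOpen_compl_singleton.mem_nhds (show x ∈ ({0}ᶜ : Set E3) from hx0)] with y hy
  have h := hl y x hy hx0
  rw [hx, one_mul] at h
  rwa [Real.norm_eq_abs]

theorem admA_coord (v : E3) : v = v 0 • e 0 + v 1 • e 1 + v 2 • e 2 := by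
  ext i
  fin_cases i <;> simp [e]

theorem admA_lin (L : E3 →L[ℝ] ℝ) (v : E3) :
    L v = v 0 * L (e 0) + v 1 * L (e 1) + v 2 * L (e 2) := by
  conv_lhs => rw [admA_coord v]
  simp only [map_add, map_smul, smul_eq_mul]

theorem admA_norm_sq (v : E3) : ‖v‖ ^ 2 = v 0 ^ 2 + v 1 ^ 2 + v 2 ^ 2 := by
  rw [EuclideanSpace.norm_sq_eq]
  simp [Fin.sum_univ_three]

theorem admA_dual (L : E3 →L[ℝ] ℝ) : ‖L‖ ^ 2 = L (e 0) ^ 2 + L (e 1) ^ 2 + L (e 2) ^ 2 := by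
  set g : E3 := (InnerProductSpace.toDual ℝ E3).symm L with hg
  have h1 : ‖L‖ = ‖g‖ := by rw [hg, LinearIsometryEquiv.norm_map]
  have h2 : ∀ i, L (e i) = g i := by
    intro i
    have : ⟪g, e i⟫_ℝ = L (e i) := by rw [hg, InnerProductSpace.toDual_symm_apply]
    rw [← this]
    simp [e, EuclideanSpace.inner_single_right]
  rw [h1, admA_norm_sq, h2, h2, h2]

theorem admA_radial (F : E3 → ℝ) (hF : Adm F) (x : E3) : fderiv ℝ F x x = 0 := by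
  by_cases h : DifferentiableAt ℝ F x
  · have h1 : HasDerivAt (fun t : ℝ => F (t • x)) (fderiv ℝ F x x) 1 := by
      have h2 : HasFDerivAt F (fderiv ℝ F x) ((1 : ℝ) • x) := by
        rw [one_smul]; exact h.hasFDerivAt
      have h3 : HasDerivAt (fun t : ℝ => t • x) x 1 := by
        simpa using (hasDerivAt_id (1 : ℝ)).smul_const x
      exact h2.comp_hasDerivAt (1 : ℝ) h3
    have h4 : HasDerivAt (fun t : ℝ => F (t • x)) 0 1 := by
      refine (hasDerivAt_const (1 : ℝ) (F x)).congr_of_eventuallyEq ?_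
      filter_upwards [lt_mem_nhds (zero_lt_one' ℝ)] with t ht
      exact hF.hom x t ht
    exact h1.unique h4
  · rw [fderiv_zero_of_not_differentiableAt h]; rfl

theorem admA_GG (F : E3 → ℝ) (hF : Adm F) (x : E3) (hx : ‖x‖ = 1) :
    ‖fderiv ℝ F x‖ ^ 2 = ∑ i, XX (e i) F x ^ 2 := by
  have h0 := admA_radial F hF x
  have hn : x 0 ^ 2 + x 1 ^ 2 + x 2 ^ 2 = 1 := by rw [← admA_norm_sq, hx]; norm_num
  rw [admA_dual, Fin.sum_univ_three]
  unfold XX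
  rw [admA_lin _ (cr (e 0) x), admA_lin _ (cr (e 1) x), admA_lin _ (cr (e 2) x)]
  rw [admA_lin _ x] at h0
  set a := fderiv ℝ F x (e 0)
  set b := fderiv ℝ F x (e 1)
  set c := fderiv ℝ F x (e 2)
  simp [cr, e]
  have key : (x 0 * a + x 1 * b + x 2 * c) ^ 2 = 0 := by rw [h0]; norm_num
  nlinarith [key, hn, mul_self_nonneg (a), congrArg (fun z => z * (a ^ 2 + b ^ 2 + c ^ 2)) hn]

theorem admA_XX (F : E3 → ℝ) (x : E3) (hx : ‖x‖ = 1) :
    XX (e 2) F x ^ 2 ≤ (1 - x 2 ^ 2) * ‖fderiv ℝ F x‖ ^ 2 := by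
  have hn : x 0 ^ 2 + x 1 ^ 2 + x 2 ^ 2 = 1 := by rw [← admA_norm_sq, hx]; norm_num
  unfold XX
  have h1 := (fderiv ℝ F x).le_opNorm (cr (e 2) x)
  have h2 : ‖cr (e 2) x‖ ^ 2 = 1 - x 2 ^ 2 := by
    rw [admA_norm_sq]
    simp [cr, e]
    linarith
  rw [← h2, ← mul_pow, ← sq_abs (fderiv ℝ F x (cr (e 2) x))]
  rw [Real.norm_eq_abs, mul_comm] at h1
  exact pow_le_pow_left₀ (abs_nonneg _) h1 2

theorem admA_meas_fderiv (F : E3 → ℝ) :
    Measurable (fun x => ‖fderiv ℝ F x‖ ^ 2) ∧ ∀ ν, Measurable (fun x => XX ν F x ^ 2) := by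
  refine ⟨(measurable_fderiv ℝ F).norm.pow_const 2, fun ν => ?_⟩
  refine Measurable.pow_const ?_ 2
  have h1 : XX ν F = fun x => (cr ν x) 0 * fderiv ℝ F x (e 0) +
      (cr ν x) 1 * fderiv ℝ F x (e 1) + (cr ν x) 2 * fderiv ℝ F x (e 2) :=
    funext fun x => admA_lin _ _
  rw [h1]
  have hm : ∀ v : E3, Measurable fun x => fderiv ℝ F x v := fun v =>
    measurable_fderiv_apply_const ℝ F v
  have hx : ∀ i : Fin 3, Measurable fun x : E3 => x i := fun i => by fun_prop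
  have hc : ∀ i : Fin 3, Measurable fun x : E3 => (cr ν x) i := by
    intro i
    fin_cases i <;> simp [cr] <;> fun_prop
  exact (((hc 0).mul (hm _)).add ((hc 1).mul (hm _))).add ((hc 2).mul (hm _))

end Pool.Agent.Lib_helper15.STE
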