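import Pool.Agent.Lib_helper15.STE.DefsG

/-! # STE, block sigA : the measure `sig` -/

open MeasureTheory Filter Topology
open scoped InnerProductSpace Pointwise

namespace Pool.Agent.Lib_helper15.STE

theorem sigA_meas_nrm : Measurable (fun x : E3 => ‖x‖⁻¹ • x) :=
  (measurable_norm.inv).smul measurable_id

/-- the cone over a set of the unit sphere -/
theorem sigA_cone (s : Set E3) :
    (Set.Ioo (0:ℝ) 1 • ((Subtype.val : Metric.sphere (0:E3) 1 → E3) '' (Subtype.val ⁻¹' s)) : Set E3)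
      = {x | x ∈ Metric.ball (0:E3) 1 ∧ x ≠ 0 ∧ ‖x‖⁻¹ • x ∈ s} := by
  ext x
  constructor
  · rintro ⟨r, hr, y, ⟨⟨y', hy'⟩, hys, rfl⟩, rfl⟩
    have hn : ‖y'‖ = 1 := by simpa using hy'
    have hr0 : 0 < r := hr.1
    have hrn : ‖r • y'‖ = r := by rw [norm_smul, hn, mul_one, Real.norm_of_nonneg hr0.le]
    refine ⟨?_, ?_, ?_⟩
    · show r • y' ∈ Metric.ball (0:E3) 1
      rw [Metric.mem_ball, dist_zero_right, hrn]
      exact hr.2
    · show r • y' ≠ 0
      intro h
      rw [h, norm_zero] at hrn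
      exact hr0.ne hrn
    · show ‖r • y'‖⁻¹ • r • y' ∈ s
      rw [hrn, smul_smul, inv_mul_cancel₀ hr0.ne', one_smul]
      exact hys
  · rintro ⟨hb, h0, hs⟩
    have hn : 0 < ‖x‖ := norm_pos_iff.mpr h0
    have h1 : ‖x‖ < 1 := by simpa using hb
    refine ⟨‖x‖, ⟨hn, h1⟩, ‖x‖⁻¹ • x, ⟨⟨‖x‖⁻¹ • x, ?_⟩, hs, rfl⟩, ?_⟩
    · rw [mem_sphere_zero_iff_norm, norm_smul, norm_inv, norm_norm, inv_mul_cancel₀ hn.ne']
    · show ‖x‖ • ‖x‖⁻¹ • x = x
      rw [smul_smul, mul_inv_cancel₀ hn.ne', one_smul]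

theorem sigA_fr : Module.finrank ℝ E3 = 3 := by simp

theorem sigA_const :
    ENNReal.ofReal (3 / (4 * Real.pi)) = ENNReal.ofReal (4 * Real.pi)⁻¹ * 3 := by
  have h3 : (3 : ENNReal) = ENNReal.ofReal 3 := by simp
  rw [h3, ← ENNReal.ofReal_mul (by positivity)]
  congr 1
  ring

theorem sigA_eq : sig = ENNReal.ofReal (4 * Real.pi)⁻¹ •
    ((volume : Measure E3).toSphere.map (Subtype.val : Metric.sphere (0:E3) 1 → E3)) := by
  ext s hs
  rw [sig, Measure.smul_apply, Measure.smul_apply, Measure.map_apply sigA_meas_nrm hs,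
    Measure.map_apply measurable_subtype_coe hs,
    Measure.toSphere_apply' _ (measurable_subtype_coe hs), sigA_cone,
    Measure.restrict_apply (sigA_meas_nrm hs), sigA_fr, smul_eq_mul, smul_eq_mul, ← mul_assoc,
    sigA_const]
  congr 1
  have hsub : ((fun x : E3 => ‖x‖⁻¹ • x) ⁻¹' s ∩ Metric.ball 0 1 : Set E3)
      =ᵐ[volume] ({x | x ∈ Metric.ball (0:E3) 1 ∧ x ≠ 0 ∧ ‖x‖⁻¹ • x ∈ s} : Set E3) := by
    have h0 : ∀ᵐ x : E3 ∂volume, x ≠ 0 := by
      rw [ae_iff]
      simp
    filter_upwards [h0] with x hx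
    apply propext
    constructor
    · rintro ⟨h1, h2⟩
      exact ⟨h2, hx, h1⟩
    · rintro ⟨h1, _, h3⟩
      exact ⟨h3, h1⟩
  exact measure_congr hsub

theorem sigA_sphere : ∀ᵐ x ∂sig, ‖x‖ = 1 := by
  rw [sigA_eq]
  apply Measure.ae_smul_measure
  rw [ae_map_iff measurable_subtype_coe.aemeasurable
    (measurableSet_eq_fun measurable_norm measurable_const)]
  refine Filter.Eventually.of_forall fun x => ?_
  exact mem_sphere_zero_iff_norm.mp x.2

theorem sigA_prob : IsProbabilityMeasure sig := by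
  constructor
  rw [sig, Measure.smul_apply, Measure.map_apply sigA_meas_nrm MeasurableSet.univ,
    Set.preimage_univ, Measure.restrict_apply_univ, EuclideanSpace.volume_ball_fin_three,
    smul_eq_mul, ENNReal.ofReal_one, one_pow, one_mul, ← ENNReal.ofReal_mul (by positivity)]
  have hpi : Real.pi ≠ 0 := Real.pi_ne_zero
  have he : 3 / (4 * Real.pi) * (Real.pi * 4 / 3) = 1 := by field_simp
  rw [he, ENNReal.ofReal_one]

theorem sigA_map (g : E3 ≃ₗᵢ[ℝ] E3) : sig.map g = sig := by
  have hg : Measurable g := g.continuous.measurable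
  have hmp : MeasurePreserving g volume volume := g.measurePreserving
  have hmb : MeasurePreserving g (volume.restrict (Metric.ball (0 : E3) 1))
      (volume.restrict (Metric.ball (0 : E3) 1)) := by
    have h := hmp.restrict_preimage (s := Metric.ball (0 : E3) 1) Metric.isOpen_ball.measurableSet
    have he : (g : E3 → E3) ⁻¹' Metric.ball (0 : E3) 1 = Metric.ball (0 : E3) 1 := by
      ext x
      simp
    rwa [he] at h
  rw [sig, Measure.map_smul, Measure.map_map hg sigA_meas_nrm]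
  congr 1
  have hc : (g : E3 → E3) ∘ (fun x : E3 => ‖x‖⁻¹ • x) = (fun x : E3 => ‖x‖⁻¹ • x) ∘ g := by
    funext x
    simp
  rw [hc, ← Measure.map_map sigA_meas_nrm hg, hmb.map_eq]

theorem sigA_polar (f : E3 → ENNReal) (hf : Measurable f) :
    ∫⁻ x, f x = ENNReal.ofReal (4 * Real.pi) *
      ∫⁻ u, (∫⁻ r in Set.Ioi (0:ℝ), ENNReal.ofReal (r ^ 2) * f (r • u)) ∂sig := by
  have hpi : (0:ℝ) < 4 * Real.pi := by positivity
  have hin : Measurable (fun u : E3 => ∫⁻ r in Set.Ioi (0:ℝ), ENNReal.ofReal (r ^ 2) * f (r • u)) := by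
    apply Measurable.lintegral_prod_right'
      (f := fun q : E3 × ℝ => ENNReal.ofReal (q.2 ^ 2) * f (q.2 • q.1))
    exact ((measurable_snd.pow_const 2).ennreal_ofReal).mul
      (hf.comp (measurable_snd.smul measurable_fst))
  rw [sigA_eq, lintegral_smul_measure, lintegral_map hin measurable_subtype_coe, smul_eq_mul,
    ← mul_assoc, ← ENNReal.ofReal_mul hpi.le, mul_inv_cancel₀ hpi.ne', ENNReal.ofReal_one, one_mul]
  have hmp := (volume : Measure E3).measurePreserving_homeomorphUnitSphereProd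
  have h1 : ∫⁻ x, f x = ∫⁻ x : ({(0:E3)}ᶜ : Set E3), f x.1 ∂((volume : Measure E3).comap (↑)) := by
    rw [lintegral_subtype_comap (measurableSet_singleton _).compl, restrict_compl_singleton]
  rw [h1]
  have h2 := hmp.lintegral_comp (f := fun q : Metric.sphere (0:E3) 1 × Set.Ioi (0:ℝ) =>
    f (q.2.1 • q.1.1)) (hf.comp ((measurable_subtype_coe.comp measurable_snd).smul
      (measurable_subtype_coe.comp measurable_fst)))
  have h3 : ∀ x : ({(0:E3)}ᶜ : Set E3),
      f ((homeomorphUnitSphereProd E3 x).2.1 • (homeomorphUnitSphereProd E3 x).1.1) = f x.1 := by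
    intro x
    have hx : ‖x.1‖ ≠ 0 := norm_ne_zero_iff.mpr x.2
    rw [homeomorphUnitSphereProd_apply_fst_coe, homeomorphUnitSphereProd_apply_snd_coe, smul_smul,
      mul_inv_cancel₀ hx, one_smul]
  rw [← lintegral_congr (fun x => h3 x), h2, sigA_fr]
  have hsf : SFinite (Measure.volumeIoiPow (3 - 1)) := inferInstance
  rw [lintegral_prod]
  · refine lintegral_congr fun u => ?_
    rw [Measure.volumeIoiPow, lintegral_withDensity_eq_lintegral_mul]
    · rw [← lintegral_subtype_comap measurableSet_Ioi]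
      rfl
    · fun_prop
    · exact hf.comp ((measurable_subtype_coe).smul (measurable_const (a := (u : E3))))
  · exact (hf.comp ((measurable_subtype_coe.comp measurable_snd).smul
      (measurable_subtype_coe.comp measurable_fst))).aemeasurable

end Pool.Agent.Lib_helper15.STE
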