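import Pool.Agent.Lib_helper15.STE.DefsG
import Pool.Agent.Lib_helper15.STE.B.sigA

/-! # STE, block rot : invariance under linear isometries -/

open MeasureTheory Filter Topology
open scoped InnerProductSpace

namespace Pool.Agent.Lib_helper15.STE

theorem rot_gau (p : E3 → ℝ) (η : ℝ) (hp : Gau p η) (g : E3 ≃ₗᵢ[ℝ] E3) : Gau (p ∘ g) η := by
  refine ⟨?_, ?_, ?_, ?_⟩
  · intro x y
    simp only [Function.comp_apply, map_add]
    exact hp.sub _ _
  · intro x t ht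
    simp only [Function.comp_apply, map_smul]
    exact hp.hom _ _ ht
  · intro x
    have h := hp.lo (g x)
    rwa [g.norm_map] at h
  · intro x
    have h := hp.up (g x)
    rwa [g.norm_map] at h

theorem rot_FF (p : E3 → ℝ) (g : E3 ≃ₗᵢ[ℝ] E3) : FF (p ∘ g) = FF p ∘ g := by
  funext x
  simp only [FF, Function.comp_apply, g.norm_map]

theorem rot_emb (g : E3 ≃ₗᵢ[ℝ] E3) : MeasurableEmbedding (g : E3 → E3) :=
  g.toHomeomorph.measurableEmbedding

theorem rot_one (F : E3 → ℝ) (g : E3 ≃ₗᵢ[ℝ] E3) :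
    ∫ x, F (g x) ∂sig = ∫ x, F x ∂sig := by
  conv_rhs => rw [← sigA_map g]
  exact ((rot_emb g).integral_map F).symm

theorem rot_fderiv (F : E3 → ℝ) (g : E3 ≃ₗᵢ[ℝ] E3) (x : E3) :
    ‖fderiv ℝ (F ∘ g) x‖ = ‖fderiv ℝ F (g x)‖ := by
  have h : fderiv ℝ (F ∘ (g.toContinuousLinearEquiv : E3 → E3)) x =
      (fderiv ℝ F (g.toContinuousLinearEquiv x)).comp
        (g.toContinuousLinearEquiv : E3 →L[ℝ] E3) :=
    g.toContinuousLinearEquiv.comp_right_fderiv
  have h' : fderiv ℝ (F ∘ g) x = (fderiv ℝ F (g x)).comp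
      (g.toContinuousLinearEquiv : E3 →L[ℝ] E3) := h
  rw [h']
  exact ContinuousLinearMap.opNorm_comp_linearIsometryEquiv (fderiv ℝ F (g x)) g

theorem rot_int (F : E3 → ℝ) (g : E3 ≃ₗᵢ[ℝ] E3) :
    ∫ x, (F ∘ g) x ∂sig = ∫ x, F x ∂sig ∧ ff (F ∘ g) = ff F ∧ GG (F ∘ g) = GG F := by
  refine ⟨rot_one F g, rot_one (fun x => F x ^ 2) g, ?_⟩
  unfold GG
  rw [← rot_one (fun x => ‖fderiv ℝ F x‖ ^ 2) g]
  refine integral_congr_ae (Eventually.of_forall fun x => ?_)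
  simp only [rot_fderiv]

theorem rot_adm (F : E3 → ℝ) (hF : Adm F) (g : E3 ≃ₗᵢ[ℝ] E3) : Adm (F ∘ g) := by
  refine ⟨?_, ?_⟩
  · intro x r hr
    simp only [Function.comp_apply, map_smul]
    exact hF.hom _ _ hr
  · obtain ⟨C, hC⟩ := hF.lip
    refine ⟨C, fun x y hx hy => ?_⟩
    have h := hC (g x) (g y) (by rw [g.norm_map, hx]) (by rw [g.norm_map, hy])
    rwa [← map_sub, g.norm_map] at h

theorem rot_bd {n : ℕ} (K : Set (EuclideanSpace ℝ (Fin n)))
    (g : EuclideanSpace ℝ (Fin n) ≃ₗᵢ[ℝ] EuclideanSpace ℝ (Fin n)) :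
    bd (g ⁻¹' K) = bd K ∧ volume (g ⁻¹' K) = volume K := by
  have hv : ∀ A : Set (EuclideanSpace ℝ (Fin n)), volume (g ⁻¹' A) = volume A := fun A =>
    g.measurePreserving.measure_preimage_emb g.toHomeomorph.measurableEmbedding A
  have ht : ∀ ε : ℝ, Metric.cthickening ε (g ⁻¹' K) = g ⁻¹' Metric.cthickening ε K := by
    intro ε
    ext x
    rw [Set.mem_preimage, Metric.mem_cthickening_iff, Metric.mem_cthickening_iff]
    have h := Metric.infEDist_image g.isometry (x := x) (t := g ⁻¹' K)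
    rw [Set.image_preimage_eq K g.surjective] at h
    rw [h]
  refine ⟨?_, hv K⟩
  unfold bd
  congr 1
  funext ε
  rw [ht, ← Set.preimage_sdiff, hv]

end Pool.Agent.Lib_helper15.STE
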