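import Pool.Agent.Lib_helper15.STE.DefsG

/-! # STE, block sigB : spherical coordinates -/

open MeasureTheory Filter Topology
open scoped InnerProductSpace

namespace Pool.Agent.Lib_helper15.STE

theorem sigB_E3 (F : E3 → ENNReal) (hF : Measurable F) :
    ∫⁻ x, F x = ∫⁻ z : ℝ, ∫⁻ p : ℝ × ℝ, F !₂[p.1, p.2, z] := by
  have h1 := (PiLp.volume_preserving_toLp (Fin 3)).lintegral_comp hF
  rw [← h1]
  have hm : Measurable (fun a : Fin 3 → ℝ => F (WithLp.toLp 2 a)) :=
    hF.comp (PiLp.volume_preserving_toLp (Fin 3)).measurable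
  have e2 := (volume_preserving_piFinSuccAbove (fun _ : Fin 3 => ℝ) 2).symm
  rw [← e2.lintegral_comp hm]
  have hm2 : Measurable (fun q : ℝ × (Fin 2 → ℝ) =>
      F (WithLp.toLp 2 ((MeasurableEquiv.piFinSuccAbove (fun _ : Fin 3 => ℝ) 2).symm q))) :=
    hm.comp e2.measurable
  have h3 : ∫⁻ q : ℝ × (Fin 2 → ℝ),
      F (WithLp.toLp 2 ((MeasurableEquiv.piFinSuccAbove (fun _ : Fin 3 => ℝ) 2).symm q)) =
      ∫⁻ z : ℝ, ∫⁻ w : Fin 2 → ℝ,
        F (WithLp.toLp 2 ((MeasurableEquiv.piFinSuccAbove (fun _ : Fin 3 => ℝ) 2).symm (z, w))) := by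
    exact lintegral_prod _ hm2.aemeasurable
  refine h3.trans ?_
  refine lintegral_congr fun z => ?_
  have hm3 : Measurable (fun w : Fin 2 → ℝ =>
      F (WithLp.toLp 2 ((MeasurableEquiv.piFinSuccAbove (fun _ : Fin 3 => ℝ) 2).symm (z, w)))) :=
    hm2.comp measurable_prodMk_left
  rw [← (volume_preserving_finTwoArrow ℝ).symm.lintegral_comp hm3]
  refine lintegral_congr fun p => ?_
  congr 2
  funext i
  fin_cases i <;> rfl

theorem sigB_polar (F : ℝ × ℝ → ENNReal) (hF : Measurable F) :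
    ∫⁻ p, F p = ∫⁻ φ in Set.Ioo (-Real.pi) Real.pi, ∫⁻ r in Set.Ioi (0:ℝ),
      ENNReal.ofReal r * F (r * Real.cos φ, r * Real.sin φ) := by
  rw [← lintegral_comp_polarCoord_symm F]
  have h1 : polarCoord.target = Set.Ioi (0:ℝ) ×ˢ Set.Ioo (-Real.pi) Real.pi := rfl
  rw [h1]
  have h2 : (volume : Measure (ℝ × ℝ)).restrict (Set.Ioi (0:ℝ) ×ˢ Set.Ioo (-Real.pi) Real.pi) =
      (volume.restrict (Set.Ioi (0:ℝ))).prod (volume.restrict (Set.Ioo (-Real.pi) Real.pi)) := by
    rw [Measure.prod_restrict]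
    rfl
  rw [h2, lintegral_prod_symm]
  · rfl
  · refine Measurable.aemeasurable ?_
    refine Measurable.mul ?_ ?_
    · fun_prop
    · exact hF.comp continuous_polarCoord_symm.measurable

theorem sigB_norm (τ φ : ℝ) (h : |τ| ≤ 1) : ‖pt τ φ‖ = 1 := by
  rw [EuclideanSpace.norm_eq]
  have h1 : 0 ≤ 1 - τ ^ 2 := by nlinarith [abs_le.1 h, sq_abs τ, abs_nonneg τ]
  rw [Real.sqrt_eq_one]
  simp only [pt, Fin.sum_univ_three, Real.norm_eq_abs, sq_abs]
  simp
  rw [mul_pow, mul_pow, Real.sq_sqrt h1]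
  nlinarith [Real.sin_sq_add_cos_sq φ]

theorem sigB_meas_pt : Measurable (fun q : ℝ × ℝ => pt q.1 q.2) := by
  have : Continuous (fun q : ℝ × ℝ => pt q.1 q.2) := by
    unfold pt
    rw [← (PiLp.homeomorph 2 (fun _ : Fin 3 => ℝ)).comp_continuous_iff]
    refine continuous_pi fun i => ?_
    fin_cases i
    · show Continuous fun q : ℝ × ℝ => √(1 - q.1 ^ 2) * Real.cos q.2
      fun_prop
    · show Continuous fun q : ℝ × ℝ => √(1 - q.1 ^ 2) * Real.sin q.2
      fun_prop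
    · show Continuous fun q : ℝ × ℝ => q.1
      fun_prop
  exact this.measurable

theorem sigB_cos (g : ℝ → ENNReal) :
    ∫⁻ θ in Set.Ioo (0:ℝ) Real.pi, ENNReal.ofReal (Real.sin θ) * g (Real.cos θ) =
      ∫⁻ τ in Set.Ioo (-1:ℝ) 1, g τ := by
  have him : Real.cos '' Set.Ioo (0:ℝ) Real.pi = Set.Ioo (-1:ℝ) 1 := by
    ext τ
    constructor
    · rintro ⟨θ, ⟨h0, h1⟩, rfl⟩
      constructor
      · have := Real.cos_lt_cos_of_nonneg_of_le_pi h0.le le_rfl h1
        rwa [Real.cos_pi] at this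
      · have := Real.cos_lt_cos_of_nonneg_of_le_pi le_rfl h1.le h0
        rwa [Real.cos_zero] at this
    · rintro ⟨h0, h1⟩
      refine ⟨Real.arccos τ, ⟨Real.arccos_pos.2 h1, ?_⟩, Real.cos_arccos h0.le h1.le⟩
      refine lt_of_le_of_ne (Real.arccos_le_pi τ) ?_
      intro h
      have := Real.cos_arccos h0.le h1.le
      rw [h, Real.cos_pi] at this
      exact h0.ne this
  have h := lintegral_image_eq_lintegral_abs_deriv_mul (s := Set.Ioo (0:ℝ) Real.pi)
    (f := Real.cos) (f' := fun θ => -Real.sin θ) measurableSet_Ioo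
    (fun x _ => (Real.hasDerivAt_cos x).hasDerivWithinAt)
    (Real.injOn_cos.mono Set.Ioo_subset_Icc_self) g
  rw [him] at h
  rw [h]
  refine setLIntegral_congr_fun measurableSet_Ioo fun θ hθ => ?_
  have h2 : |(-Real.sin θ)| = Real.sin θ := by
    rw [abs_neg, abs_of_pos (Real.sin_pos_of_pos_of_lt_pi hθ.1 hθ.2)]
  simp only [h2]

theorem sigB_cube : ∫⁻ r in Set.Ioo (0:ℝ) 1, ENNReal.ofReal (r ^ 2) = ENNReal.ofReal (1 / 3) := by
  rw [← ofReal_integral_eq_lintegral_ofReal]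
  · congr 1
    rw [← integral_Ioc_eq_integral_Ioo, ← intervalIntegral.integral_of_le zero_le_one,
      integral_pow]
    norm_num
  · exact (continuous_pow 2).integrableOn_Icc.mono_set Set.Ioo_subset_Icc_self
  · exact Filter.Eventually.of_forall fun r => sq_nonneg r

theorem sigB_inner (f : E3 → ENNReal) (φ θ : ℝ) (hθ : θ ∈ Set.Ioo (0:ℝ) Real.pi) :
    ∫⁻ r in Set.Ioi (0:ℝ), ENNReal.ofReal r * (Set.Ioi (0:ℝ)).indicator (fun ρ =>
      ENNReal.ofReal ρ * (Metric.ball (0:E3) 1).indicator (fun x => f (‖x‖⁻¹ • x))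
        !₂[ρ * Real.cos φ, ρ * Real.sin φ, r * Real.cos θ]) (r * Real.sin θ) =
      ENNReal.ofReal (1 / 3) * (ENNReal.ofReal (Real.sin θ) * f (pt (Real.cos θ) φ)) := by
  have hs : 0 < Real.sin θ := Real.sin_pos_of_pos_of_lt_pi hθ.1 hθ.2
  have hn : ‖pt (Real.cos θ) φ‖ = 1 := sigB_norm _ _ (Real.abs_cos_le_one θ)
  have hpt : ∀ r : ℝ, (!₂[r * Real.sin θ * Real.cos φ, r * Real.sin θ * Real.sin φ,
      r * Real.cos θ] : E3) = r • pt (Real.cos θ) φ := by
    intro r
    have h1 : √(1 - Real.cos θ ^ 2) = Real.sin θ := by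
      rw [← Real.sin_sq, Real.sqrt_sq hs.le]
    ext i
    fin_cases i
    · simp [pt, h1]
      ring
    · simp [pt, h1]
      ring
    · simp [pt]
  have h2 : ∀ r ∈ Set.Ioi (0:ℝ), ENNReal.ofReal r * (Set.Ioi (0:ℝ)).indicator (fun ρ =>
      ENNReal.ofReal ρ * (Metric.ball (0:E3) 1).indicator (fun x => f (‖x‖⁻¹ • x))
        !₂[ρ * Real.cos φ, ρ * Real.sin φ, r * Real.cos θ]) (r * Real.sin θ) =
      (Set.Iio (1:ℝ)).indicator (fun r => ENNReal.ofReal (r ^ 2)) r *
        (ENNReal.ofReal (Real.sin θ) * f (pt (Real.cos θ) φ)) := by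
    intro r hr
    have hr0 : (0:ℝ) < r := hr
    have h3 : r * Real.sin θ ∈ Set.Ioi (0:ℝ) := mul_pos hr0 hs
    rw [Set.indicator_of_mem h3, hpt r]
    by_cases h4 : r < 1
    · have h5 : r • pt (Real.cos θ) φ ∈ Metric.ball (0:E3) 1 := by
        rw [mem_ball_zero_iff, norm_smul, hn, mul_one, Real.norm_eq_abs, abs_of_pos hr0]
        exact h4
      have h6 : r ∈ Set.Iio (1:ℝ) := h4
      rw [Set.indicator_of_mem h5, Set.indicator_of_mem h6]
      have h7 : ‖r • pt (Real.cos θ) φ‖⁻¹ • (r • pt (Real.cos θ) φ) = pt (Real.cos θ) φ := by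
        rw [norm_smul, hn, mul_one, Real.norm_eq_abs, abs_of_pos hr0, smul_smul,
          inv_mul_cancel₀ hr0.ne', one_smul]
      rw [h7, ENNReal.ofReal_mul hr0.le, sq, ENNReal.ofReal_mul hr0.le]
      ring
    · have h5 : r • pt (Real.cos θ) φ ∉ Metric.ball (0:E3) 1 := by
        rw [mem_ball_zero_iff, norm_smul, hn, mul_one, Real.norm_eq_abs, abs_of_pos hr0]
        exact h4
      have h6 : r ∉ Set.Iio (1:ℝ) := h4
      rw [Set.indicator_of_notMem h5, Set.indicator_of_notMem h6]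
      simp
  rw [setLIntegral_congr_fun measurableSet_Ioi h2, lintegral_mul_const]
  · congr 1
    rw [← sigB_cube, lintegral_indicator measurableSet_Iio, Measure.restrict_restrict
      measurableSet_Iio]
    congr 2
    ext r
    simp [and_comm]
  · exact (Measurable.indicator (by fun_prop) measurableSet_Iio)

theorem sigB_phi (f : E3 → ENNReal) (hf : Measurable f) (φ : ℝ) :
    ∫⁻ z : ℝ, ∫⁻ r in Set.Ioi (0:ℝ), ENNReal.ofReal r *
      (Metric.ball (0:E3) 1).indicator (fun x => f (‖x‖⁻¹ • x))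
        !₂[r * Real.cos φ, r * Real.sin φ, z] =
      ENNReal.ofReal (1 / 3) * ∫⁻ τ in Set.Ioo (-1:ℝ) 1, f (pt τ φ) := by
  have hF : Measurable ((Metric.ball (0:E3) 1).indicator (fun x => f (‖x‖⁻¹ • x))) :=
    (hf.comp (by fun_prop)).indicator Metric.isOpen_ball.measurableSet
  obtain ⟨F, hFd⟩ : ∃ F, F = (Metric.ball (0:E3) 1).indicator (fun x => f (‖x‖⁻¹ • x)) := ⟨_, rfl⟩
  have hemb : Measurable (fun q : ℝ × ℝ =>
      (!₂[q.2 * Real.cos φ, q.2 * Real.sin φ, q.1] : E3)) := by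
    have : Continuous (fun q : ℝ × ℝ =>
      (!₂[q.2 * Real.cos φ, q.2 * Real.sin φ, q.1] : E3)) := by
      rw [← (PiLp.homeomorph 2 (fun _ : Fin 3 => ℝ)).comp_continuous_iff]
      refine continuous_pi fun i => ?_
      fin_cases i
      · show Continuous fun q : ℝ × ℝ => q.2 * Real.cos φ
        fun_prop
      · show Continuous fun q : ℝ × ℝ => q.2 * Real.sin φ
        fun_prop
      · show Continuous fun q : ℝ × ℝ => q.1
        fun_prop
    exact this.measurable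
  have hH : Measurable (fun q : ℝ × ℝ => (Set.Ioi (0:ℝ)).indicator (fun r =>
      ENNReal.ofReal r * F !₂[r * Real.cos φ, r * Real.sin φ, q.1]) q.2) := by
    have h1 : (fun q : ℝ × ℝ => (Set.Ioi (0:ℝ)).indicator (fun r =>
        ENNReal.ofReal r * F !₂[r * Real.cos φ, r * Real.sin φ, q.1]) q.2) =
        (Set.univ ×ˢ Set.Ioi (0:ℝ)).indicator (fun q : ℝ × ℝ =>
          ENNReal.ofReal q.2 * F !₂[q.2 * Real.cos φ, q.2 * Real.sin φ, q.1]) := by
      funext q
      by_cases hq : q.2 ∈ Set.Ioi (0:ℝ)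
      · rw [Set.indicator_of_mem hq, Set.indicator_of_mem]
        exact ⟨trivial, hq⟩
      · rw [Set.indicator_of_notMem hq, Set.indicator_of_notMem]
        exact fun h => hq h.2
    rw [h1]
    refine Measurable.indicator ?_ (MeasurableSet.univ.prod measurableSet_Ioi)
    refine Measurable.mul (by fun_prop) ?_
    rw [hFd]
    exact hF.comp hemb
  have h2 : ∫⁻ z : ℝ, ∫⁻ r in Set.Ioi (0:ℝ), ENNReal.ofReal r *
      F !₂[r * Real.cos φ, r * Real.sin φ, z] =
      ∫⁻ q : ℝ × ℝ, (Set.Ioi (0:ℝ)).indicator (fun r =>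
        ENNReal.ofReal r * F !₂[r * Real.cos φ, r * Real.sin φ, q.1]) q.2 := by
    have h3 := lintegral_prod (μ := (volume : Measure ℝ)) (ν := (volume : Measure ℝ)) _
      hH.aemeasurable
    refine Eq.trans ?_ h3.symm
    refine lintegral_congr fun z => ?_
    exact (lintegral_indicator measurableSet_Ioi _).symm
  rw [← hFd, h2, sigB_polar _ hH]
  have h4 : ∀ θ ∈ Set.Ioo (-Real.pi) Real.pi, ∫⁻ r in Set.Ioi (0:ℝ), ENNReal.ofReal r *
      (Set.Ioi (0:ℝ)).indicator (fun ρ =>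
        ENNReal.ofReal ρ * F !₂[ρ * Real.cos φ, ρ * Real.sin φ, r * Real.cos θ])
          (r * Real.sin θ) =
      (Set.Ioo (0:ℝ) Real.pi).indicator (fun θ => ENNReal.ofReal (1 / 3) *
        (ENNReal.ofReal (Real.sin θ) * f (pt (Real.cos θ) φ))) θ := by
    intro θ hθ
    by_cases h5 : θ ∈ Set.Ioo (0:ℝ) Real.pi
    · rw [Set.indicator_of_mem h5, hFd]
      exact sigB_inner f φ θ h5
    · rw [Set.indicator_of_notMem h5]
      have h6 : θ ≤ 0 := by
        by_contra hn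
        exact h5 ⟨not_le.1 hn, hθ.2⟩
      have h7 : Real.sin θ ≤ 0 := Real.sin_nonpos_of_nonpos_of_neg_pi_le h6 hθ.1.le
      rw [lintegral_eq_zero_iff' ]
      · filter_upwards [ae_restrict_mem measurableSet_Ioi] with r hr
        have hr0 : (0:ℝ) < r := hr
        rw [Set.indicator_of_notMem]
        · simp
        · simp only [Set.mem_Ioi, not_lt]
          exact mul_nonpos_of_nonneg_of_nonpos hr0.le h7
      · refine Measurable.aemeasurable ?_
        refine Measurable.mul (by fun_prop) ?_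
        exact hH.comp (g := fun q : ℝ × ℝ => (Set.Ioi (0:ℝ)).indicator (fun r =>
          ENNReal.ofReal r * F !₂[r * Real.cos φ, r * Real.sin φ, q.1]) q.2)
          (f := fun r : ℝ => (r * Real.cos θ, r * Real.sin θ)) (by fun_prop)
  rw [setLIntegral_congr_fun measurableSet_Ioo h4, lintegral_indicator measurableSet_Ioo,
    Measure.restrict_restrict measurableSet_Ioo]
  have h8 : Set.Ioo (0:ℝ) Real.pi ∩ Set.Ioo (-Real.pi) Real.pi = Set.Ioo (0:ℝ) Real.pi := by
    refine Set.inter_eq_left.2 fun x hx => ⟨?_, hx.2⟩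
    have := Real.pi_pos
    linarith [hx.1]
  rw [h8, lintegral_const_mul']
  · rw [sigB_cos (fun τ => f (pt τ φ))]
  · exact ENNReal.ofReal_ne_top

theorem sigB_lintegral (f : E3 → ENNReal) (hf : Measurable f) :
    ∫⁻ x, f x ∂sig = ENNReal.ofReal ((4 * Real.pi)⁻¹) *
      ∫⁻ τ in Set.Ioo (-1:ℝ) 1, ∫⁻ φ in Set.Ioo (-Real.pi) Real.pi, f (pt τ φ) := by
  have hF : Measurable ((Metric.ball (0:E3) 1).indicator (fun x => f (‖x‖⁻¹ • x))) :=
    (hf.comp (by fun_prop)).indicator Metric.isOpen_ball.measurableSet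
  have h0 : ∫⁻ x, f x ∂sig = ENNReal.ofReal (3 / (4 * Real.pi)) *
      ∫⁻ x, (Metric.ball (0:E3) 1).indicator (fun x => f (‖x‖⁻¹ • x)) x := by
    unfold sig
    rw [lintegral_smul_measure, lintegral_map hf (by fun_prop),
      lintegral_indicator Metric.isOpen_ball.measurableSet]
    rfl
  have hcy : Measurable (fun q : (ℝ × ℝ) × ℝ =>
      (!₂[q.2 * Real.cos q.1.2, q.2 * Real.sin q.1.2, q.1.1] : E3)) := by
    have : Continuous (fun q : (ℝ × ℝ) × ℝ =>
      (!₂[q.2 * Real.cos q.1.2, q.2 * Real.sin q.1.2, q.1.1] : E3)) := by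
      rw [← (PiLp.homeomorph 2 (fun _ : Fin 3 => ℝ)).comp_continuous_iff]
      refine continuous_pi fun i => ?_
      fin_cases i
      · show Continuous fun q : (ℝ × ℝ) × ℝ => q.2 * Real.cos q.1.2
        fun_prop
      · show Continuous fun q : (ℝ × ℝ) × ℝ => q.2 * Real.sin q.1.2
        fun_prop
      · show Continuous fun q : (ℝ × ℝ) × ℝ => q.1.1
        fun_prop
    exact this.measurable
  have hp : ∀ z : ℝ, Measurable (fun p : ℝ × ℝ => (!₂[p.1, p.2, z] : E3)) := by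
    intro z
    have : Continuous (fun p : ℝ × ℝ => (!₂[p.1, p.2, z] : E3)) := by
      rw [← (PiLp.homeomorph 2 (fun _ : Fin 3 => ℝ)).comp_continuous_iff]
      refine continuous_pi fun i => ?_
      fin_cases i
      · show Continuous fun p : ℝ × ℝ => p.1
        fun_prop
      · show Continuous fun p : ℝ × ℝ => p.2
        fun_prop
      · show Continuous fun p : ℝ × ℝ => z
        fun_prop
    exact this.measurable
  rw [h0, sigB_E3 _ hF]
  have h1 : ∫⁻ z : ℝ, ∫⁻ p : ℝ × ℝ,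
      (Metric.ball (0:E3) 1).indicator (fun x => f (‖x‖⁻¹ • x)) !₂[p.1, p.2, z] =
      ∫⁻ z : ℝ, ∫⁻ φ in Set.Ioo (-Real.pi) Real.pi, ∫⁻ r in Set.Ioi (0:ℝ),
        ENNReal.ofReal r * (Metric.ball (0:E3) 1).indicator (fun x => f (‖x‖⁻¹ • x))
          !₂[r * Real.cos φ, r * Real.sin φ, z] := by
    refine lintegral_congr fun z => ?_
    exact sigB_polar _ (hF.comp (hp z))
  have h2 : ∫⁻ z : ℝ, ∫⁻ φ in Set.Ioo (-Real.pi) Real.pi, ∫⁻ r in Set.Ioi (0:ℝ),
        ENNReal.ofReal r * (Metric.ball (0:E3) 1).indicator (fun x => f (‖x‖⁻¹ • x))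
          !₂[r * Real.cos φ, r * Real.sin φ, z] =
      ∫⁻ φ in Set.Ioo (-Real.pi) Real.pi, ∫⁻ z : ℝ, ∫⁻ r in Set.Ioi (0:ℝ),
        ENNReal.ofReal r * (Metric.ball (0:E3) 1).indicator (fun x => f (‖x‖⁻¹ • x))
          !₂[r * Real.cos φ, r * Real.sin φ, z] := by
    refine lintegral_lintegral_swap ?_
    refine Measurable.aemeasurable ?_
    refine Measurable.lintegral_prod_right' (f := fun q : (ℝ × ℝ) × ℝ =>
      ENNReal.ofReal q.2 * (Metric.ball (0:E3) 1).indicator (fun x => f (‖x‖⁻¹ • x))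
        !₂[q.2 * Real.cos q.1.2, q.2 * Real.sin q.1.2, q.1.1]) ?_
    exact Measurable.mul (by fun_prop) (hF.comp hcy)
  rw [h1, h2, lintegral_congr fun φ => sigB_phi f hf φ, lintegral_const_mul' _ _
    ENNReal.ofReal_ne_top, ← mul_assoc, ← ENNReal.ofReal_mul (by positivity)]
  have h3 : 3 / (4 * Real.pi) * (1 / 3) = (4 * Real.pi)⁻¹ := by
    field_simp
  rw [h3]
  congr 1
  refine lintegral_lintegral_swap ?_
  refine Measurable.aemeasurable ?_
  exact hf.comp (sigB_meas_pt.comp measurable_swap)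

end Pool.Agent.Lib_helper15.STE
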