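import Pool.Agent.Lib_helper15.STE.DefsG
import Pool.Agent.Lib_helper15.STE.B.sigA
import Pool.Agent.Lib_helper15.STE.B.sigB

/-! # STE, block sigC : integrals of bounded functions -/

open MeasureTheory Filter Topology
open scoped InnerProductSpace

namespace Pool.Agent.Lib_helper15.STE

theorem sigC_pt_norm (τ φ : ℝ) (hτ : |τ| ≤ 1) : ‖pt τ φ‖ = 1 := by
  have h1 : 0 ≤ 1 - τ ^ 2 := by
    have := (sq_le_one_iff_abs_le_one τ).2 hτ
    linarith
  have h2 : ‖pt τ φ‖ ^ 2 = 1 := by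
    rw [EuclideanSpace.norm_sq_eq, Fin.sum_univ_three]
    simp only [pt, Real.norm_eq_abs, sq_abs]
    simp only [Matrix.cons_val_zero, Matrix.cons_val_one, Matrix.cons_val]
    have h3 := Real.sq_sqrt h1
    have h4 := Real.sin_sq_add_cos_sq φ
    calc (√(1 - τ ^ 2) * Real.cos φ) ^ 2 + (√(1 - τ ^ 2) * Real.sin φ) ^ 2 + τ ^ 2
        = √(1 - τ ^ 2) ^ 2 * (Real.sin φ ^ 2 + Real.cos φ ^ 2) + τ ^ 2 := by ring
      _ = 1 := by rw [h3, h4]; ring
  nlinarith [norm_nonneg (pt τ φ)]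

theorem sigC_pt_cont : Continuous (fun z : ℝ × ℝ => pt z.1 z.2) := by
  unfold pt
  refine (PiLp.continuous_toLp 2 _).comp ?_
  refine continuous_pi ?_
  intro i
  fin_cases i
  · simp only [Matrix.cons_val_zero, Fin.zero_eta]
    fun_prop
  · simp only [Matrix.cons_val_one, Fin.mk_one]
    fun_prop
  · simp only [Matrix.cons_val, Fin.reduceFinMk]
    fun_prop

theorem sigC_pt_meas : Measurable (fun z : ℝ × ℝ => pt z.1 z.2) := sigC_pt_cont.measurable

theorem sigC_pt_meas_right (τ : ℝ) : Measurable (fun φ : ℝ => pt τ φ) :=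
  sigC_pt_meas.comp (measurable_const.prodMk measurable_id)

theorem sigC_cm_eq (f : E3 → ℝ) (τ : ℝ) :
    cm f τ = (2 * Real.pi)⁻¹ * ∫ φ in Set.Ioc (-Real.pi) Real.pi, f (pt τ φ) := by
  unfold cm av
  rw [intervalIntegral.integral_of_le (by linarith [Real.pi_pos])]

theorem sigC_cm_meas (f : E3 → ℝ) (hf : Measurable f) : Measurable (cm f) := by
  have h1 : StronglyMeasurable (fun z : ℝ × ℝ => f (pt z.1 z.2)) :=
    (hf.comp sigC_pt_meas).stronglyMeasurable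
  have h2 := (MeasureTheory.StronglyMeasurable.integral_prod_right'
    (ν := volume.restrict (Set.Ioc (-Real.pi) Real.pi)) h1).measurable
  have h3 : cm f = fun τ => (2 * Real.pi)⁻¹ * ∫ φ in Set.Ioc (-Real.pi) Real.pi, f (pt τ φ) := by
    funext τ
    exact sigC_cm_eq f τ
  rw [h3]
  exact h2.const_mul _

theorem sigC_intOn (f : E3 → ℝ) (hf : Measurable f) (C : ℝ)
    (hC : ∀ x, ‖x‖ = 1 → |f x| ≤ C) (τ : ℝ) (hτ : |τ| ≤ 1) :
    IntegrableOn (fun φ => f (pt τ φ)) (Set.Ioc (-Real.pi) Real.pi) := by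
  refine Measure.integrableOn_of_bounded (M := C) ?_ ?_ ?_
  · simp
  · exact (hf.comp (sigC_pt_meas_right τ)).aestronglyMeasurable
  · refine ae_of_all _ ?_
    intro φ
    exact hC _ (sigC_pt_norm τ φ hτ)

theorem sigC_cm_bound (f : E3 → ℝ) (C : ℝ) (hC : ∀ x, ‖x‖ = 1 → |f x| ≤ C) (τ : ℝ)
    (hτ : |τ| ≤ 1) : |cm f τ| ≤ C := by
  unfold cm av
  have h1 : ‖∫ φ in (-Real.pi)..Real.pi, f (pt τ φ)‖ ≤ C * |Real.pi - (-Real.pi)| :=
    intervalIntegral.norm_integral_le_of_norm_le_const (fun φ _ => hC _ (sigC_pt_norm τ φ hτ))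
  rw [Real.norm_eq_abs] at h1
  rw [abs_mul, abs_of_pos (by positivity : (0:ℝ) < (2 * Real.pi)⁻¹)]
  have h2 : |Real.pi - (-Real.pi)| = 2 * Real.pi := by
    rw [abs_of_pos] <;> linarith [Real.pi_pos]
  rw [h2] at h1
  calc (2 * Real.pi)⁻¹ * |∫ φ in (-Real.pi)..Real.pi, f (pt τ φ)|
      ≤ (2 * Real.pi)⁻¹ * (C * (2 * Real.pi)) := by
        exact mul_le_mul_of_nonneg_left h1 (by positivity)
    _ = C := by field_simp

theorem sigC_cm_mono (f g : E3 → ℝ) (hf : Measurable f) (hg : Measurable g) (C : ℝ)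
    (hC : ∀ x, ‖x‖ = 1 → |f x| ≤ C) (hC' : ∀ x, ‖x‖ = 1 → |g x| ≤ C)
    (hfg : ∀ x, ‖x‖ = 1 → f x ≤ g x) (τ : ℝ) (hτ : |τ| ≤ 1) : cm f τ ≤ cm g τ := by
  rw [sigC_cm_eq, sigC_cm_eq]
  refine mul_le_mul_of_nonneg_left ?_ (by positivity)
  exact setIntegral_mono (sigC_intOn f hf C hC τ hτ) (sigC_intOn g hg C hC' τ hτ)
    (fun φ => hfg _ (sigC_pt_norm τ φ hτ))

theorem sigC_cm_sq (f : E3 → ℝ) (hf : Measurable f) (C : ℝ) (hC : ∀ x, ‖x‖ = 1 → |f x| ≤ C)
    (τ : ℝ) (hτ : |τ| ≤ 1) : cm f τ ^ 2 ≤ cm (fun x => f x ^ 2) τ := by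
  set m := cm f τ with hm
  have hint1 := sigC_intOn f hf C hC τ hτ
  have hC0 : 0 ≤ C := (abs_nonneg _).trans (hC _ (sigC_pt_norm τ 0 hτ))
  have hint2 : IntegrableOn (fun φ => f (pt τ φ) ^ 2) (Set.Ioc (-Real.pi) Real.pi) := by
    refine sigC_intOn (fun x => f x ^ 2) (hf.pow_const 2) (C ^ 2) ?_ τ hτ
    intro x hx
    rw [abs_pow]
    exact pow_le_pow_left₀ (abs_nonneg _) (hC x hx) 2
  have h0 : 0 ≤ ∫ φ in Set.Ioc (-Real.pi) Real.pi, (f (pt τ φ) - m) ^ 2 :=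
    integral_nonneg (fun φ => sq_nonneg _)
  have h1 : (∫ φ in Set.Ioc (-Real.pi) Real.pi, (f (pt τ φ) - m) ^ 2) =
      (∫ φ in Set.Ioc (-Real.pi) Real.pi, f (pt τ φ) ^ 2)
        - 2 * m * (∫ φ in Set.Ioc (-Real.pi) Real.pi, f (pt τ φ)) + 2 * Real.pi * m ^ 2 := by
    have h2 : (fun φ => (f (pt τ φ) - m) ^ 2) =
        fun φ => (f (pt τ φ) ^ 2 - 2 * m * f (pt τ φ)) + m ^ 2 := by
      funext φ
      ring
    have i1 : IntegrableOn (fun φ => 2 * m * f (pt τ φ)) (Set.Ioc (-Real.pi) Real.pi) :=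
      hint1.const_mul _
    have i2 : IntegrableOn (fun φ => f (pt τ φ) ^ 2 - 2 * m * f (pt τ φ))
      (Set.Ioc (-Real.pi) Real.pi) := hint2.sub i1
    have i3 : IntegrableOn (fun _ : ℝ => m ^ 2) (Set.Ioc (-Real.pi) Real.pi) := by
      rw [integrableOn_const_iff]
      right
      simp
    rw [h2, integral_add i2 i3, integral_sub hint2 i1, integral_const_mul]
    have h3 : (∫ _φ in Set.Ioc (-Real.pi) Real.pi, m ^ 2) = 2 * Real.pi * m ^ 2 := by
      rw [setIntegral_const, Measure.real, Real.volume_Ioc,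
        ENNReal.toReal_ofReal (by linarith [Real.pi_pos]), smul_eq_mul]
      ring
    rw [h3]
  have h4 : (∫ φ in Set.Ioc (-Real.pi) Real.pi, f (pt τ φ)) = 2 * Real.pi * m := by
    rw [hm, sigC_cm_eq]
    field_simp
  rw [sigC_cm_eq]
  rw [h1, h4] at h0
  have h5 : 2 * Real.pi * m ^ 2 ≤ ∫ φ in Set.Ioc (-Real.pi) Real.pi, f (pt τ φ) ^ 2 := by
    linarith
  calc m ^ 2 = (2 * Real.pi)⁻¹ * (2 * Real.pi * m ^ 2) := by field_simp
    _ ≤ (2 * Real.pi)⁻¹ * ∫ φ in Set.Ioc (-Real.pi) Real.pi, f (pt τ φ) ^ 2 :=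
        mul_le_mul_of_nonneg_left h5 (by positivity)

theorem sigC_abs_le {τ : ℝ} (hτ : τ ∈ Set.Ioo (-1:ℝ) 1) : |τ| ≤ 1 := by
  rw [abs_le]
  exact ⟨hτ.1.le, hτ.2.le⟩

/-- nonnegative bounded functions -/
theorem sigC_integral_nonneg (f : E3 → ℝ) (hf : Measurable f) (C : ℝ)
    (hC : ∀ x, ‖x‖ = 1 → |f x| ≤ C) (h0 : ∀ x, 0 ≤ f x) :
    ∫ x, f x ∂sig = 1 / 2 * ∫ τ in (-1:ℝ)..1, cm f τ := by
  have hcm0 : ∀ τ, 0 ≤ cm f τ := by
    intro τ
    rw [sigC_cm_eq]
    exact mul_nonneg (by positivity) (integral_nonneg (fun φ => h0 _))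
  rw [integral_eq_lintegral_of_nonneg_ae (ae_of_all _ h0) hf.aestronglyMeasurable,
    sigB_lintegral (fun x => ENNReal.ofReal (f x)) hf.ennreal_ofReal]
  have h1 : ∀ τ ∈ Set.Ioo (-1:ℝ) 1,
      (∫⁻ φ in Set.Ioo (-Real.pi) Real.pi, ENNReal.ofReal (f (pt τ φ))) =
        ENNReal.ofReal (2 * Real.pi * cm f τ) := by
    intro τ hτ
    have h2 : (∫⁻ φ in Set.Ioo (-Real.pi) Real.pi, ENNReal.ofReal (f (pt τ φ))) =
        ∫⁻ φ in Set.Ioc (-Real.pi) Real.pi, ENNReal.ofReal (f (pt τ φ)) :=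
      setLIntegral_congr Ioo_ae_eq_Ioc
    rw [h2, ← ofReal_integral_eq_lintegral_ofReal (sigC_intOn f hf C hC τ (sigC_abs_le hτ))
      (ae_of_all _ (fun φ => h0 _)), sigC_cm_eq]
    congr 1
    field_simp
  rw [setLIntegral_congr_fun measurableSet_Ioo h1]
  have h3 : IntegrableOn (fun τ => 2 * Real.pi * cm f τ) (Set.Ioo (-1:ℝ) 1) := by
    refine Measure.integrableOn_of_bounded (M := 2 * Real.pi * C) ?_ ?_ ?_
    · simp
    · exact ((sigC_cm_meas f hf).const_mul _).aestronglyMeasurable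
    · rw [ae_restrict_iff' measurableSet_Ioo]
      refine ae_of_all _ ?_
      intro τ hτ
      rw [Real.norm_eq_abs, abs_mul, abs_of_pos (by positivity : (0:ℝ) < 2 * Real.pi)]
      exact mul_le_mul_of_nonneg_left (sigC_cm_bound f C hC τ (sigC_abs_le hτ)) (by positivity)
  rw [← ofReal_integral_eq_lintegral_ofReal h3
    (ae_of_all _ (fun τ => mul_nonneg (by positivity) (hcm0 τ))),
    ← ENNReal.ofReal_mul (by positivity), ENNReal.toReal_ofReal, integral_const_mul,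
    intervalIntegral.integral_of_le (by norm_num), integral_Ioc_eq_integral_Ioo]
  · field_simp
    norm_num
  · refine mul_nonneg (by positivity) (integral_nonneg (fun τ => ?_))
    exact mul_nonneg (by positivity) (hcm0 τ)

theorem sigC_integral (f : E3 → ℝ) (hf : Measurable f) (C : ℝ)
    (hC : ∀ x, ‖x‖ = 1 → |f x| ≤ C) :
    Integrable f sig ∧ ∫ x, f x ∂sig = 1 / 2 * ∫ τ in (-1:ℝ)..1, cm f τ := by
  have := sigA_prob
  have hI : ∀ g : E3 → ℝ, Measurable g → (∀ x, ‖x‖ = 1 → |g x| ≤ C) → Integrable g sig := by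
    intro g hg hgC
    refine Integrable.of_bound hg.aestronglyMeasurable C ?_
    filter_upwards [sigA_sphere] with x hx
    exact hgC x hx
  refine ⟨hI f hf hC, ?_⟩
  have hfp : Measurable (fun x => max (f x) 0) := hf.max measurable_const
  have hfm : Measurable (fun x => max (-f x) 0) := hf.neg.max measurable_const
  have hCp : ∀ x, ‖x‖ = 1 → |max (f x) 0| ≤ C := by
    intro x hx
    have := hC x hx
    rw [abs_le] at this ⊢
    constructor
    · exact this.1.trans (le_max_left _ _)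
    · exact max_le this.2 ((abs_nonneg _).trans (hC x hx))
  have hCm : ∀ x, ‖x‖ = 1 → |max (-f x) 0| ≤ C := by
    intro x hx
    have := hC x hx
    rw [abs_le] at this ⊢
    constructor
    · exact le_trans (by linarith) (le_max_left _ _)
    · exact max_le (by linarith) ((abs_nonneg _).trans (hC x hx))
  have e1 := sigC_integral_nonneg _ hfp C hCp (fun x => le_max_right _ _)
  have e2 := sigC_integral_nonneg _ hfm C hCm (fun x => le_max_right _ _)
  have e3 : ∀ a : ℝ, a = max a 0 - max (-a) 0 := by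
    intro a
    rcases le_total 0 a with h | h
    · rw [max_eq_left h, max_eq_right (by linarith)]; ring
    · rw [max_eq_right h, max_eq_left (by linarith)]; ring
  have e4 : ∫ x, f x ∂sig = (∫ x, max (f x) 0 ∂sig) - ∫ x, max (-f x) 0 ∂sig := by
    rw [← integral_sub (hI _ hfp hCp) (hI _ hfm hCm)]
    exact integral_congr_ae (ae_of_all _ (fun x => e3 (f x)))
  have e5 : ∀ τ ∈ Set.uIcc (-1:ℝ) 1,
      cm f τ = cm (fun x => max (f x) 0) τ - cm (fun x => max (-f x) 0) τ := by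
    intro τ hτ
    rw [Set.uIcc_of_le (by norm_num)] at hτ
    have hτ' : |τ| ≤ 1 := abs_le.2 ⟨hτ.1, hτ.2⟩
    rw [sigC_cm_eq, sigC_cm_eq, sigC_cm_eq, ← mul_sub,
      ← integral_sub (sigC_intOn _ hfp C hCp τ hτ') (sigC_intOn _ hfm C hCm τ hτ')]
    congr 1
    exact integral_congr_ae (ae_of_all _ (fun φ => e3 (f (pt τ φ))))
  have hcmI : ∀ g : E3 → ℝ, Measurable g → (∀ x, ‖x‖ = 1 → |g x| ≤ C) →
      IntervalIntegrable (cm g) volume (-1) 1 := by
    intro g hg hgC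
    rw [intervalIntegrable_iff_integrableOn_Ioc_of_le (by norm_num)]
    refine Measure.integrableOn_of_bounded (M := C) ?_ ?_ ?_
    · simp
    · exact (sigC_cm_meas g hg).aestronglyMeasurable
    · rw [ae_restrict_iff' measurableSet_Ioc]
      refine ae_of_all _ ?_
      intro τ hτ
      exact sigC_cm_bound g C hgC τ (abs_le.2 ⟨hτ.1.le, hτ.2⟩)
  rw [e4, e1, e2, intervalIntegral.integral_congr e5,
    intervalIntegral.integral_sub (hcmI _ hfp hCp) (hcmI _ hfm hCm)]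
  ring

end Pool.Agent.Lib_helper15.STE
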