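import Pool.Agent.Lib_helper15.STE.DefsG

/-! # STE, block scl : scaling -/

open MeasureTheory Filter Topology
open scoped InnerProductSpace Pointwise

namespace Pool.Agent.Lib_helper15.STE

theorem scl_edist {n : ℕ} (c : EuclideanSpace ℝ (Fin n)) (r : ℝ) (hr : 0 < r)
    (x y : EuclideanSpace ℝ (Fin n)) :
    edist (c + r • x) (c + r • y) = ENNReal.ofReal r * edist x y := by
  rw [edist_add_left, edist_smul₀, ENNReal.smul_def, smul_eq_mul]
  congr 1
  rw [← ENNReal.ofReal_coe_nnreal]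
  congr 1
  simp [abs_of_pos hr]

theorem scl_infEDist {n : ℕ} (K : Set (EuclideanSpace ℝ (Fin n)))
    (c : EuclideanSpace ℝ (Fin n)) (r : ℝ) (hr : 0 < r) (x : EuclideanSpace ℝ (Fin n)) :
    Metric.infEDist (c + r • x) ((fun x => c + r • x) '' K)
      = ENNReal.ofReal r * Metric.infEDist x K := by
  have h0 : ENNReal.ofReal r ≠ 0 := by simpa using hr
  have h1 : ENNReal.ofReal r ≠ ⊤ := ENNReal.ofReal_ne_top
  unfold Metric.infEDist
  rw [iInf_image]
  simp_rw [scl_edist c r hr]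
  rw [ENNReal.mul_iInf_of_ne h0 h1]
  congr 1
  ext y
  rw [ENNReal.mul_iInf_of_ne h0 h1]

theorem scl_surj {n : ℕ} (c : EuclideanSpace ℝ (Fin n)) (r : ℝ) (hr : 0 < r)
    (x : EuclideanSpace ℝ (Fin n)) : ∃ y, c + r • y = x :=
  ⟨r⁻¹ • (x - c), by rw [smul_smul, mul_inv_cancel₀ hr.ne', one_smul]; abel⟩

theorem scl_inj {n : ℕ} (c : EuclideanSpace ℝ (Fin n)) (r : ℝ) (hr : 0 < r) :
    Function.Injective (fun x : EuclideanSpace ℝ (Fin n) => c + r • x) := by
  intro x y h
  have h1 : r • x = r • y := add_left_cancel h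
  exact smul_right_injective _ hr.ne' h1

theorem scl_cthick {n : ℕ} (K : Set (EuclideanSpace ℝ (Fin n)))
    (c : EuclideanSpace ℝ (Fin n)) (r : ℝ) (hr : 0 < r) (ε : ℝ) :
    Metric.cthickening (r * ε) ((fun x => c + r • x) '' K)
      = (fun x => c + r • x) '' (Metric.cthickening ε K) := by
  have h0 : ENNReal.ofReal r ≠ 0 := by simpa using hr
  have h1 : ENNReal.ofReal r ≠ ⊤ := ENNReal.ofReal_ne_top
  ext z
  obtain ⟨x, rfl⟩ := scl_surj c r hr z
  rw [(scl_inj c r hr).mem_set_image, Metric.mem_cthickening_iff, Metric.mem_cthickening_iff,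
    scl_infEDist K c r hr x, ENNReal.ofReal_mul hr.le, ENNReal.mul_le_mul_iff_right h0 h1]

theorem scl_vol {n : ℕ} (K : Set (EuclideanSpace ℝ (Fin n)))
    (c : EuclideanSpace ℝ (Fin n)) (r : ℝ) (hr : 0 < r) :
    volume ((fun x => c + r • x) '' K) = ENNReal.ofReal (r ^ n) * volume K := by
  have h : (fun x => c + r • x) '' K = (fun x => c + x) '' (r • K) := by
    ext z
    simp only [Set.mem_image, Set.mem_smul_set]
    constructor
    · rintro ⟨x, hx, rfl⟩
      exact ⟨r • x, ⟨x, hx, rfl⟩, rfl⟩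
    · rintro ⟨_, ⟨x, hx, rfl⟩, rfl⟩
      exact ⟨x, hx, rfl⟩
  rw [h, Set.image_add_left, measure_preimage_add, Measure.addHaar_smul, finrank_euclideanSpace,
    Fintype.card_fin, abs_of_pos (pow_pos hr n)]

theorem scl_tend (r : ℝ) (hr : 0 < r) :
    Tendsto (fun ε : ℝ => r * ε) (𝓝[>] (0:ℝ)) (𝓝[>] (0:ℝ)) := by
  apply tendsto_nhdsWithin_of_tendsto_nhds_of_eventually_within
  · have h : Tendsto (fun ε : ℝ => r * ε) (𝓝 0) (𝓝 (r * 0)) :=
      (continuous_const.mul continuous_id).tendsto 0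
    rw [mul_zero] at h
    exact h.mono_left nhdsWithin_le_nhds
  · filter_upwards [self_mem_nhdsWithin] with ε hε
    have hε : 0 < ε := hε
    exact mul_pos hr hε

theorem scl_map (r : ℝ) (hr : 0 < r) :
    Filter.map (fun ε : ℝ => r * ε) (𝓝[>] (0:ℝ)) = 𝓝[>] (0:ℝ) := by
  apply le_antisymm
  · exact scl_tend r hr
  · have h := Filter.map_mono (m := fun ε : ℝ => r * ε) (scl_tend r⁻¹ (inv_pos.mpr hr))
    rw [Filter.map_map] at h
    have e : (fun ε : ℝ => r * ε) ∘ (fun ε : ℝ => r⁻¹ * ε) = id := by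
      ext ε
      simp [mul_inv_cancel_left₀ hr.ne']
    rw [e, Filter.map_id] at h
    exact h

theorem scl_bd {n : ℕ} (hn : 1 ≤ n) (K : Set (EuclideanSpace ℝ (Fin n)))
    (c : EuclideanSpace ℝ (Fin n)) (r : ℝ) (hr : 0 < r) :
    bd ((fun x => c + r • x) '' K) = ENNReal.ofReal (r ^ (n - 1)) * bd K ∧
      volume ((fun x => c + r • x) '' K) = ENNReal.ofReal (r ^ n) * volume K := by
  refine ⟨?_, scl_vol K c r hr⟩
  unfold bd
  have h0 : ENNReal.ofReal (r ^ (n - 1)) ≠ 0 := by
    have := pow_pos hr (n - 1)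
    simpa using this
  have h1 : ENNReal.ofReal (r ^ (n - 1)) ≠ ⊤ := ENNReal.ofReal_ne_top
  rw [← ENNReal.liminf_const_mul_of_ne_zero_of_ne_top h0 h1]
  conv_lhs => rw [← scl_map r hr]
  rw [← Filter.liminf_comp]
  apply Filter.liminf_congr
  filter_upwards [self_mem_nhdsWithin] with ε hε
  have hε : 0 < ε := hε
  simp only [Function.comp]
  rw [scl_cthick K c r hr ε, ← Set.image_sdiff (scl_inj c r hr), scl_vol _ c r hr]
  have e1 : r ^ n = r ^ (n - 1) * r := by
    rw [← pow_succ]; congr 1; omega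
  rw [e1, ENNReal.ofReal_mul (pow_pos hr _).le, ENNReal.ofReal_mul hr.le, mul_div_assoc,
    mul_assoc]
  congr 1
  have h2 : ENNReal.ofReal r ≠ 0 := by simpa using hr
  have h3 : ENNReal.ofReal r ≠ ⊤ := ENNReal.ofReal_ne_top
  rw [← mul_div_assoc, ENNReal.mul_div_mul_left _ _ h2 h3]

theorem scl_moment (K : Set E3) (hK : MeasurableSet K) (c : E3) (r : ℝ) (hr : 0 < r)
    (i : Fin 3) :
    ∫ x in (fun x => c + r • x) '' K, (x i - c i) = r ^ 4 * ∫ x in K, x i := by
  have hm : Measure.map (fun x : E3 => c + r • x) (volume : Measure E3)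
      = ENNReal.ofReal ((r ^ 3)⁻¹) • (volume : Measure E3) := by
    have h1 : (fun x : E3 => c + r • x) = (fun x => c + x) ∘ (fun x => r • x) := rfl
    rw [h1, ← Measure.map_map (measurable_const_add c) (measurable_const_smul r),
      Measure.map_addHaar_smul _ hr.ne', Measure.map_smul, map_add_left_eq_self,
      finrank_euclideanSpace, Fintype.card_fin, abs_of_pos (inv_pos.mpr (pow_pos hr 3))]
  have hv : (volume : Measure E3)
      = ENNReal.ofReal (r ^ 3) • Measure.map (fun x : E3 => c + r • x) volume := by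
    rw [hm, smul_smul, ← ENNReal.ofReal_mul (pow_pos hr 3).le,
      mul_inv_cancel₀ (pow_pos hr 3).ne', ENNReal.ofReal_one, one_smul]
  have hme : MeasurableEmbedding (fun x : E3 => c + r • x) := by
    have h1 : (fun x : E3 => c + r • x) = (fun x => c + x) ∘ (fun x => r • x) := rfl
    rw [h1]
    exact (measurableEmbedding_addLeft c).comp (measurableEmbedding_const_smul₀ hr.ne')
  conv_lhs => rw [hv]
  rw [Measure.restrict_smul, integral_smul_measure, hme.setIntegral_map,
    Set.preimage_image_eq _ (scl_inj c r hr)]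
  rw [ENNReal.toReal_ofReal (pow_pos hr 3).le]
  have e : ∀ x : E3, (c + r • x) i - c i = r * x i := by
    intro x
    simp
  simp_rw [e]
  rw [integral_const_mul, smul_eq_mul]
  ring

end Pool.Agent.Lib_helper15.STE
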