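import Pool.Agent.Lib_helper15.STE.DefsG

/-! # STE, block ball -/

open MeasureTheory Filter Topology
open scoped InnerProductSpace

namespace Pool.Agent.Lib_helper15.STE

theorem ball_vol3 (c : E3) (r : ℝ) (hr : 0 ≤ r) :
    volume (Metric.closedBall c r) = ENNReal.ofReal (4 / 3 * Real.pi * r ^ 3) := by
  rw [EuclideanSpace.volume_closedBall_fin_three, ← ENNReal.ofReal_pow hr,
    ← ENNReal.ofReal_mul (by positivity)]
  congr 1
  ring

theorem ball_vol2 (c : E2) (r : ℝ) (hr : 0 ≤ r) :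
    volume (Metric.closedBall c r) = ENNReal.ofReal (Real.pi * r ^ 2) := by
  rw [EuclideanSpace.volume_closedBall_fin_two, ← ENNReal.ofReal_pow hr,
    ← ENNReal.ofReal_mul (by positivity)]
  congr 1
  ring

theorem ball_bd {n : ℕ} [Nonempty (Fin n)] (c : EuclideanSpace ℝ (Fin n)) (r : ℝ) (hr : 0 ≤ r)
    (v g : ℝ → ℝ) (hv : ∀ r, 0 ≤ r → volume (Metric.closedBall c r) = ENNReal.ofReal (v r))
    (hv0 : ∀ r, 0 ≤ r → 0 ≤ v r)
    (hg : ∀ ε, 0 < ε → (v (r + ε) - v r) / ε = g ε) (hgc : ContinuousAt g 0) :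
    bd (Metric.closedBall c r) = ENNReal.ofReal (g 0) := by
  have h1 : Tendsto (fun ε : ℝ => volume (Metric.cthickening ε (Metric.closedBall c r) \
      Metric.closedBall c r) / ENNReal.ofReal ε) (𝓝[>] (0:ℝ)) (𝓝 (ENNReal.ofReal (g 0))) := by
    have h2 : Tendsto (fun ε : ℝ => ENNReal.ofReal (g ε)) (𝓝[>] (0:ℝ))
        (𝓝 (ENNReal.ofReal (g 0))) :=
      (ENNReal.continuous_ofReal.tendsto _).comp (hgc.tendsto.mono_left nhdsWithin_le_nhds)
    refine h2.congr' ?_
    filter_upwards [self_mem_nhdsWithin] with ε hε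
    have hε' : 0 < ε := hε
    rw [cthickening_closedBall hε'.le hr, measure_sdiff
      (Metric.closedBall_subset_closedBall (by linarith))
      Metric.isClosed_closedBall.measurableSet.nullMeasurableSet
      (isCompact_closedBall _ _).measure_lt_top.ne, hv _ (by linarith), hv _ hr,
      ← ENNReal.ofReal_sub _ (hv0 _ hr), ← ENNReal.ofReal_div_of_pos hε', add_comm ε r,
      hg ε hε']
  exact h1.liminf_eq

theorem ball_bd3 (c : E3) (r : ℝ) (hr : 0 ≤ r) :
    bd (Metric.closedBall c r) = ENNReal.ofReal (4 * Real.pi * r ^ 2) := by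
  rw [ball_bd c r hr (fun r => 4 / 3 * Real.pi * r ^ 3)
    (fun ε => 4 / 3 * Real.pi * (3 * r ^ 2 + 3 * r * ε + ε ^ 2)) (fun r hr => ball_vol3 c r hr)
    (fun r hr => by positivity) (fun ε hε => by field_simp; ring) (by fun_prop)]
  congr 1
  ring

theorem ball_bd2 (c : E2) (r : ℝ) (hr : 0 ≤ r) :
    bd (Metric.closedBall c r) = ENNReal.ofReal (2 * Real.pi * r) := by
  rw [ball_bd c r hr (fun r => Real.pi * r ^ 2)
    (fun ε => Real.pi * (2 * r + ε)) (fun r hr => ball_vol2 c r hr)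
    (fun r hr => by positivity) (fun ε hε => by field_simp; ring) (by fun_prop)]
  congr 1
  ring

/-- the plane through the origin, as a linear isometry -/
noncomputable def ball_lin : E2 →ₗᵢ[ℝ] E3 where
  toFun y := !₂[y 0, y 1, 0]
  map_add' x y := by
    ext i
    fin_cases i <;> simp
  map_smul' t x := by
    ext i
    fin_cases i <;> simp
  norm_map' x := by
    rw [EuclideanSpace.norm_eq, EuclideanSpace.norm_eq]
    simp [Fin.sum_univ_three, Fin.sum_univ_two]

theorem ball_case (c : E3) (r : ℝ) (hr : 0 < r) :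
    4 * Real.pi / 9 * (sInf (iot (Metric.closedBall c r))) ^ 2 ≤
      (volume (Metric.closedBall c r)).toReal ^ 2 / (bd (Metric.closedBall c r)).toReal ^ 3 := by
  have hpi := Real.pi_pos
  have h0 : ∀ x ∈ iot (Metric.closedBall c r), 0 ≤ x := by
    rintro x ⟨P, -, rfl⟩
    positivity
  have h1 : 1 / (4 * Real.pi) ∈ iot (Metric.closedBall c r) := by
    refine ⟨(AffineIsometryEquiv.vaddConst ℝ c).toAffineIsometry.comp
      ball_lin.toAffineIsometry, ?_⟩
    have h2 : ((AffineIsometryEquiv.vaddConst ℝ c).toAffineIsometry.comp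
        ball_lin.toAffineIsometry) ⁻¹' (Metric.closedBall c r) =
        Metric.closedBall (0 : E2) r := by
      ext y
      rw [Set.mem_preimage, Metric.mem_closedBall, mem_closedBall_zero_iff]
      have h3 : dist (((AffineIsometryEquiv.vaddConst ℝ c).toAffineIsometry.comp
          ball_lin.toAffineIsometry) y) c = ‖y‖ := by
        simp [dist_eq_norm]
      rw [h3]
    rw [h2, ball_bd2 _ _ hr.le, ball_vol2 _ _ hr.le]
    refine ⟨ENNReal.ofReal_pos.2 (by positivity), ?_⟩
    rw [ENNReal.toReal_ofReal (by positivity), ENNReal.toReal_ofReal (by positivity)]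
    field_simp
    ring
  have h4 : sInf (iot (Metric.closedBall c r)) ≤ 1 / (4 * Real.pi) :=
    csInf_le ⟨0, fun x hx => h0 x hx⟩ h1
  have h5 : 0 ≤ sInf (iot (Metric.closedBall c r)) := Real.sInf_nonneg h0
  have h6 : (sInf (iot (Metric.closedBall c r))) ^ 2 ≤ (1 / (4 * Real.pi)) ^ 2 :=
    pow_le_pow_left₀ h5 h4 2
  rw [ball_bd3 _ _ hr.le, ball_vol3 _ _ hr.le, ENNReal.toReal_ofReal (by positivity),
    ENNReal.toReal_ofReal (by positivity)]
  calc 4 * Real.pi / 9 * (sInf (iot (Metric.closedBall c r))) ^ 2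
      ≤ 4 * Real.pi / 9 * (1 / (4 * Real.pi)) ^ 2 :=
        mul_le_mul_of_nonneg_left h6 (by positivity)
    _ = (4 / 3 * Real.pi * r ^ 3) ^ 2 / (4 * Real.pi * r ^ 2) ^ 3 := by
        field_simp
        ring

end Pool.Agent.Lib_helper15.STE
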