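import Pool.Agent.Lib_helper15.STE.DefsG
import Pool.Agent.Lib_helper15.STE.B.sigA
import Pool.Agent.Lib_helper15.STE.B.admA

/-! # STE, block zer -/

open MeasureTheory Filter Topology
open scoped InnerProductSpace

namespace Pool.Agent.Lib_helper15.STE

theorem zer_main (F : E3 → ℝ) (hF : Adm F) (h : ff F = 0) (x : E3) (hx : ‖x‖ = 1) :
    F x = 0 := by
  have hm := admA_meas F hF
  have hprob := sigA_prob
  obtain ⟨C, hC⟩ := admA_bound F hF
  have hI : Integrable (fun x => F x ^ 2) sig := by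
    refine Integrable.of_bound (hm.pow_const 2).aestronglyMeasurable (C ^ 2) ?_
    filter_upwards [sigA_sphere] with y hy
    rw [Real.norm_eq_abs, abs_pow]
    exact pow_le_pow_left₀ (abs_nonneg _) (hC y hy).1 2
  have h1 : ∀ᵐ y ∂sig, F y ^ 2 = 0 := by
    have h2 := (integral_eq_zero_iff_of_nonneg (fun y => sq_nonneg (F y)) hI).1 h
    filter_upwards [h2] with y hy
    simpa using hy
  have hmeas : Measurable (fun x : E3 => ‖x‖⁻¹ • x) := by fun_prop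
  have h3 : ∀ᵐ y ∂(volume : Measure E3), y ∈ Metric.ball (0 : E3) 1 →
      F (‖y‖⁻¹ • y) ^ 2 = 0 := by
    unfold sig at h1
    have hc : ENNReal.ofReal (3 / (4 * Real.pi)) ≠ 0 := by
      rw [Ne, ENNReal.ofReal_eq_zero, not_le]
      positivity
    rw [Measure.ae_ennreal_smul_measure_iff hc] at h1
    have h4 := ae_of_ae_map hmeas.aemeasurable h1
    rwa [ae_restrict_iff' measurableSet_ball] at h4
  have hdense := Measure.dense_of_ae h3
  by_contra hne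
  obtain ⟨L, hL⟩ := hF.lip
  have hn0 : ‖(2:ℝ)⁻¹ • x‖ = 2⁻¹ := by
    rw [norm_smul, hx]; norm_num
  have hy0 : (2:ℝ)⁻¹ • x ≠ 0 := by
    rw [← norm_ne_zero_iff, hn0]; norm_num
  have hG0 : ‖(2:ℝ)⁻¹ • x‖⁻¹ • ((2:ℝ)⁻¹ • x) = x := by
    rw [hn0, smul_smul]; norm_num
  have hcn : ContinuousAt (fun y : E3 => ‖y‖⁻¹ • y) ((2:ℝ)⁻¹ • x) :=
    (continuousAt_id.norm.inv₀ (norm_ne_zero_iff.2 hy0)).smul continuousAt_id
  have hcont : ContinuousAt (fun y : E3 => F (‖y‖⁻¹ • y)) ((2:ℝ)⁻¹ • x) := by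
    rw [ContinuousAt, tendsto_iff_norm_sub_tendsto_zero]
    have h5 : Tendsto (fun y : E3 => L * ‖‖y‖⁻¹ • y - ‖(2:ℝ)⁻¹ • x‖⁻¹ • ((2:ℝ)⁻¹ • x)‖)
        (𝓝 ((2:ℝ)⁻¹ • x)) (𝓝 0) := by
      have h6 := (tendsto_iff_norm_sub_tendsto_zero.1 hcn).const_mul L
      rwa [mul_zero] at h6
    refine squeeze_zero' (Eventually.of_forall (fun _ => norm_nonneg _)) ?_ h5
    filter_upwards [isOpen_ne.mem_nhds hy0] with y hy
    rw [Real.norm_eq_abs]
    refine hL _ _ ?_ ?_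
    · rw [norm_smul, norm_inv, norm_norm, inv_mul_cancel₀ (norm_ne_zero_iff.2 hy)]
    · rw [norm_smul, norm_inv, norm_norm, inv_mul_cancel₀ (norm_ne_zero_iff.2 hy0)]
  have h7 : {y : E3 | F (‖y‖⁻¹ • y) ≠ 0} ∈ 𝓝 ((2:ℝ)⁻¹ • x) := by
    refine hcont.eventually_ne ?_
    rw [hG0]
    exact hne
  have h8 : Metric.ball (0 : E3) 1 ∈ 𝓝 ((2:ℝ)⁻¹ • x) := by
    refine Metric.isOpen_ball.mem_nhds ?_
    rw [mem_ball_zero_iff, hn0]
    norm_num
  obtain ⟨y, hy1, hy2, hy3⟩ := hdense.inter_nhds_nonempty (Filter.inter_mem h7 h8)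
  exact hy2 (pow_eq_zero_iff (two_ne_zero) |>.1 (hy1 hy3))

end Pool.Agent.Lib_helper15.STE
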