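import Pool.Agent.Lib_helper15.STE.DefsG

/-! # STE, statements of block alg : the inequality in one plane -/

open MeasureTheory Filter Topology
open scoped InnerProductSpace

namespace Pool.Agent.Lib_helper15.STE

theorem alg_pt (u v c d : ℝ) (hc0 : 0 < c) (hc1 : c ≤ 1) (hd : 4 * d ≤ c)
    (hu : |u| ≤ d) (hv0 : 0 ≤ v) (hv : v ≤ d) :
    1 + u + ((1 - c) * v - (1 + c) * u ^ 2) / 2 ≤ √(1 + 2 * u + v / (1 + 2 * u)) := by
  have hd0 : 0 ≤ d := le_trans hv0 hv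
  obtain ⟨hu1, hu2⟩ := abs_le.mp hu
  have hpos : 0 < 1 + 2 * u := by linarith
  refine le_trans (le_abs_self _) (Real.abs_le_sqrt ?_)
  have hdiv : v * (1 - 2 * u) ≤ v / (1 + 2 * u) := by
    rw [le_div_iff₀ hpos]
    have : v * (1 - 2 * u) * (1 + 2 * u) = v - 4 * (v * u ^ 2) := by ring
    rw [this]
    have := mul_nonneg hv0 (sq_nonneg u)
    linarith
  set q : ℝ := (1 - c) * v - (1 + c) * u ^ 2 with hq
  have hu3 : u ^ 2 ≤ d ^ 2 := by
    rw [← sq_abs u]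
    exact pow_le_pow_left₀ (abs_nonneg u) hu 2
  have hs : 0 ≤ v + 2 * u ^ 2 := by positivity
  have hq1 : |q| ≤ v + 2 * u ^ 2 := by
    rw [abs_le]
    constructor
    · have h1 : 0 ≤ (1 - c) * v := mul_nonneg (by linarith) hv0
      have h2 : (1 + c) * u ^ 2 ≤ 2 * u ^ 2 :=
        mul_le_mul_of_nonneg_right (by linarith) (sq_nonneg u)
      rw [hq]; linarith
    · have h1 : (1 - c) * v ≤ 1 * v := mul_le_mul_of_nonneg_right (by linarith) hv0
      have h2 : 0 ≤ (1 + c) * u ^ 2 := by positivity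
      have h3 : 0 ≤ u ^ 2 := sq_nonneg u
      rw [hq]; linarith
  have h1 : u * q ≤ d * (v + 2 * u ^ 2) := by
    calc u * q ≤ |u * q| := le_abs_self _
      _ = |u| * |q| := abs_mul _ _
      _ ≤ d * (v + 2 * u ^ 2) := mul_le_mul hu hq1 (abs_nonneg _) hd0
  have hd2 : v + 2 * u ^ 2 ≤ 2 * d := by
    have : d ^ 2 ≤ 1 / 4 * d := by nlinarith
    linarith
  have h2 : q ^ 2 ≤ 2 * d * (v + 2 * u ^ 2) := by
    calc q ^ 2 = |q| ^ 2 := (sq_abs q).symm
      _ ≤ (v + 2 * u ^ 2) ^ 2 := pow_le_pow_left₀ (abs_nonneg _) hq1 2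
      _ = (v + 2 * u ^ 2) * (v + 2 * u ^ 2) := by ring
      _ ≤ 2 * d * (v + 2 * u ^ 2) := mul_le_mul_of_nonneg_right hd2 hs
  have h3 : 2 * (u * v) ≤ 2 * (d * v) := by
    have := mul_le_mul_of_nonneg_right hu2 hv0
    linarith
  have h4 : 4 * d * v ≤ c * v := mul_le_mul_of_nonneg_right hd hv0
  have h5 : 4 * d * u ^ 2 ≤ c * u ^ 2 := mul_le_mul_of_nonneg_right hd (sq_nonneg u)
  have h6 : 0 ≤ d * v := mul_nonneg hd0 hv0
  have h7 : 0 ≤ d * u ^ 2 := mul_nonneg hd0 (sq_nonneg u)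
  have key : (1 + u + q / 2) ^ 2 ≤ 1 + 2 * u + v * (1 - 2 * u) := by
    have e1 : (1 + u + q / 2) ^ 2 = 1 + 2 * u + (u ^ 2 + q) + u * q + q ^ 2 / 4 := by ring
    have e2 : u ^ 2 + q = v - c * v - c * u ^ 2 := by rw [hq]; ring
    rw [e1, e2]
    nlinarith
  linarith

theorem alg_pw (κ ε η s2 f w : ℝ) (hκ : 0 < κ) (hκ1 : κ < 1) (hε : 0 < ε) (hε1 : ε < 1)
    (hη : η = κ ^ 2 * ε / 100) (hs : κ ≤ s2) (hf : |f| ≤ η) (hw0 : 0 ≤ w)
    (hw : w ≤ η) :
    √s2 * (1 + f / s2 + ((1 - ε / 2) * w - (1 + ε / 2) * f ^ 2) / (2 * s2 ^ 2)) ≤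
      √((s2 + 2 * f) + w / (s2 + 2 * f)) := by
  have hs0 : 0 < s2 := lt_of_lt_of_le hκ hs
  have hu : |f / s2| ≤ ε / 100 := by
    rw [abs_div, abs_of_pos hs0, div_le_iff₀ hs0]
    calc |f| ≤ η := hf
      _ = κ * (κ * (ε / 100)) := by rw [hη]; ring
      _ ≤ κ * (1 * (ε / 100)) := by
        apply mul_le_mul_of_nonneg_left _ hκ.le
        exact mul_le_mul_of_nonneg_right hκ1.le (by positivity)
      _ ≤ ε / 100 * s2 := by
        rw [one_mul, mul_comm]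
        exact mul_le_mul_of_nonneg_left hs (by positivity)
  have hv : w / s2 ^ 2 ≤ ε / 100 := by
    rw [div_le_iff₀ (by positivity)]
    calc w ≤ η := hw
      _ = ε / 100 * κ ^ 2 := by rw [hη]; ring
      _ ≤ ε / 100 * s2 ^ 2 :=
        mul_le_mul_of_nonneg_left (pow_le_pow_left₀ hκ.le hs 2) (by positivity)
  have hv0 : 0 ≤ w / s2 ^ 2 := by positivity
  have h := alg_pt (f / s2) (w / s2 ^ 2) (ε / 2) (ε / 100) (by linarith) (by linarith)
    (by linarith) hu hv0 hv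
  obtain ⟨hu1, hu2⟩ := abs_le.mp hu
  have hpos : 0 < 1 + 2 * (f / s2) := by linarith
  have e1 : (s2 + 2 * f) + w / (s2 + 2 * f) =
      s2 * (1 + 2 * (f / s2) + w / s2 ^ 2 / (1 + 2 * (f / s2))) := by
    have e0 : s2 + 2 * f = s2 * (1 + 2 * (f / s2)) := by field_simp
    rw [e0]
    field_simp
  rw [e1, Real.sqrt_mul hs0.le]
  apply mul_le_mul_of_nonneg_left _ (Real.sqrt_nonneg _)
  refine le_trans (le_of_eq ?_) h
  field_simp

theorem alg_ii (g : ℝ → ℝ) (C : ℝ) (hg : Measurable g) (hb : ∀ x, |g x| ≤ C) (a b : ℝ) :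
    IntervalIntegrable g volume a b := by
  rw [intervalIntegrable_iff]
  apply Measure.integrableOn_of_bounded (M := C)
  · exact ne_of_lt (by rw [Set.uIoc]; exact measure_Ioc_lt_top)
  · exact hg.aestronglyMeasurable
  · exact Filter.Eventually.of_forall (fun x => by rw [Real.norm_eq_abs]; exact hb x)

theorem alg_av (g : ℝ → ℝ) : ∫ φ in (-Real.pi)..Real.pi, g φ = 2 * Real.pi * av g := by
  unfold av
  rw [← mul_assoc, mul_inv_cancel₀ (by positivity), one_mul]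

theorem alg_fin (κ ε η s2 θ L F W G B : ℝ) (hκ : 0 < κ) (hε : 0 < ε) (hε1 : ε < 1)
    (hκ2 : κ ^ 2 ≤ κ) (hηκ : η ≤ κ ^ 2 * (ε / 100)) (hη1 : η ≤ 1 / 100)
    (hs : κ ≤ s2) (hs0 : 0 < s2) (hs1 : s2 ≤ 1) (hθ : |θ| ≤ η) (hFb : |F| ≤ η) (hWb : W ≤ η)
    (hW0 : 0 ≤ W) (hGb : G ≤ η) (hG0 : 0 ≤ G)
    (hB : B = 1 + F / s2 + ((1 - ε / 2) * W - (1 + ε / 2) * G) / (2 * s2 ^ 2))
    (hLB : 2 * Real.pi * (√s2 * B) ≤ L)
    (hA : (1 - θ) * L ^ 2 ≤ 4 * Real.pi * (1 / 2 * (2 * Real.pi * (s2 + 2 * F)))) :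
    (1 - ε) * W - (1 + ε) * G + F ^ 2 ≤ s2 ^ 2 * θ + ε * |θ| := by
  have hπ := Real.pi_pos
  -- smallness of B - 1
  set Q : ℝ := (1 - ε / 2) * W - (1 + ε / 2) * G with hQ
  have hQb : |Q| ≤ W + 2 * G := by
    rw [abs_le]
    constructor
    · have h1 : 0 ≤ (1 - ε / 2) * W := mul_nonneg (by linarith) hW0
      have h2 : (1 + ε / 2) * G ≤ 2 * G := mul_le_mul_of_nonneg_right (by linarith) hG0
      rw [hQ]; linarith
    · have h1 : (1 - ε / 2) * W ≤ 1 * W := mul_le_mul_of_nonneg_right (by linarith) hW0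
      have h2 : 0 ≤ (1 + ε / 2) * G := mul_nonneg (by linarith) hG0
      rw [hQ]; linarith
  have hFs : |F / s2| ≤ ε / 100 := by
    rw [abs_div, abs_of_pos hs0, div_le_iff₀ hs0]
    calc |F| ≤ η := hFb
      _ ≤ κ ^ 2 * (ε / 100) := hηκ
      _ ≤ κ * (ε / 100) := mul_le_mul_of_nonneg_right hκ2 (by positivity)
      _ ≤ ε / 100 * s2 := by rw [mul_comm]; exact mul_le_mul_of_nonneg_left hs (by positivity)
  have hQs : |Q / (2 * s2 ^ 2)| ≤ 3 * ε / 200 := by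
    rw [abs_div, abs_of_pos (by positivity : 0 < 2 * s2 ^ 2), div_le_iff₀ (by positivity)]
    have h1 : κ ^ 2 ≤ s2 ^ 2 := pow_le_pow_left₀ hκ.le hs 2
    have h2 : κ ^ 2 * (ε / 100) ≤ s2 ^ 2 * (ε / 100) :=
      mul_le_mul_of_nonneg_right h1 (by positivity)
    have h3 : 3 * ε / 200 * (2 * s2 ^ 2) = 3 * (s2 ^ 2 * (ε / 100)) := by ring
    rw [h3]
    linarith
  obtain ⟨hF1, hF2⟩ := abs_le.mp hFs
  obtain ⟨hQ1, hQ2⟩ := abs_le.mp hQs
  have hB1 : |B - 1| ≤ ε / 3 := by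
    rw [abs_le, hB]
    constructor <;> linarith
  obtain ⟨hB2, hB3⟩ := abs_le.mp hB1
  have hB0 : 0 < B := by linarith
  have hBsq : |B ^ 2 - 1| ≤ ε := by
    have e1 : B ^ 2 - 1 = (B - 1) * (B + 1) := by ring
    have h1 : |B + 1| ≤ 3 := by
      rw [abs_of_pos (by linarith)]; linarith
    rw [e1, abs_mul]
    calc |B - 1| * |B + 1| ≤ ε / 3 * 3 := mul_le_mul hB1 h1 (abs_nonneg _) (by positivity)
      _ = ε := by ring
  -- main inequality
  have hθ1 : 0 < 1 - θ := by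
    have := (abs_le.mp hθ).2
    linarith
  have hL2 : (2 * Real.pi * (√s2 * B)) ^ 2 ≤ L ^ 2 :=
    pow_le_pow_left₀ (by positivity) hLB 2
  have hsq : (2 * Real.pi * (√s2 * B)) ^ 2 = 4 * Real.pi ^ 2 * (s2 * B ^ 2) := by
    have := Real.sq_sqrt hs0.le
    calc (2 * Real.pi * (√s2 * B)) ^ 2 = 4 * Real.pi ^ 2 * ((√s2) ^ 2 * B ^ 2) := by ring
      _ = _ := by rw [this]
  have hM : (1 - θ) * (s2 * B ^ 2) ≤ s2 + 2 * F := by
    have h1 : (1 - θ) * (4 * Real.pi ^ 2 * (s2 * B ^ 2)) ≤ (1 - θ) * L ^ 2 := by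
      rw [← hsq]
      exact mul_le_mul_of_nonneg_left hL2 hθ1.le
    have h2 : 4 * Real.pi ^ 2 * ((1 - θ) * (s2 * B ^ 2)) ≤ 4 * Real.pi ^ 2 * (s2 + 2 * F) := by
      have e1 : 4 * Real.pi * (1 / 2 * (2 * Real.pi * (s2 + 2 * F))) =
        4 * Real.pi ^ 2 * (s2 + 2 * F) := by ring
      rw [e1] at hA
      linarith
    exact le_of_mul_le_mul_left h2 (by positivity)
  -- expand
  have hex : s2 * (s2 * B ^ 2) = s2 * (s2 + 2 * F) + F ^ 2 + Q + Q * (F / s2) +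
      s2 ^ 2 * (Q / (2 * s2 ^ 2)) ^ 2 := by
    rw [hB]
    field_simp
    ring
  have hN : s2 * ((1 - θ) * (s2 * B ^ 2)) ≤ s2 * (s2 + 2 * F) :=
    mul_le_mul_of_nonneg_left hM hs0.le
  have hR : F ^ 2 + Q + Q * (F / s2) ≤ s2 ^ 2 * (θ * B ^ 2) := by
    have e1 : s2 * ((1 - θ) * (s2 * B ^ 2)) = s2 * (s2 * B ^ 2) - s2 ^ 2 * (θ * B ^ 2) := by ring
    have h1 : 0 ≤ s2 ^ 2 * (Q / (2 * s2 ^ 2)) ^ 2 := by positivity
    rw [e1, hex] at hN
    linarith
  have hQF : -(ε / 2 * (W + G)) ≤ Q * (F / s2) := by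
    have h1 : |Q * (F / s2)| ≤ (W + 2 * G) * (ε / 100) := by
      rw [abs_mul]
      exact mul_le_mul hQb hFs (abs_nonneg _) (by linarith)
    have h2 := (abs_le.mp h1).1
    have h3 : 0 ≤ ε * W := mul_nonneg hε.le hW0
    have h4 : 0 ≤ ε * G := mul_nonneg hε.le hG0
    have h5 : (W + 2 * G) * (ε / 100) = ε * W / 100 + ε * G / 50 := by ring
    have h6 : ε / 2 * (W + G) = ε * W / 2 + ε * G / 2 := by ring
    rw [h6]
    linarith
  have hT : s2 ^ 2 * (θ * B ^ 2) ≤ s2 ^ 2 * θ + ε * |θ| := by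
    have e1 : s2 ^ 2 * (θ * B ^ 2) = s2 ^ 2 * θ + s2 ^ 2 * (θ * (B ^ 2 - 1)) := by ring
    have h1 : s2 ^ 2 * (θ * (B ^ 2 - 1)) ≤ ε * |θ| := by
      calc s2 ^ 2 * (θ * (B ^ 2 - 1)) ≤ |s2 ^ 2 * (θ * (B ^ 2 - 1))| := le_abs_self _
        _ = s2 ^ 2 * (|θ| * |B ^ 2 - 1|) := by
          rw [abs_mul, abs_mul, abs_of_nonneg (sq_nonneg s2)]
        _ ≤ 1 * (|θ| * ε) := by
          apply mul_le_mul _ _ (by positivity) (by norm_num)
          · nlinarith
          · exact mul_le_mul_of_nonneg_left hBsq (abs_nonneg _)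
        _ = ε * |θ| := by ring
    rw [e1]; linarith
  have hfin : (1 - ε) * W - (1 + ε) * G + F ^ 2 = F ^ 2 + Q - ε / 2 * (W + G) := by
    rw [hQ]; ring
  rw [hfin]
  linarith


theorem alg_main (κ ε : ℝ) (hκ : 0 < κ) (hκ1 : κ < 1) (hε : 0 < ε) (hε1 : ε < 1) :
    ∃ η : ℝ, 0 < η ∧ ∀ (s2 θ L : ℝ) (f w : ℝ → ℝ), κ ≤ s2 → s2 ≤ 1 → |θ| ≤ η →
      Measurable f → Measurable w → (∀ φ, |f φ| ≤ η) → (∀ φ, 0 ≤ w φ ∧ w φ ≤ η) →
      ∫ φ in (-Real.pi)..Real.pi, √((s2 + 2 * f φ) + w φ / (s2 + 2 * f φ)) ≤ L →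
      (1 - θ) * L ^ 2 ≤
        4 * Real.pi * (1 / 2 * ∫ φ in (-Real.pi)..Real.pi, (s2 + 2 * f φ)) →
      (1 - ε) * av w - (1 + ε) * av (fun φ => f φ ^ 2) + av f ^ 2 ≤ s2 ^ 2 * θ + ε * |θ| := by
  refine ⟨κ ^ 2 * ε / 100, by positivity, ?_⟩
  intro s2 θ L f w hs hs1 hθ hfm hwm hf hw hL hA
  set η : ℝ := κ ^ 2 * ε / 100 with hη
  have hπ := Real.pi_pos
  have hs0 : 0 < s2 := lt_of_lt_of_le hκ hs
  have hη0 : 0 < η := by positivity
  have hκ2 : κ ^ 2 ≤ κ := by nlinarith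
  have hκ3 : κ ^ 2 ≤ 1 := by nlinarith
  have hηκ : η ≤ κ ^ 2 * (ε / 100) := by rw [hη]; apply le_of_eq; ring
  have hηε : η ≤ ε / 100 := by
    refine le_trans hηκ ?_
    have := mul_le_mul_of_nonneg_right hκ3 (by positivity : (0:ℝ) ≤ ε / 100)
    linarith
  have hη1 : η ≤ 1 / 100 := by linarith
  -- integrability
  have hwb : ∀ φ, |w φ| ≤ η := fun φ => by rw [abs_of_nonneg (hw φ).1]; exact (hw φ).2
  have hf2 : ∀ φ, |f φ ^ 2| ≤ η := fun φ => by
    rw [abs_of_nonneg (sq_nonneg _), ← sq_abs]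
    have h1 : |f φ| ^ 2 ≤ η ^ 2 := pow_le_pow_left₀ (abs_nonneg _) (hf φ) 2
    have h2 : η ^ 2 ≤ η := by nlinarith
    linarith
  have If := alg_ii f η hfm hf (-Real.pi) Real.pi
  have Iw := alg_ii w η hwm hwb (-Real.pi) Real.pi
  have Iff2 := alg_ii (fun φ => f φ ^ 2) η (hfm.pow_const 2) hf2 (-Real.pi) Real.pi
  have hden : ∀ φ, κ / 2 ≤ s2 + 2 * f φ := fun φ => by
    have := (abs_le.mp (hf φ)).1
    have h3 : η ≤ κ / 100 := by
      refine le_trans hηκ ?_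
      have := mul_le_mul hκ2 (by linarith : ε / 100 ≤ 1 / 100) (by positivity) hκ.le
      linarith
    linarith
  have hden1 : ∀ φ, s2 + 2 * f φ ≤ 2 := fun φ => by
    have := (abs_le.mp (hf φ)).2
    linarith
  have Isq : IntervalIntegrable (fun φ => √((s2 + 2 * f φ) + w φ / (s2 + 2 * f φ))) volume
      (-Real.pi) Real.pi := by
    refine alg_ii _ (2 + 2 / κ) ?_ ?_ _ _
    · fun_prop
    · intro φ
      have h0 : 0 < s2 + 2 * f φ := lt_of_lt_of_le (by positivity) (hden φ)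
      have h1 : w φ / (s2 + 2 * f φ) ≤ 2 / κ := by
        rw [div_le_div_iff₀ h0 hκ]
        have h4 := (hw φ).2
        have h5 := hden φ
        have : w φ * κ ≤ 1 * κ := mul_le_mul_of_nonneg_right (by linarith) hκ.le
        linarith
      have h2 : 0 ≤ w φ / (s2 + 2 * f φ) := div_nonneg (hw φ).1 h0.le
      rw [abs_of_nonneg (Real.sqrt_nonneg _)]
      apply Real.sqrt_le_iff.mpr
      constructor
      · positivity
      · have h6 : 0 < 2 / κ := by positivity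
        have h7 := hden1 φ
        nlinarith
  set F := av f with hF
  set W := av w with hW
  set G := av (fun φ => f φ ^ 2) with hG
  -- bounds of the means
  have avb : ∀ (g : ℝ → ℝ) (C : ℝ), (∀ x, |g x| ≤ C) → |av g| ≤ C := by
    intro g C hb
    have h1 : ‖∫ φ in (-Real.pi)..Real.pi, g φ‖ ≤ C * |Real.pi - (-Real.pi)| :=
      intervalIntegral.norm_integral_le_of_norm_le_const
        (fun x _ => by rw [Real.norm_eq_abs]; exact hb x)
    rw [alg_av, Real.norm_eq_abs, abs_mul, abs_of_pos (by positivity : 0 < 2 * Real.pi),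
      (by ring : Real.pi - -Real.pi = 2 * Real.pi), abs_of_pos (by positivity : 0 < 2 * Real.pi)]
      at h1
    have h2 : 0 < 2 * Real.pi := by positivity
    nlinarith
  have avn : ∀ (g : ℝ → ℝ), (∀ x, 0 ≤ g x) → 0 ≤ av g := by
    intro g hb
    unfold av
    apply mul_nonneg (by positivity)
    exact intervalIntegral.integral_nonneg (by linarith) (fun x _ => hb x)
  have hFb : |F| ≤ η := avb f η hf
  have hWb : W ≤ η := le_trans (le_abs_self _) (avb w η hwb)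
  have hW0 : 0 ≤ W := avn w (fun φ => (hw φ).1)
  have hGb : G ≤ η := le_trans (le_abs_self _) (avb _ η hf2)
  have hG0 : 0 ≤ G := avn _ (fun φ => sq_nonneg _)
  -- lower bound of L
  set B : ℝ := 1 + F / s2 + ((1 - ε / 2) * W - (1 + ε / 2) * G) / (2 * s2 ^ 2) with hB
  have hLB : 2 * Real.pi * (√s2 * B) ≤ L := by
    refine le_trans ?_ hL
    have h1 : ∫ φ in (-Real.pi)..Real.pi,
        √s2 * (1 + f φ / s2 + ((1 - ε / 2) * w φ - (1 + ε / 2) * f φ ^ 2) / (2 * s2 ^ 2)) ≤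
        ∫ φ in (-Real.pi)..Real.pi, √((s2 + 2 * f φ) + w φ / (s2 + 2 * f φ)) := by
      apply intervalIntegral.integral_mono_on (by linarith) _ Isq
      · intro φ _
        exact alg_pw κ ε η s2 (f φ) (w φ) hκ hκ1 hε hε1 hη hs (hf φ) (hw φ).1 (hw φ).2
      · refine IntervalIntegrable.const_mul ?_ _
        refine ((intervalIntegrable_const).add (If.div_const _)).add ?_
        exact ((Iw.const_mul _).sub (Iff2.const_mul _)).div_const _
    refine le_trans (le_of_eq ?_) h1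
    rw [intervalIntegral.integral_const_mul,
      intervalIntegral.integral_add ((intervalIntegrable_const).add (If.div_const _))
        (((Iw.const_mul _).sub (Iff2.const_mul _)).div_const _),
      intervalIntegral.integral_add (intervalIntegrable_const) (If.div_const _),
      intervalIntegral.integral_div, intervalIntegral.integral_div,
      intervalIntegral.integral_sub (Iw.const_mul _) (Iff2.const_mul _),
      intervalIntegral.integral_const_mul, intervalIntegral.integral_const_mul,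
      intervalIntegral.integral_const, alg_av f, alg_av w, alg_av (fun φ => f φ ^ 2),
      ← hF, ← hW, ← hG, hB, smul_eq_mul]
    ring
  have hAr : ∫ φ in (-Real.pi)..Real.pi, (s2 + 2 * f φ) = 2 * Real.pi * (s2 + 2 * F) := by
    rw [intervalIntegral.integral_add intervalIntegrable_const (If.const_mul _),
      intervalIntegral.integral_const_mul, intervalIntegral.integral_const, alg_av f, ← hF,
      smul_eq_mul]
    ring
  rw [hAr] at hA
  exact alg_fin κ ε η s2 θ L F W G B hκ hε hε1 hκ2 hηκ hη1 hs hs0 hs1 hθ hFb hWb hW0 hGb hG0 hB hLB hA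

end Pool.Agent.Lib_helper15.STE
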