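import Pool.Agent.Lib_helper15.STE.DefsG

/-! # STE, block gauA : gauge functions -/

open MeasureTheory Filter Topology
open scoped InnerProductSpace

namespace Pool.Agent.Lib_helper15.STE

theorem gauA_pos (p : E3 → ℝ) (η : ℝ) (hp : Gau p η) (h1 : η ≤ 1 / 4) (x : E3) (hx : x ≠ 0) :
    0 < p x := by
  have h := hp.lo x
  have h2 : 0 < ‖x‖ := norm_pos_iff.2 hx
  nlinarith

theorem gauA_dist (p : E3 → ℝ) (η : ℝ) (hp : Gau p η) (x y : E3) :
    |p x - p y| ≤ (1 + η) * ‖x - y‖ := by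
  have h1 := hp.sub (x - y) y
  have h2 := hp.sub (y - x) x
  rw [sub_add_cancel] at h1 h2
  have h3 := hp.up (x - y)
  have h4 := hp.up (y - x)
  rw [norm_sub_rev] at h4
  rw [abs_le]
  constructor <;> linarith

theorem gauA_lip (p : E3 → ℝ) (η : ℝ) (hp : Gau p η) (h0 : 0 ≤ η) (h1 : η ≤ 1 / 4) :
    LipschitzWith 2 p := by
  refine LipschitzWith.of_dist_le_mul fun x y => ?_
  rw [Real.dist_eq, dist_eq_norm]
  have h := gauA_dist p η hp x y
  have h2 := norm_nonneg (x - y)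
  have h3 : ((2 : NNReal) : ℝ) = 2 := rfl
  rw [h3]
  nlinarith

theorem gauA_hasDeriv (p : E3 → ℝ) (x v : E3) (hx : DifferentiableAt ℝ p x) :
    HasDerivAt (fun t : ℝ => p (x + t • v)) (fderiv ℝ p x v) 0 := by
  have h1 : HasFDerivAt p (fderiv ℝ p x) (x + (0 : ℝ) • v) := by
    rw [zero_smul, add_zero]; exact hx.hasFDerivAt
  have h2 : HasDerivAt (fun t : ℝ => x + t • v) v 0 := by
    simpa using ((hasDerivAt_id (0 : ℝ)).smul_const v).const_add x
  exact h1.comp_hasDerivAt (0 : ℝ) h2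

theorem gauA_subgrad (p : E3 → ℝ) (η : ℝ) (hp : Gau p η) (x : E3)
    (hx : DifferentiableAt ℝ p x) (y : E3) : p x + fderiv ℝ p x (y - x) ≤ p y := by
  have h1 := gauA_hasDeriv p x (y - x) hx
  rw [hasDerivAt_iff_tendsto_slope_zero] at h1
  have h2 : Tendsto (fun t : ℝ => t⁻¹ • (p (x + (0 + t) • (y - x)) - p (x + (0 : ℝ) • (y - x))))
      (𝓝[>] 0) (𝓝 (fderiv ℝ p x (y - x))) :=
    h1.mono_left (nhdsWithin_mono _ (fun t ht => ne_of_gt ht))
  have h3 : fderiv ℝ p x (y - x) ≤ p y - p x := by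
    refine le_of_tendsto h2 ?_
    have h4 : ∀ᶠ t : ℝ in 𝓝[>] (0 : ℝ), t < 1 :=
      Filter.Eventually.filter_mono nhdsWithin_le_nhds (eventually_lt_nhds one_pos)
    filter_upwards [self_mem_nhdsWithin, h4] with t ht ht1
    have ht0 : 0 < t := ht
    have e1 : x + (0 + t) • (y - x) = (1 - t) • x + t • y := by
      rw [zero_add, smul_sub, sub_smul, one_smul]; abel
    have h5 := hp.sub ((1 - t) • x) (t • y)
    rw [hp.hom x (1 - t) (by linarith), hp.hom y t ht0.le] at h5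
    rw [e1, zero_smul, add_zero, smul_eq_mul, inv_mul_le_iff₀ ht0]
    nlinarith
  linarith

theorem gauA_euler (p : E3 → ℝ) (η : ℝ) (hp : Gau p η) (x : E3)
    (hx : DifferentiableAt ℝ p x) : fderiv ℝ p x x = p x := by
  have h1 := gauA_hasDeriv p x x hx
  have h2 : HasDerivAt (fun t : ℝ => (1 + t) * p x) (p x) 0 := by
    simpa using ((hasDerivAt_id (0 : ℝ)).const_add 1).mul_const (p x)
  have h3 : (fun t : ℝ => (1 + t) * p x) =ᶠ[𝓝 0] fun t : ℝ => p (x + t • x) := by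
    have h4 : ∀ᶠ t : ℝ in 𝓝 (0 : ℝ), -1 < t := eventually_gt_nhds (by norm_num)
    filter_upwards [h4] with t ht
    have e1 : x + t • x = (1 + t) • x := by rw [add_smul, one_smul]
    rw [e1, hp.hom x (1 + t) (by linarith)]
  exact h1.unique (h2.congr_of_eventuallyEq h3.symm)

theorem gauA_norm (p : E3 → ℝ) (η : ℝ) (hp : Gau p η) (h0 : 0 ≤ η) (x : E3) :
    ‖fderiv ℝ p x‖ ≤ 1 + η := by
  have hL : LipschitzWith (Real.toNNReal (1 + η)) p := by
    refine LipschitzWith.of_dist_le_mul fun x y => ?_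
    rw [Real.dist_eq, dist_eq_norm, Real.coe_toNNReal _ (by linarith)]
    exact gauA_dist p η hp x y
  have h := norm_fderiv_le_of_lipschitz ℝ hL (x₀ := x)
  rwa [Real.coe_toNNReal _ (by linarith)] at h

/-- a linear functional of norm at most `1 + η` which is at least `1 - η` at the unit vector `x`
is near the functional of `x` -/
theorem gauA_near_aux (η : ℝ) (h0 : 0 ≤ η) (h1 : η ≤ 1 / 4) (x : E3) (hx1 : ‖x‖ = 1)
    (L : E3 →L[ℝ] ℝ) (hL : ‖L‖ ≤ 1 + η) (hLx : 1 - η ≤ L x) (v : E3) :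
    |L v - ⟪x, v⟫_ℝ| ≤ 5 / 2 * √η * ‖v‖ := by
  set g : E3 := (InnerProductSpace.toDual ℝ E3).symm L with hg
  have hgv : ∀ w, ⟪g, w⟫_ℝ = L w := fun w => by
    rw [hg]; exact InnerProductSpace.toDual_symm_apply
  have hgn : ‖g‖ = ‖L‖ := by rw [hg]; exact LinearIsometryEquiv.norm_map _ _
  have h2 : ‖g - x‖ ^ 2 ≤ 17 / 4 * η := by
    rw [norm_sub_sq_real, hgv, hx1, hgn]
    have h3 : ‖L‖ ^ 2 ≤ (1 + η) ^ 2 := by
      have := norm_nonneg L
      nlinarith
    nlinarith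
  have h4 : ‖g - x‖ ≤ 5 / 2 * √η := by
    have h5 : (5 / 2 * √η) ^ 2 = 25 / 4 * η := by
      rw [mul_pow, Real.sq_sqrt h0]; norm_num
    have h6 : ‖g - x‖ ^ 2 ≤ (5 / 2 * √η) ^ 2 := by rw [h5]; nlinarith
    exact (pow_le_pow_iff_left₀ (norm_nonneg _) (by positivity) two_ne_zero).1 h6
  have h7 : L v - ⟪x, v⟫_ℝ = ⟪g - x, v⟫_ℝ := by rw [inner_sub_left, hgv]
  rw [h7]
  exact (abs_real_inner_le_norm _ _).trans (mul_le_mul_of_nonneg_right h4 (norm_nonneg v))

theorem gauA_near (p : E3 → ℝ) (η : ℝ) (hp : Gau p η) (h0 : 0 ≤ η) (h1 : η ≤ 1 / 4) (x : E3)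
    (hx1 : ‖x‖ = 1) (hx : DifferentiableAt ℝ p x) (v : E3) :
    |fderiv ℝ p x v - ⟪x, v⟫_ℝ| ≤ 3 * √η * ‖v‖ := by
  have h2 := gauA_near_aux η h0 h1 x hx1 (fderiv ℝ p x) (gauA_norm p η hp h0 x) (by
    rw [gauA_euler p η hp x hx]
    have := hp.lo x
    rw [hx1] at this
    linarith) v
  have h3 : 0 ≤ √η * ‖v‖ := by positivity
  nlinarith

theorem gauA_hom (p : E3 → ℝ) (η : ℝ) (hp : Gau p η) (x : E3) (r : ℝ) (hr : 0 < r) :
    (DifferentiableAt ℝ p (r • x) ↔ DifferentiableAt ℝ p x) ∧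
      fderiv ℝ p (r • x) = fderiv ℝ p x := by
  have key : ∀ (s : ℝ) (z : E3) (L : E3 →L[ℝ] ℝ), 0 < s → HasFDerivAt p L z →
      HasFDerivAt p L (s • z) := by
    intro s z L hs hz
    have h1 : HasFDerivAt (fun y : E3 => s⁻¹ • y) (s⁻¹ • ContinuousLinearMap.id ℝ E3) (s • z) :=
      (hasFDerivAt_id (s • z)).const_smul s⁻¹
    have h2 : HasFDerivAt p L (s⁻¹ • (s • z)) := by
      rw [smul_smul, inv_mul_cancel₀ hs.ne', one_smul]; exact hz
    have h3 := (h2.comp (s • z) h1).const_smul s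
    have e1 : s • (L.comp (s⁻¹ • ContinuousLinearMap.id ℝ E3)) = L := by
      ext v
      simp only [ContinuousLinearMap.smul_apply, ContinuousLinearMap.comp_apply,
        ContinuousLinearMap.id_apply, map_smul, smul_eq_mul]
      rw [← mul_assoc, mul_inv_cancel₀ hs.ne', one_mul]
    rw [e1] at h3
    refine h3.congr_of_eventuallyEq (Filter.Eventually.of_forall fun y => ?_)
    simp only [Pi.smul_apply, Function.comp_apply, smul_eq_mul]
    rw [hp.hom y s⁻¹ (inv_pos.2 hs).le, ← mul_assoc, mul_inv_cancel₀ hs.ne', one_mul]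
  have hiff : DifferentiableAt ℝ p (r • x) ↔ DifferentiableAt ℝ p x := by
    constructor
    · intro h
      have := key r⁻¹ (r • x) _ (inv_pos.2 hr) h.hasFDerivAt
      rw [smul_smul, inv_mul_cancel₀ hr.ne', one_smul] at this
      exact this.differentiableAt
    · intro h
      exact (key r x _ hr h.hasFDerivAt).differentiableAt
  refine ⟨hiff, ?_⟩
  by_cases h : DifferentiableAt ℝ p x
  · exact (key r x _ hr h.hasFDerivAt).fderiv
  · rw [fderiv_zero_of_not_differentiableAt h,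
      fderiv_zero_of_not_differentiableAt (fun h' => h (hiff.1 h'))]

end Pool.Agent.Lib_helper15.STE
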