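import Pool.Agent.Lib_helper15.STE.DefsG

/-! # STE, block rad : radial functions of the sections -/

open MeasureTheory Filter Topology
open scoped InnerProductSpace

namespace Pool.Agent.Lib_helper15.STE

theorem rad_abs_sub (p : E3 → ℝ) (η : ℝ) (hp : Gau p η) (x y : E3) :
    |p x - p y| ≤ (1 + η) * ‖x - y‖ := by
  have h1 : p x ≤ p (x - y) + p y := by
    have := hp.sub (x - y) y
    rwa [sub_add_cancel] at this
  have h2 : p y ≤ p (y - x) + p x := by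
    have := hp.sub (y - x) x
    rwa [sub_add_cancel] at this
  have h3 := hp.up (x - y)
  have h4 := hp.up (y - x)
  rw [norm_sub_rev] at h4
  rw [abs_le]
  constructor <;> linarith

theorem rad_cont_p (p : E3 → ℝ) (η : ℝ) (hp : Gau p η) (h0 : 0 ≤ η) : Continuous p := by
  have : LipschitzWith (Real.toNNReal (1 + η)) p := by
    apply LipschitzWith.of_dist_le_mul
    intro x y
    rw [Real.dist_eq, dist_eq_norm, Real.coe_toNNReal _ (by linarith)]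
    exact rad_abs_sub p η hp x y
  exact this.continuous

theorem rad_cy_add (s r φ t : ℝ) :
    cy (s * r) φ t = (1 - s) • cy 0 φ t + s • cy r φ t := by
  ext i
  fin_cases i <;> simp [cy] <;> ring

theorem rad_cy_norm (r φ t : ℝ) : ‖cy r φ t‖ = √(r ^ 2 + t ^ 2) := by
  rw [EuclideanSpace.norm_eq, Fin.sum_univ_three]
  congr 1
  simp only [cy, Real.norm_eq_abs, sq_abs]
  have : Real.cos φ ^ 2 + Real.sin φ ^ 2 = 1 := Real.cos_sq_add_sin_sq φ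
  simp
  nlinarith [this]

theorem rad_cy_cont : Continuous (fun z : ℝ × ℝ × ℝ => cy z.1 z.2.1 z.2.2) := by
  unfold cy
  fun_prop

theorem rad_conv (p : E3 → ℝ) (η : ℝ) (hp : Gau p η) (s r φ t : ℝ) (h0 : 0 ≤ s) (h1 : s ≤ 1) :
    p (cy (s * r) φ t) ≤ (1 - s) * p (cy 0 φ t) + s * p (cy r φ t) := by
  rw [rad_cy_add]
  refine (hp.sub _ _).trans ?_
  rw [hp.hom _ _ (by linarith), hp.hom _ _ h0]

theorem rad_zero (p : E3 → ℝ) (η κ : ℝ) (hp : Gau p η) (h0 : 0 ≤ η) (hκ : 0 < κ) (hκ1 : κ < 1)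
    (h1 : η ≤ κ / 4) (t φ : ℝ) (ht : |t| ≤ 1 - κ) : p (cy 0 φ t) < 1 := by
  have h2 := hp.up (cy 0 φ t)
  rw [rad_cy_norm] at h2
  have h3 : √((0:ℝ) ^ 2 + t ^ 2) = |t| := by
    rw [zero_pow two_ne_zero, zero_add, Real.sqrt_sq_eq_abs]
  rw [h3] at h2
  have h4 : (1 + η) * |t| ≤ (1 + κ / 4) * (1 - κ) := by
    apply mul_le_mul (by linarith) ht (abs_nonneg t) (by linarith)
  nlinarith

theorem rad_le_of (p : E3 → ℝ) (η κ : ℝ) (hp : Gau p η) (hκ1 : κ < 1)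
    (h1 : η ≤ κ / 4) (t φ r : ℝ) (h : p (cy r φ t) ≤ 1) : r ≤ 4 / 3 := by
  have h2 := hp.lo (cy r φ t)
  rw [rad_cy_norm] at h2
  have h3 : |r| ≤ √(r ^ 2 + t ^ 2) := by
    rw [← Real.sqrt_sq_eq_abs]
    exact Real.sqrt_le_sqrt (by nlinarith [sq_nonneg t])
  have h4 : r ≤ |r| := le_abs_self r
  have h5 : (3 / 4 : ℝ) * √(r ^ 2 + t ^ 2) ≤ (1 - η) * √(r ^ 2 + t ^ 2) :=
    mul_le_mul_of_nonneg_right (by linarith) (Real.sqrt_nonneg _)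
  linarith

theorem rad_bdd (p : E3 → ℝ) (η κ : ℝ) (hp : Gau p η) (hκ1 : κ < 1)
    (h1 : η ≤ κ / 4) (t φ : ℝ) : BddAbove {r : ℝ | 0 ≤ r ∧ p (cy r φ t) ≤ 1} :=
  ⟨4 / 3, fun _ hr => rad_le_of p η κ hp hκ1 h1 t φ _ hr.2⟩

theorem rad_mem (p : E3 → ℝ) (η κ : ℝ) (hp : Gau p η) (h0 : 0 ≤ η) (hκ : 0 < κ) (hκ1 : κ < 1)
    (h1 : η ≤ κ / 4) (t φ : ℝ) (ht : |t| ≤ 1 - κ) :
    0 ≤ Rr p t φ ∧ p (cy (Rr p t φ) φ t) ≤ 1 := by
  have hc : IsClosed {r : ℝ | 0 ≤ r ∧ p (cy r φ t) ≤ 1} := by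
    have hcont : Continuous fun r : ℝ => p (cy r φ t) :=
      (rad_cont_p p η hp h0).comp
        (rad_cy_cont.comp (f := fun r : ℝ => ((r, φ, t) : ℝ × ℝ × ℝ)) (by fun_prop))
    exact (isClosed_Ici (a := (0:ℝ))).inter (isClosed_le hcont continuous_const)
  exact hc.csSup_mem ⟨0, le_refl _, (rad_zero p η κ hp h0 hκ hκ1 h1 t φ ht).le⟩
    (rad_bdd p η κ hp hκ1 h1 t φ)

theorem rad_lt (p : E3 → ℝ) (η κ : ℝ) (hp : Gau p η) (h0 : 0 ≤ η) (hκ : 0 < κ) (hκ1 : κ < 1)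
    (h1 : η ≤ κ / 4) (t φ : ℝ) (ht : |t| ≤ 1 - κ) (r : ℝ) (hr : 0 ≤ r) :
    p (cy r φ t) < 1 ↔ r < Rr p t φ := by
  constructor
  · intro h
    have hcont : Continuous fun r : ℝ => p (cy r φ t) :=
      (rad_cont_p p η hp h0).comp
        (rad_cy_cont.comp (f := fun r : ℝ => ((r, φ, t) : ℝ × ℝ × ℝ)) (by fun_prop))
    have h2 : ∀ᶠ r' in 𝓝 r, p (cy r' φ t) < 1 := hcont.continuousAt.eventually_lt_const h
    obtain ⟨δ, hδ, h3⟩ := Metric.eventually_nhds_iff.mp h2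
    have h4 : p (cy (r + δ / 2) φ t) < 1 := by
      apply h3
      rw [Real.dist_eq]
      have : r + δ / 2 - r = δ / 2 := by ring
      rw [this, abs_of_pos (by linarith)]
      linarith
    have h5 : r + δ / 2 ≤ Rr p t φ :=
      le_csSup (rad_bdd p η κ hp hκ1 h1 t φ) ⟨by linarith, h4.le⟩
    linarith
  · intro h
    obtain ⟨hR0, hR⟩ := rad_mem p η κ hp h0 hκ hκ1 h1 t φ ht
    have hRp : 0 < Rr p t φ := lt_of_le_of_lt hr h
    have h2 := rad_conv p η hp (r / Rr p t φ) (Rr p t φ) φ t (by positivity)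
      ((div_le_one hRp).mpr h.le)
    rw [div_mul_cancel₀ _ hRp.ne'] at h2
    have h3 := rad_zero p η κ hp h0 hκ hκ1 h1 t φ ht
    have h4 : r / Rr p t φ < 1 := (div_lt_one hRp).mpr h
    have h5 : 0 ≤ r / Rr p t φ := by positivity
    nlinarith [mul_lt_mul_of_pos_left h3 (sub_pos.mpr h4), mul_le_mul_of_nonneg_left hR h5]

theorem rad_le (p : E3 → ℝ) (η κ : ℝ) (hp : Gau p η) (h0 : 0 ≤ η) (hκ : 0 < κ) (hκ1 : κ < 1)
    (h1 : η ≤ κ / 4) (t φ : ℝ) (ht : |t| ≤ 1 - κ) (r : ℝ) (hr : 0 ≤ r) :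
    p (cy r φ t) ≤ 1 ↔ r ≤ Rr p t φ := by
  constructor
  · intro h
    exact le_csSup (rad_bdd p η κ hp hκ1 h1 t φ) ⟨hr, h⟩
  · intro h
    rcases h.lt_or_eq with h | h
    · exact ((rad_lt p η κ hp h0 hκ hκ1 h1 t φ ht r hr).mpr h).le
    · rw [h]
      exact (rad_mem p η κ hp h0 hκ hκ1 h1 t φ ht).2

theorem rad_bounds (p : E3 → ℝ) (η κ : ℝ) (hp : Gau p η) (h0 : 0 ≤ η) (hκ : 0 < κ) (hκ1 : κ < 1)
    (h1 : η ≤ κ / 4) (t φ : ℝ) (ht : |t| ≤ 1 - κ) :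
    0 < Rr p t φ ∧ κ / 2 ≤ Rr p t φ ^ 2 ∧ Rr p t φ ≤ 2 ∧ p (cy (Rr p t φ) φ t) = 1 := by
  have hpos : 0 < Rr p t φ :=
    (rad_lt p η κ hp h0 hκ hκ1 h1 t φ ht 0 le_rfl).mp (rad_zero p η κ hp h0 hκ hκ1 h1 t φ ht)
  have hone : p (cy (Rr p t φ) φ t) = 1 := by
    apply le_antisymm (rad_mem p η κ hp h0 hκ hκ1 h1 t φ ht).2
    by_contra hlt
    push Not at hlt
    exact lt_irrefl _ ((rad_lt p η κ hp h0 hκ hκ1 h1 t φ ht _ hpos.le).mp hlt)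
  refine ⟨hpos, ?_, ?_, hone⟩
  · have h2 := hp.up (cy (Rr p t φ) φ t)
    rw [rad_cy_norm, hone] at h2
    set R := Rr p t φ
    have h3 : 0 ≤ √(R ^ 2 + t ^ 2) := Real.sqrt_nonneg _
    have h4 : √(R ^ 2 + t ^ 2) ^ 2 = R ^ 2 + t ^ 2 := Real.sq_sqrt (by positivity)
    have h5 : t ^ 2 ≤ (1 - κ) ^ 2 := by
      rw [← sq_abs t]
      exact pow_le_pow_left₀ (abs_nonneg t) ht 2
    have h6 : 1 ≤ (1 + κ / 4) * √(R ^ 2 + t ^ 2) :=
      h2.trans (mul_le_mul_of_nonneg_right (by linarith) h3)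
    have h7 : 1 ≤ (1 + κ / 4) ^ 2 * (R ^ 2 + t ^ 2) := by
      rw [← h4, ← mul_pow]
      exact one_le_pow₀ h6
    by_contra hlt
    push Not at hlt
    have h8 : (1 + κ / 4) ^ 2 * (R ^ 2 + t ^ 2) < (1 + κ / 4) ^ 2 * (κ / 2 + (1 - κ) ^ 2) := by
      apply mul_lt_mul_of_pos_left (by linarith) (by positivity)
    have h9 : (1 + κ / 4) ^ 2 * (κ / 2 + (1 - κ) ^ 2) ≤ (1 + κ / 4) ^ 2 * (1 - κ / 2) := by
      apply mul_le_mul_of_nonneg_left _ (by positivity)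
      nlinarith
    have h10 : (1 + κ / 4) ^ 2 * (1 - κ / 2) ≤ 1 := by
      nlinarith [pow_pos hκ 3, sq_nonneg κ]
    linarith
  · have := rad_le_of p η κ hp hκ1 h1 t φ _ hone.le
    linarith

theorem rad_cont (p : E3 → ℝ) (η κ : ℝ) (hp : Gau p η) (h0 : 0 ≤ η) (hκ : 0 < κ) (hκ1 : κ < 1)
    (h1 : η ≤ κ / 4) :
    ContinuousOn (fun z : ℝ × ℝ => Rr p z.1 z.2) {z | |z.1| ≤ 1 - κ} := by
  intro z0 hz0
  have hz0' : |z0.1| ≤ 1 - κ := hz0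
  have hc : ∀ a : ℝ, Continuous fun z : ℝ × ℝ => p (cy a z.2 z.1) := fun a =>
    (rad_cont_p p η hp h0).comp
      (rad_cy_cont.comp (f := fun z : ℝ × ℝ => ((a, z.2, z.1) : ℝ × ℝ × ℝ)) (by fun_prop))
  refine tendsto_order.mpr ⟨fun a ha => ?_, fun b hb => ?_⟩
  · have hmem : ∀ᶠ z in 𝓝[{z : ℝ × ℝ | |z.1| ≤ 1 - κ}] z0, |z.1| ≤ 1 - κ :=
      eventually_mem_nhdsWithin
    rcases lt_or_ge a 0 with hneg | hnn
    · filter_upwards [hmem] with z hz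
      exact hneg.trans (rad_bounds p η κ hp h0 hκ hκ1 h1 z.1 z.2 hz).1
    · have h2 := (rad_lt p η κ hp h0 hκ hκ1 h1 z0.1 z0.2 hz0' a hnn).mpr ha
      have h3 : ∀ᶠ z in 𝓝 z0, p (cy a z.2 z.1) < 1 :=
        (hc a).continuousAt.eventually_lt_const h2
      filter_upwards [hmem, mem_nhdsWithin_of_mem_nhds h3] with z hz hz3
      exact (rad_lt p η κ hp h0 hκ hκ1 h1 z.1 z.2 hz a hnn).mp hz3
  · have hmem : ∀ᶠ z in 𝓝[{z : ℝ × ℝ | |z.1| ≤ 1 - κ}] z0, |z.1| ≤ 1 - κ :=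
      eventually_mem_nhdsWithin
    have hb0 : 0 ≤ b := (rad_bounds p η κ hp h0 hκ hκ1 h1 z0.1 z0.2 hz0').1.le.trans hb.le
    have h2 : 1 < p (cy b z0.2 z0.1) := by
      by_contra hle
      push Not at hle
      exact absurd ((rad_le p η κ hp h0 hκ hκ1 h1 z0.1 z0.2 hz0' b hb0).mp hle)
        (not_le.mpr hb)
    have h3 : ∀ᶠ z in 𝓝 z0, 1 < p (cy b z.2 z.1) :=
      (hc b).continuousAt.eventually_const_lt h2
    filter_upwards [hmem, mem_nhdsWithin_of_mem_nhds h3] with z hz hz3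
    by_contra hle
    push Not at hle
    exact absurd ((rad_le p η κ hp h0 hκ hκ1 h1 z.1 z.2 hz b hb0).mpr hle)
      (not_le.mpr hz3)

theorem rad_pt_norm (S φ : ℝ) (hS : |S| ≤ 1) : ‖pt S φ‖ = 1 := by
  rw [EuclideanSpace.norm_eq, Fin.sum_univ_three]
  have h1 : 0 ≤ 1 - S ^ 2 := by
    have := sq_abs S
    nlinarith [abs_nonneg S]
  have h2 : √(1 - S ^ 2) ^ 2 = 1 - S ^ 2 := Real.sq_sqrt h1
  have h3 : Real.cos φ ^ 2 + Real.sin φ ^ 2 = 1 := Real.cos_sq_add_sin_sq φ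
  rw [Real.sqrt_eq_one]
  simp only [pt, Real.norm_eq_abs, sq_abs]
  simp
  nlinarith [h2, h3]

theorem rad_dir (p : E3 → ℝ) (η κ : ℝ) (hp : Gau p η) (h0 : 0 ≤ η) (hκ : 0 < κ) (hκ1 : κ < 1)
    (h1 : η ≤ κ / 4) (t φ : ℝ) (ht : |t| ≤ 1 - κ) :
    |Sp p t φ| < 1 ∧ cy (Rr p t φ) φ t = √(Rr p t φ ^ 2 + t ^ 2) • pt (Sp p t φ) φ ∧
      √(Rr p t φ ^ 2 + t ^ 2) * p (pt (Sp p t φ) φ) = 1 ∧
      Rr p t φ = √(Rr p t φ ^ 2 + t ^ 2) * √(1 - Sp p t φ ^ 2) ∧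
      Rr p t φ ^ 2 = 1 - t ^ 2 + 2 * FF p (pt (Sp p t φ) φ) := by
  obtain ⟨hR, -, -, hone⟩ := rad_bounds p η κ hp h0 hκ hκ1 h1 t φ ht
  unfold Sp
  set R := Rr p t φ with hRdef
  set N := √(R ^ 2 + t ^ 2) with hN
  have hNsq : N ^ 2 = R ^ 2 + t ^ 2 := Real.sq_sqrt (by positivity)
  have hNpos : 0 < N := Real.sqrt_pos.mpr (by positivity)
  have hS : |t / N| < 1 := by
    rw [abs_div, abs_of_pos hNpos, div_lt_one hNpos]
    apply abs_lt_of_sq_lt_sq _ hNpos.le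
    rw [hNsq]
    nlinarith
  have hsq : 1 - (t / N) ^ 2 = (R / N) ^ 2 := by
    field_simp
    linarith
  have hsqrt : √(1 - (t / N) ^ 2) = R / N := by
    rw [hsq, Real.sqrt_sq (by positivity)]
  have hcy : cy R φ t = N • pt (t / N) φ := by
    ext i
    have e1 : N * (R / N * Real.cos φ) = R * Real.cos φ := by field_simp
    have e2 : N * (R / N * Real.sin φ) = R * Real.sin φ := by field_simp
    have e3 : N * (t / N) = t := by field_simp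
    fin_cases i <;> simp [cy, pt, hsqrt, e1, e2, e3]
  have hNp : N * p (pt (t / N) φ) = 1 := by
    rw [← hp.hom _ _ hNpos.le, ← hcy, hone]
  refine ⟨hS, hcy, hNp, ?_, ?_⟩
  · rw [hsqrt]
    field_simp
  · have hpn := rad_pt_norm (t / N) φ hS.le
    unfold FF
    rw [hpn]
    have hpp : 1 / p (pt (t / N) φ) = N := by
      have hne : p (pt (t / N) φ) ≠ 0 := by
        intro h
        rw [h, mul_zero] at hNp
        exact zero_ne_one hNp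
      field_simp
      linarith
    rw [hpp, hNsq]
    ring

end Pool.Agent.Lib_helper15.STE
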