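import Pool.Agent.Lib_helper15.STE.DefsG
import Pool.Agent.Lib_helper15.STE.B.rad
import Pool.Agent.Lib_helper15.STE.B.gauA

/-! # STE, block area -/

open MeasureTheory Filter Topology
open scoped InnerProductSpace

namespace Pool.Agent.Lib_helper15.STE

/-- the plane as a product -/
theorem area_prod : MeasurePreserving (fun y : E2 => (y 0, y 1)) volume volume :=
  (volume_preserving_finTwoArrow ℝ).comp (EuclideanSpace.volume_preserving_symm_measurableEquiv_toLp (Fin 2))

theorem area_pre (S : Set (ℝ × ℝ)) (hS : MeasurableSet S) :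
    volume ((fun y : E2 => (y 0, y 1)) ⁻¹' S) = volume S := by
  have h := MeasurePreserving.measure_preimage area_prod (s := S) hS.nullMeasurableSet
  exact h

/-- the volume of a set described in polar coordinates -/
theorem area_polar (S : Set (ℝ × ℝ)) (hS : MeasurableSet S) (R : ℝ → ℝ)
    (h : ∀ r φ, 0 < r → ((r * Real.cos φ, r * Real.sin φ) ∈ S ↔ r ≤ R φ)) :
    volume S = ∫⁻ z in Set.Ioi (0:ℝ) ×ˢ Set.Ioo (-Real.pi) Real.pi,
      (if z.1 ≤ R z.2 then ENNReal.ofReal z.1 else 0) ∂((volume : Measure ℝ).prod volume) := by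
  rw [← lintegral_indicator_one hS, ← lintegral_comp_polarCoord_symm]
  refine setLIntegral_congr_fun (measurableSet_Ioi.prod measurableSet_Ioo) fun z hz => ?_
  have hz1 : 0 < z.1 := hz.1
  have h6 : polarCoord.symm z ∈ S ↔ z.1 ≤ R z.2 := h z.1 z.2 hz1
  by_cases h7 : z.1 ≤ R z.2
  · simp only [if_pos h7]
    rw [Set.indicator_of_mem (h6.2 h7)]
    simp
  · simp only [if_neg h7]
    rw [Set.indicator_of_notMem (fun h => h7 (h6.1 h))]
    simp

/-- the inner integral -/
theorem area_inner (R : ℝ) (hR : 0 ≤ R) :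
    ∫⁻ r in Set.Ioi (0:ℝ), (if r ≤ R then ENNReal.ofReal r else 0) = ENNReal.ofReal (R ^ 2 / 2) := by
  have h1 : ∫⁻ r in Set.Ioi (0:ℝ), (if r ≤ R then ENNReal.ofReal r else 0)
      = ∫⁻ r in Set.Ioc 0 R, ENNReal.ofReal r := by
    rw [← lintegral_indicator measurableSet_Ioi, ← lintegral_indicator measurableSet_Ioc]
    refine lintegral_congr fun r => ?_
    by_cases h2 : 0 < r
    · by_cases h3 : r ≤ R
      · rw [Set.indicator_of_mem (Set.mem_Ioi.2 h2), if_pos h3, Set.indicator_of_mem (show r ∈ Set.Ioc 0 R from ⟨h2, h3⟩)]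
      · rw [Set.indicator_of_mem (Set.mem_Ioi.2 h2), if_neg h3,
          Set.indicator_of_notMem (fun h => h3 h.2)]
    · rw [Set.indicator_of_notMem (fun h => h2 (Set.mem_Ioi.1 h)),
        Set.indicator_of_notMem (fun h => h2 h.1)]
  rw [h1, ← ofReal_integral_eq_lintegral_ofReal]
  · rw [← intervalIntegral.integral_of_le hR, integral_id]
    congr 1
    ring
  · exact (continuous_id.integrableOn_Icc).mono_set Set.Ioc_subset_Icc_self
  · filter_upwards [ae_restrict_mem measurableSet_Ioc] with r hr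
    exact hr.1.le

theorem area_eq (p : E3 → ℝ) (η κ : ℝ) (hp : Gau p η) (h0 : 0 ≤ η) (hκ : 0 < κ) (hκ1 : κ < 1)
    (h1 : η ≤ κ / 4) (t : ℝ) (ht : |t| ≤ 1 - κ) :
    volume (Mp p t) =
      ENNReal.ofReal (1 / 2 * ∫ φ in (-Real.pi)..Real.pi, Rr p t φ ^ 2) := by
  have hpc : Continuous p := (gauA_lip p η hp h0 (by linarith)).continuous
  obtain ⟨g, hgdef⟩ : ∃ g : ℝ × ℝ → E3, g = fun z => !₂[z.1, z.2, t] := ⟨_, rfl⟩
  have hg : Continuous g := by
    rw [hgdef]
    refine (PiLp.continuous_toLp 2 _).comp (continuous_pi fun i => ?_)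
    fin_cases i
    · exact continuous_fst
    · exact continuous_snd
    · exact continuous_const
  obtain ⟨S, hSdef⟩ : ∃ S : Set (ℝ × ℝ), ∀ z, z ∈ S ↔ p (g z) ≤ 1 := ⟨{z | p (g z) ≤ 1}, fun _ => Iff.rfl⟩
  have hS : MeasurableSet S := by
    have h3 : S = {z | p (g z) ≤ 1} := Set.ext hSdef
    rw [h3]
    exact (isClosed_le (hpc.comp hg) continuous_const).measurableSet
  have h22 : Mp p t = (fun y : E2 => (y 0, y 1)) ⁻¹' S := by
    ext y
    rw [Set.mem_preimage, hSdef, hgdef]
    rfl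
  have h2 : volume (Mp p t) = volume S := by
    rw [h22, area_pre S hS]
  have hRc : Continuous (fun φ => Rr p t φ) := by
    have h3 := rad_cont p η κ hp h0 hκ hκ1 h1
    have h4 : Continuous (fun φ : ℝ => (t, φ)) := by fun_prop
    have h5 : ∀ φ : ℝ, (t, φ) ∈ {z : ℝ × ℝ | |z.1| ≤ 1 - κ} := by
      intro φ
      rw [Set.mem_ofPred_eq]
      exact ht
    have h6 := ContinuousOn.comp_continuous h3 h4 h5
    exact h6
  have hpos := fun φ => (rad_bounds p η κ hp h0 hκ hκ1 h1 t φ ht).1
  have h5 := area_polar S hS (fun φ => Rr p t φ) (by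
    intro r φ hr
    rw [hSdef, hgdef]
    exact rad_le p η κ hp h0 hκ hκ1 h1 t φ ht r hr.le)
  have hm : Measurable (fun z : ℝ × ℝ => if z.1 ≤ Rr p t z.2 then ENNReal.ofReal z.1 else 0) := by
    refine Measurable.ite ?_ (by fun_prop) measurable_const
    exact measurableSet_le measurable_fst (hRc.measurable.comp measurable_snd)
  rw [h2, h5, setLIntegral_prod_symm _ hm.aemeasurable]
  have h8 : ∀ φ, ∫⁻ r in Set.Ioi (0:ℝ), (if r ≤ Rr p t φ then ENNReal.ofReal r else 0)
      = ENNReal.ofReal (Rr p t φ ^ 2 / 2) := fun φ => area_inner _ (hpos φ).le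
  simp only [h8]
  have hcont : Continuous (fun φ => Rr p t φ ^ 2 / 2) := by fun_prop
  rw [← ofReal_integral_eq_lintegral_ofReal]
  · congr 1
    rw [← integral_Ioc_eq_integral_Ioo, ← intervalIntegral.integral_of_le (by linarith [Real.pi_pos]),
      intervalIntegral.integral_div]
    ring
  · exact (hcont.integrableOn_Icc).mono_set Set.Ioo_subset_Icc_self
  · filter_upwards with φ
    positivity

end Pool.Agent.Lib_helper15.STE
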