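import Pool.Agent.Lib_helper15.STE.DefsG

/-! # STE, block bdpos -/

open MeasureTheory Filter Topology
open scoped InnerProductSpace Pointwise

namespace Pool.Agent.Lib_helper15.STE

theorem bdpos_fin : Module.finrank ℝ E3 = 3 := by simp

theorem bdpos_sub (p : E3 → ℝ) (η : ℝ) (hp : Gau p η) (h1 : η ≤ 1 / 4) :
    Kp p ⊆ Metric.closedBall 0 (1 / (1 - η)) := by
  intro x hx
  rw [mem_closedBall_zero_iff, le_div_iff₀ (by linarith)]
  have := hp.lo x
  have hx' : p x ≤ 1 := hx
  nlinarith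

theorem bdpos_sup (p : E3 → ℝ) (η : ℝ) (hp : Gau p η) (h0 : 0 ≤ η) :
    Metric.closedBall 0 (1 / (1 + η)) ⊆ Kp p := by
  intro x hx
  rw [mem_closedBall_zero_iff, le_div_iff₀ (by linarith)] at hx
  have := hp.up x
  show p x ≤ 1
  nlinarith

theorem bdpos_K (p : E3 → ℝ) (η : ℝ) (hp : Gau p η) (h0 : 0 ≤ η) (h1 : η ≤ 1 / 4) :
    0 < volume (Kp p) ∧ volume (Kp p) < ⊤ ∧ volume (Kp p) ≤ bd (Kp p) := by
  have hfin : volume (Kp p) < ⊤ :=
    lt_of_le_of_lt (measure_mono (bdpos_sub p η hp h1))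
      (isCompact_closedBall (0 : E3) (1 / (1 - η))).measure_lt_top
  have hpos : 0 < volume (Kp p) :=
    lt_of_lt_of_le (Metric.measure_closedBall_pos volume (0 : E3) (by positivity))
      (measure_mono (bdpos_sup p η hp h0))
  refine ⟨hpos, hfin, ?_⟩
  refine le_liminf_of_le (by isBoundedDefault) ?_
  filter_upwards [self_mem_nhdsWithin] with ε hε
  have hε' : 0 < ε := hε
  rw [ENNReal.le_div_iff_mul_le (Or.inl (by simpa using hε')) (Or.inl ENNReal.ofReal_ne_top)]
  set a : ℝ := ε * (1 - η) with ha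
  have ha0 : 0 < a := by rw [ha]; exact mul_pos hε' (by linarith)
  have hsub : (1 + a) • Kp p ⊆ Metric.cthickening ε (Kp p) := by
    rintro _ ⟨y, hy, rfl⟩
    refine Metric.mem_cthickening_of_dist_le _ y ε _ hy ?_
    have hy' := bdpos_sub p η hp h1 hy
    rw [mem_closedBall_zero_iff, le_div_iff₀ (by linarith)] at hy'
    have h2 : ((1 + a) • y : E3) - y = a • y := by
      rw [add_smul, one_smul, add_sub_cancel_left]
    show dist ((1 + a) • y) y ≤ ε
    rw [dist_eq_norm, h2, norm_smul, Real.norm_eq_abs, abs_of_pos ha0, ha]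
    nlinarith [norm_nonneg y]
  have hvol : volume ((1 + a) • Kp p) = ENNReal.ofReal ((1 + a) ^ 3) * volume (Kp p) := by
    rw [Measure.addHaar_smul, bdpos_fin, abs_of_pos (by positivity)]
  calc volume (Kp p) * ENNReal.ofReal ε
      ≤ ENNReal.ofReal ((1 + a) ^ 3 - 1) * volume (Kp p) := by
        rw [mul_comm]
        refine mul_le_mul_left (ENNReal.ofReal_le_ofReal ?_) _
        have h3 : 3 / 4 * ε ≤ a := by rw [ha]; nlinarith
        nlinarith [sq_nonneg a, pow_pos ha0 3]
    _ = ENNReal.ofReal ((1 + a) ^ 3) * volume (Kp p) - volume (Kp p) := by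
        rw [ENNReal.ofReal_sub _ zero_le_one, ENNReal.ofReal_one,
          ENNReal.sub_mul (fun _ _ => hfin.ne), one_mul]
    _ = volume ((1 + a) • Kp p) - volume (Kp p) := by rw [hvol]
    _ ≤ volume (((1 + a) • Kp p) \ Kp p) := le_measure_sdiff
    _ ≤ volume (Metric.cthickening ε (Kp p) \ Kp p) :=
        measure_mono (Set.sdiff_subset_sdiff_left hsub)

end Pool.Agent.Lib_helper15.STE
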