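import Pool.Agent.Lib_helper15.STE.DefsG

/-! # STE, block cov : change of variables on a line -/

open MeasureTheory Filter Topology
open scoped InnerProductSpace

namespace Pool.Agent.Lib_helper15.STE

theorem cov_meas (f : ℝ → ℝ) (K : NNReal) (hf : LipschitzWith K f) (A : Set ℝ) :
    volume (f '' A) ≤ K * volume A := by
  have h := hf.hausdorffMeasure_image_le (d := 1) zero_le_one A
  rw [MeasureTheory.hausdorffMeasure_real] at h
  simpa using h

theorem cov_main (S : ℝ → ℝ) (a b δ ε : ℝ) (hε : 0 ≤ ε) (hδ : 0 ≤ δ) (hab : a + 2 * δ ≤ b)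
    (hL : ∀ t ∈ Set.Icc a b, ∀ t' ∈ Set.Icc a b, |S t - S t'| ≤ (1 + ε) * |t - t'|)
    (hS : ∀ t ∈ Set.Icc a b, |S t - t| ≤ δ) (h : ℝ → ENNReal) (hh : Measurable h) :
    ∫⁻ τ in Set.Ioo (a + δ) (b - δ), h τ ≤
      ENNReal.ofReal (1 + ε) * ∫⁻ t in Set.Ioo a b, h (S t) := by
  have hab' : a ≤ b := by linarith
  set S' : ℝ → ℝ := fun t => S (Set.projIcc a b hab' t) with hS'
  have hLip : LipschitzWith (1 + ε).toNNReal S' := by
    refine LipschitzWith.of_dist_le_mul fun x y => ?_
    have h1 := hL _ (Set.projIcc a b hab' x).2 _ (Set.projIcc a b hab' y).2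
    have h2 : |((Set.projIcc a b hab' x : ℝ)) - (Set.projIcc a b hab' y : ℝ)| ≤ |x - y| := by
      have := (LipschitzWith.projIcc hab').dist_le_mul x y
      simpa [Subtype.dist_eq, Real.dist_eq] using this
    rw [Real.dist_eq, Real.dist_eq, Real.coe_toNNReal _ (by linarith)]
    exact h1.trans (mul_le_mul_of_nonneg_left h2 (by linarith))
  have hc : Continuous S' := hLip.continuous
  have heq : ∀ t ∈ Set.Icc a b, S' t = S t := fun t ht => by
    simp [hS', Set.projIcc_of_mem hab' ht]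
  have hle : volume.restrict (Set.Ioo (a + δ) (b - δ)) ≤
      ENNReal.ofReal (1 + ε) • (volume.restrict (Set.Ioo a b)).map S' := by
    refine Measure.le_iff.2 fun B hB => ?_
    rw [Measure.restrict_apply hB, Measure.smul_apply, Measure.map_apply hc.measurable hB,
      Measure.restrict_apply (hc.measurable hB), smul_eq_mul]
    have hsub : B ∩ Set.Ioo (a + δ) (b - δ) ⊆ S' '' (S' ⁻¹' B ∩ Set.Ioo a b) := by
      rintro y ⟨hyB, hy1, hy2⟩
      have ha : S' a ≤ a + δ := by
        have := hS a ⟨le_rfl, hab'⟩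
        rw [heq a ⟨le_rfl, hab'⟩]
        have := (abs_le.1 this).2
        linarith
      have hb : b - δ ≤ S' b := by
        have := hS b ⟨hab', le_rfl⟩
        rw [heq b ⟨hab', le_rfl⟩]
        have := (abs_le.1 this).1
        linarith
      obtain ⟨t, ht, hty⟩ := intermediate_value_Ioo hab' hc.continuousOn
        (⟨lt_of_le_of_lt ha hy1, lt_of_lt_of_le hy2 hb⟩ : y ∈ Set.Ioo (S' a) (S' b))
      exact ⟨t, ⟨by simpa [hty] using hyB, ht⟩, hty⟩
    calc volume (B ∩ Set.Ioo (a + δ) (b - δ))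
        ≤ volume (S' '' (S' ⁻¹' B ∩ Set.Ioo a b)) := measure_mono hsub
      _ ≤ _ := cov_meas S' _ hLip _
  calc ∫⁻ τ in Set.Ioo (a + δ) (b - δ), h τ
      ≤ ∫⁻ τ, h τ ∂(ENNReal.ofReal (1 + ε) • (volume.restrict (Set.Ioo a b)).map S') :=
        lintegral_mono' hle le_rfl
    _ = ENNReal.ofReal (1 + ε) * ∫⁻ t in Set.Ioo a b, h (S' t) := by
        rw [lintegral_smul_measure, lintegral_map hh hc.measurable, smul_eq_mul]
    _ = _ := by
        congr 1
        refine setLIntegral_congr_fun measurableSet_Ioo fun t ht => ?_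
        rw [heq t (Set.Ioo_subset_Icc_self ht)]

end Pool.Agent.Lib_helper15.STE
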