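import Pool.Agent.Lib_helper15.STE.DefsG
import Pool.Agent.Lib_helper15.STE.B.gauA

/-! # STE, block gauF : the function `FF p` -/

open MeasureTheory Filter Topology
open scoped InnerProductSpace

namespace Pool.Agent.Lib_helper15.STE

/-- bounds for `p` at a unit vector -/
theorem gauF_bds (p : E3 → ℝ) (η : ℝ) (hp : Gau p η) (x : E3) (hx : ‖x‖ = 1) :
    1 - η ≤ p x ∧ p x ≤ 1 + η := by
  have h1 := hp.lo x
  have h2 := hp.up x
  rw [hx, mul_one] at h1 h2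
  exact ⟨h1, h2⟩

theorem gauF_eq (p : E3 → ℝ) (η : ℝ) (hp : Gau p η) (h1 : η ≤ 1 / 4) (x : E3)
    (hx : ‖x‖ = 1) : 1 + 2 * FF p x = ((p x) ^ 2)⁻¹ := by
  unfold FF
  rw [hx, one_div, inv_pow]
  ring

theorem gauF_adm (p : E3 → ℝ) (η : ℝ) (hp : Gau p η) (h0 : 0 ≤ η) (h1 : η ≤ 1 / 4) :
    Adm (FF p) := by
  constructor
  · intro x r hr
    unfold FF
    rw [norm_smul, Real.norm_of_nonneg hr.le, hp.hom x r hr.le, mul_div_mul_left _ _ hr.ne']
  · refine ⟨10, fun x y hx hy => ?_⟩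
    have hL := (gauA_lip p η hp h0 h1).dist_le_mul x y
    rw [Real.dist_eq, dist_eq_norm] at hL
    have hL' : |p x - p y| ≤ 2 * ‖x - y‖ := by simpa using hL
    obtain ⟨a1, a2⟩ := gauF_bds p η hp x hx
    obtain ⟨b1, b2⟩ := gauF_bds p η hp y hy
    have ex := gauF_eq p η hp h1 x hx
    have ey := gauF_eq p η hp h1 y hy
    have hpx : 3 / 4 ≤ p x := by linarith
    have hpy : 3 / 4 ≤ p y := by linarith
    have hpx' : p x ≤ 5 / 4 := by linarith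
    have hpy' : p y ≤ 5 / 4 := by linarith
    have hx0 : 0 < p x := by linarith
    have hy0 : 0 < p y := by linarith
    have key : FF p x - FF p y = (p y - p x) * ((p x + p y) / (2 * (p x ^ 2 * p y ^ 2))) := by
      have : FF p x - FF p y = (((p x) ^ 2)⁻¹ - ((p y) ^ 2)⁻¹) / 2 := by
        rw [← ex, ← ey]; ring
      rw [this]
      field_simp
      ring
    have hq : |(p x + p y) / (2 * (p x ^ 2 * p y ^ 2))| ≤ 5 := by
      rw [abs_of_nonneg (by positivity), div_le_iff₀ (by positivity)]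
      have c1 : (9 / 16 : ℝ) ≤ p x ^ 2 := by nlinarith
      have c2 : (9 / 16 : ℝ) ≤ p y ^ 2 := by nlinarith
      have c3 : (81 / 256 : ℝ) ≤ p x ^ 2 * p y ^ 2 := by nlinarith
      nlinarith
    rw [key, abs_mul, abs_sub_comm (p y) (p x)]
    calc |p x - p y| * |(p x + p y) / (2 * (p x ^ 2 * p y ^ 2))| ≤ (2 * ‖x - y‖) * 5 := by
          exact mul_le_mul hL' hq (abs_nonneg _) (by positivity)
      _ = 10 * ‖x - y‖ := by ring

theorem gauF_diff (p : E3 → ℝ) (η : ℝ) (hp : Gau p η) (h0 : 0 ≤ η) (h1 : η ≤ 1 / 4) :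
    (∀ᵐ x ∂(volume : Measure E3), DifferentiableAt ℝ p x) ∧
      ∀ᵐ x ∂sig, DifferentiableAt ℝ p x := by
  have hv : ∀ᵐ x ∂(volume : Measure E3), DifferentiableAt ℝ p x :=
    (gauA_lip p η hp h0 h1).ae_differentiableAt
  refine ⟨hv, ?_⟩
  have hm : MeasurableSet {x : E3 | DifferentiableAt ℝ p x} :=
    measurableSet_of_differentiableAt ℝ p
  have hf : Measurable (fun x : E3 => ‖x‖⁻¹ • x) := measurable_norm.inv.smul measurable_id
  unfold sig
  refine Measure.ae_smul_measure ?_ _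
  rw [ae_map_iff hf.aemeasurable hm]
  have h2 : ∀ᵐ x ∂((volume : Measure E3).restrict (Metric.ball (0 : E3) 1)),
      DifferentiableAt ℝ p x := ae_restrict_of_ae hv
  have h3 : ∀ᵐ x ∂((volume : Measure E3).restrict (Metric.ball (0 : E3) 1)), x ≠ 0 := by
    refine ae_restrict_of_ae ?_
    have : (volume : Measure E3) {0} = 0 := measure_singleton 0
    exact compl_mem_ae_iff.2 this
  filter_upwards [h2, h3] with x hx hx0
  exact ((gauA_hom p η hp x ‖x‖⁻¹ (inv_pos.2 (norm_pos_iff.2 hx0))).1).2 hx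

theorem gauF_bound (p : E3 → ℝ) (η : ℝ) (hp : Gau p η) (h0 : 0 ≤ η) (h1 : η ≤ 1 / 4) (x : E3)
    (hx : x ≠ 0) : |FF p x| ≤ 2 * η := by
  have hn : 0 < ‖x‖ := norm_pos_iff.2 hx
  have hpx : 0 < p x := gauA_pos p η hp h1 x hx
  have hlo := hp.lo x
  have hup := hp.up x
  set t := ‖x‖ / p x with ht
  have ht0 : 0 < t := div_pos hn hpx
  have hlo' : (1 - η) * t ≤ 1 := by
    rw [ht, ← mul_div_assoc, div_le_one hpx]; exact hlo
  have hup' : 1 ≤ (1 + η) * t := by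
    rw [ht, ← mul_div_assoc, one_le_div hpx]; exact hup
  unfold FF
  rw [← ht, abs_le]
  constructor
  · nlinarith [mul_nonneg h0 ht0.le]
  · have h3 : t ≤ 4 / 3 := by nlinarith
    have h4 : t - 1 ≤ η * t := by linarith
    nlinarith [mul_nonneg h0 ht0.le]

theorem gauF_fderiv_eq (p : E3 → ℝ) (η : ℝ) (hp : Gau p η) (h1 : η ≤ 1 / 4) (x : E3)
    (hx1 : ‖x‖ = 1) (hx : DifferentiableAt ℝ p x) :
    HasFDerivAt (FF p) (((p x) ^ 2)⁻¹ • innerSL ℝ x - ((p x) ^ 3)⁻¹ • fderiv ℝ p x) x := by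
  have hx0 : x ≠ 0 := by
    intro h
    rw [h, norm_zero] at hx1
    exact zero_ne_one hx1
  have hpx : 0 < p x := gauA_pos p η hp h1 x hx0
  have e1 : HasFDerivAt (fun y : E3 => ‖y‖ ^ 2) (2 • innerSL ℝ x) x :=
    (hasStrictFDerivAt_norm_sq x).hasFDerivAt
  have e2 : HasFDerivAt p (fderiv ℝ p x) x := hx.hasFDerivAt
  have e3 : HasFDerivAt (fun y : E3 => (p y ^ 2)⁻¹)
      ((-(((p x) ^ 2) ^ 2)⁻¹) • ((2 * p x) • fderiv ℝ p x)) x := by
    have e4 : HasFDerivAt (fun y : E3 => p y ^ 2) ((2 * p x) • fderiv ℝ p x) x := by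
      have := e2.pow 2
      simpa using this
    exact (hasDerivAt_inv (pow_ne_zero 2 hpx.ne')).comp_hasFDerivAt x e4
  have e5 := (e1.mul e3).const_mul (1 / 2 : ℝ)
  have e6 : HasFDerivAt (fun y : E3 => (1 / 2 : ℝ) * (‖y‖ ^ 2 * (p y ^ 2)⁻¹) - 1 / 2) _ x :=
    e5.sub_const (1 / 2)
  have e7 : FF p = fun y : E3 => (1 / 2 : ℝ) * (‖y‖ ^ 2 * (p y ^ 2)⁻¹) - 1 / 2 := by
    funext y
    unfold FF
    rw [div_pow, div_eq_mul_inv (‖y‖ ^ 2)]
    ring
  rw [e7]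
  refine e6.congr_fderiv ?_
  ext v
  simp only [smul_apply, add_apply, sub_apply, smul_eq_mul, innerSL_apply_apply, hx1]
  simp only [nsmul_eq_mul, Nat.cast_ofNat]
  field_simp
  ring

theorem gauF_fderiv (p : E3 → ℝ) (η : ℝ) (hp : Gau p η) (h1 : η ≤ 1 / 4) (x : E3)
    (hx1 : ‖x‖ = 1) (hx : DifferentiableAt ℝ p x) (v : E3) :
    fderiv ℝ (FF p) x v = ⟪x, v⟫_ℝ / p x ^ 2 - fderiv ℝ p x v / p x ^ 3 := by
  rw [(gauF_fderiv_eq p η hp h1 x hx1 hx).fderiv]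
  simp only [smul_apply, sub_apply, smul_eq_mul, innerSL_apply_apply]
  ring

/-- norm of a functional of the form `a ⟪x, ·⟫ - b L` with `L x` known -/
theorem gauF_norm_sq (x : E3) (hx1 : ‖x‖ = 1) (L : E3 →L[ℝ] ℝ) (a b : ℝ) :
    ‖a • innerSL ℝ x - b • L‖ ^ 2 = a ^ 2 - 2 * a * b * L x + b ^ 2 * ‖L‖ ^ 2 := by
  set g : E3 := (InnerProductSpace.toDual ℝ E3).symm L with hg
  have hL : L = innerSL ℝ g := by
    ext v
    rw [innerSL_apply_apply, hg, InnerProductSpace.toDual_symm_apply]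
  have hLn : ‖L‖ = ‖g‖ := by rw [hL, innerSL_apply_norm]
  have h2 : a • innerSL ℝ x - b • L = innerSL ℝ (a • x - b • g) := by
    rw [map_sub, map_smul, map_smul, ← hL]
  have h3 : L x = ⟪x, g⟫_ℝ := by rw [hL, innerSL_apply_apply, real_inner_comm]
  rw [h2, innerSL_apply_norm, norm_sub_sq_real, norm_smul, norm_smul, mul_pow, mul_pow,
    Real.norm_eq_abs, Real.norm_eq_abs, sq_abs, sq_abs, hx1, hLn, h3, real_inner_smul_left,
    real_inner_smul_right]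
  ring

theorem gauF_grad_eq (p : E3 → ℝ) (η : ℝ) (hp : Gau p η) (h1 : η ≤ 1 / 4) (x : E3)
    (hx1 : ‖x‖ = 1) (hx : DifferentiableAt ℝ p x) :
    ‖fderiv ℝ p x‖ ^ 2 = p x ^ 6 * ((1 + 2 * FF p x) ^ 2 + ‖fderiv ℝ (FF p) x‖ ^ 2) := by
  have hx0 : x ≠ 0 := by
    intro h
    rw [h, norm_zero] at hx1
    exact zero_ne_one hx1
  have hpx : 0 < p x := gauA_pos p η hp h1 x hx0
  rw [(gauF_fderiv_eq p η hp h1 x hx1 hx).fderiv, gauF_norm_sq x hx1, gauA_euler p η hp x hx,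
    gauF_eq p η hp h1 x hx1]
  field_simp
  ring

theorem gauF_diff_of (p : E3 → ℝ) (η : ℝ) (hp : Gau p η) (h1 : η ≤ 1 / 4)
    (x : E3) (hx0 : x ≠ 0) (hx : DifferentiableAt ℝ (FF p) x) : DifferentiableAt ℝ p x := by
  have hev : p =ᶠ[𝓝 x] fun y => ‖y‖ / √(1 + 2 * FF p y) := by
    filter_upwards [isOpen_ne.mem_nhds hx0] with y hy
    have hy0 : 0 < p y := gauA_pos p η hp h1 y hy
    have hn : 0 < ‖y‖ := norm_pos_iff.2 hy
    have e1 : 1 + 2 * FF p y = (‖y‖ / p y) ^ 2 := by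
      unfold FF; ring
    rw [e1, Real.sqrt_sq (by positivity)]
    field_simp
  refine DifferentiableAt.congr_of_eventuallyEq ?_ hev
  have hp0 : 0 < p x := gauA_pos p η hp h1 x hx0
  have hn : 0 < ‖x‖ := norm_pos_iff.2 hx0
  have e1 : 1 + 2 * FF p x = (‖x‖ / p x) ^ 2 := by
    unfold FF; ring
  have hpos : 0 < 1 + 2 * FF p x := by rw [e1]; positivity
  have e2 : DifferentiableAt ℝ (fun y => 1 + 2 * FF p y) x :=
    (hx.const_mul (2 : ℝ)).const_add (1 : ℝ)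
  have e3 : DifferentiableAt ℝ (fun y => √(1 + 2 * FF p y)) x := e2.sqrt hpos.ne'
  have e4 : DifferentiableAt ℝ (fun y : E3 => ‖y‖) x :=
    (differentiableAt_id (𝕜 := ℝ) (x := x)).norm ℝ hx0
  have e5 : DifferentiableAt ℝ (fun y => (√(1 + 2 * FF p y))⁻¹) x :=
    DifferentiableAt.inv e3 (Real.sqrt_pos.2 hpos).ne'
  have e6 : DifferentiableAt ℝ (fun y : E3 => ‖y‖ * (√(1 + 2 * FF p y))⁻¹) x := e4.mul e5
  simpa only [div_eq_mul_inv] using e6

theorem gauF_grad_bound (p : E3 → ℝ) (η : ℝ) (hp : Gau p η) (h0 : 0 ≤ η) (h1 : η ≤ 1 / 4)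
    (x : E3) (hx1 : ‖x‖ = 1) : ‖fderiv ℝ (FF p) x‖ ≤ 5 * √η := by
  have hx0 : x ≠ 0 := by
    intro h
    rw [h, norm_zero] at hx1
    exact zero_ne_one hx1
  by_cases hx : DifferentiableAt ℝ p x
  · obtain ⟨a1, a2⟩ := gauF_bds p η hp x hx1
    have hpx : 3 / 4 ≤ p x := by linarith
    have hN := gauA_norm p η hp h0 x
    have hE := gauF_grad_eq p η hp h1 x hx1 hx
    rw [gauF_eq p η hp h1 x hx1] at hE
    set q := p x with hq
    have hq0 : 0 < q := by linarith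
    set G := ‖fderiv ℝ (FF p) x‖ with hG
    have hG0 : 0 ≤ G := norm_nonneg _
    have h6 : q ^ 6 * ((q ^ 2)⁻¹ ^ 2 + G ^ 2) = q ^ 2 + q ^ 6 * G ^ 2 := by
      field_simp
    rw [h6] at hE
    have h7 : ‖fderiv ℝ p x‖ ^ 2 ≤ (1 + η) ^ 2 := by
      exact pow_le_pow_left₀ (norm_nonneg _) hN 2
    have h8 : (1 - η) ^ 2 ≤ q ^ 2 := pow_le_pow_left₀ (by linarith) a1 2
    have h9 : q ^ 6 * G ^ 2 ≤ 4 * η := by nlinarith
    have h10 : (3 / 4 : ℝ) ^ 6 ≤ q ^ 6 := pow_le_pow_left₀ (by norm_num) hpx 6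
    have h11 : (3 / 4 : ℝ) ^ 6 * G ^ 2 ≤ 4 * η :=
      (mul_le_mul_of_nonneg_right h10 (sq_nonneg G)).trans h9
    have h12 : G ^ 2 ≤ 25 * η := by nlinarith
    have h13 : G ^ 2 ≤ (5 * √η) ^ 2 := by
      rw [mul_pow, Real.sq_sqrt h0]; linarith
    exact (sq_le_sq₀ hG0 (by positivity)).1 h13
  · have : ¬ DifferentiableAt ℝ (FF p) x := fun h => hx (gauF_diff_of p η hp h1 x hx0 h)
    rw [fderiv_zero_of_not_differentiableAt this, norm_zero]
    positivity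

end Pool.Agent.Lib_helper15.STE
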