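import Pool.Agent.Lib_helper15.STE.DefsG

/-! # STE, block gauL : small Lipschitz constant on the sphere -/

open MeasureTheory Filter Topology
open scoped InnerProductSpace

namespace Pool.Agent.Lib_helper15.STE

theorem gauL_near_aux (η : ℝ) (h0 : 0 ≤ η) (h1 : η ≤ 1 / 4) (x : E3) (hx1 : ‖x‖ = 1)
    (L : E3 →L[ℝ] ℝ) (hL : ‖L‖ ≤ 1 + η) (hLx : 1 - η ≤ L x) (v : E3) :
    |L v - ⟪x, v⟫_ℝ| ≤ 5 / 2 * √η * ‖v‖ := by
  set g : E3 := (InnerProductSpace.toDual ℝ E3).symm L with hg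
  have hgv : ∀ w, ⟪g, w⟫_ℝ = L w := fun w => by
    rw [hg]; exact InnerProductSpace.toDual_symm_apply
  have hgn : ‖g‖ = ‖L‖ := by rw [hg]; exact LinearIsometryEquiv.norm_map _ _
  have h2 : ‖g - x‖ ^ 2 ≤ 17 / 4 * η := by
    rw [norm_sub_sq_real, hgv, hx1, hgn]
    have h3 : ‖L‖ ^ 2 ≤ (1 + η) ^ 2 := by
      have := norm_nonneg L
      nlinarith
    nlinarith
  have h4 : ‖g - x‖ ≤ 5 / 2 * √η := by
    have h5 : (5 / 2 * √η) ^ 2 = 25 / 4 * η := by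
      rw [mul_pow, Real.sq_sqrt h0]; norm_num
    have h6 : ‖g - x‖ ^ 2 ≤ (5 / 2 * √η) ^ 2 := by rw [h5]; nlinarith
    exact (pow_le_pow_iff_left₀ (norm_nonneg _) (by positivity) two_ne_zero).1 h6
  have h7 : L v - ⟪x, v⟫_ℝ = ⟪g - x, v⟫_ℝ := by rw [inner_sub_left, hgv]
  rw [h7]
  exact (abs_real_inner_le_norm _ _).trans (mul_le_mul_of_nonneg_right h4 (norm_nonneg v))

/-- a supporting functional at `z` -/
theorem gauL_supp (p : E3 → ℝ) (η : ℝ) (hp : Gau p η) (h0 : 0 ≤ η) (z : E3) (hz : z ≠ 0) :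
    ∃ L : E3 →L[ℝ] ℝ, (∀ v, L v ≤ p v) ∧ L z = p z ∧ ‖L‖ ≤ 1 + η := by
  obtain ⟨g, hg1, hg2⟩ := exists_extension_of_le_sublinear
    (LinearPMap.mkSpanSingleton z (p z) hz) p (fun c hc x => hp.hom x c hc.le) hp.sub (by
      rintro ⟨x, hx⟩
      have hx' : x ∈ Submodule.span ℝ {z} := by simpa using hx
      obtain ⟨c, rfl⟩ := Submodule.mem_span_singleton.1 hx'
      rw [LinearPMap.mkSpanSingleton'_apply, smul_eq_mul, RingHom.id_apply]
      show c * p z ≤ p (c • z)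
      rcases le_total 0 c with hc | hc
      · rw [hp.hom z c hc]
      · have h2 := hp.hom z (-c) (by linarith)
        have h3 := hp.sub (c • z) ((-c) • z)
        rw [← add_smul, add_neg_cancel, zero_smul] at h3
        have h4 := hp.hom z 0 le_rfl
        rw [zero_smul, zero_mul] at h4
        linarith)
  have hgz : g z = p z := by
    have h2 := hg1 ⟨z, by
      show z ∈ Submodule.span ℝ {z}
      exact Submodule.mem_span_singleton_self z⟩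
    have h3 : (LinearPMap.mkSpanSingleton z (p z) hz : E3 →ₗ.[ℝ] ℝ) ⟨z, by
        show z ∈ Submodule.span ℝ {z}
        exact Submodule.mem_span_singleton_self z⟩ = p z :=
      LinearPMap.mkSpanSingleton_apply ℝ ℝ hz (p z)
    rw [← h3]
    exact h2
  have hb : ∀ v, ‖g v‖ ≤ (1 + η) * ‖v‖ := by
    intro v
    rw [Real.norm_eq_abs, abs_le]
    have h2 := (hg2 v).trans (hp.up v)
    have h3 := (hg2 (-v)).trans (hp.up (-v))
    rw [map_neg, norm_neg] at h3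
    constructor <;> linarith
  exact ⟨g.mkContinuous (1 + η) hb, fun v => hg2 v, hgz,
    g.mkContinuous_norm_le (by linarith) hb⟩

theorem gauL_norm (z v : E3) (hz : 0 < ‖z‖) :
    ‖z + v‖ ≤ ‖z‖ + ⟪‖z‖⁻¹ • z, v⟫_ℝ + ‖v‖ ^ 2 / (2 * ‖z‖) := by
  have h1 := norm_add_sq_real z v
  have h2 : 0 ≤ (‖z + v‖ - ‖z‖) ^ 2 := sq_nonneg _
  rw [real_inner_smul_left]
  have h3 : ‖z‖ + ‖z‖⁻¹ * ⟪z, v⟫_ℝ + ‖v‖ ^ 2 / (2 * ‖z‖) =
      (2 * ‖z‖ ^ 2 + 2 * ⟪z, v⟫_ℝ + ‖v‖ ^ 2) / (2 * ‖z‖) := by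
    field_simp
    try ring
  rw [h3, le_div_iff₀ (by positivity)]
  nlinarith

theorem gauL_loc (p : E3 → ℝ) (η : ℝ) (hp : Gau p η) (h0 : 0 ≤ η) (h1 : η ≤ 1 / 4) (z w : E3)
    (hz : 1 / 2 ≤ ‖z‖) :
    -(5 / 2 * √η * ‖w - z‖ + ‖w - z‖ ^ 2) ≤ (p w - ‖w‖) - (p z - ‖z‖) := by
  have hz0 : 0 < ‖z‖ := by linarith
  obtain ⟨L, hL1, hL2, hL3⟩ := gauL_supp p η hp h0 z (norm_pos_iff.1 hz0)
  have e1 : ‖‖z‖⁻¹ • z‖ = 1 := by
    rw [norm_smul, norm_inv, norm_norm, inv_mul_cancel₀ hz0.ne']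
  have e2 : 1 - η ≤ L (‖z‖⁻¹ • z) := by
    rw [map_smul, hL2, smul_eq_mul, ← div_eq_inv_mul, le_div_iff₀ hz0]
    exact hp.lo z
  have h2 := gauL_near_aux η h0 h1 (‖z‖⁻¹ • z) e1 L hL3 e2 (w - z)
  have h3 := gauL_norm z (w - z) hz0
  have h4 := hL1 w
  have h5 : L w = L z + L (w - z) := by rw [← map_add]; congr 1; abel
  have h6 : ‖w - z‖ ^ 2 / (2 * ‖z‖) ≤ ‖w - z‖ ^ 2 := by
    apply div_le_self (sq_nonneg _)
    linarith
  rw [add_sub_cancel] at h3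
  have h7 := (abs_le.1 h2).1
  linarith

theorem gauL_loc2 (p : E3 → ℝ) (η : ℝ) (hp : Gau p η) (h0 : 0 ≤ η) (h1 : η ≤ 1 / 4) (z w : E3)
    (hz : 1 / 2 ≤ ‖z‖) (hw : 1 / 2 ≤ ‖w‖) :
    |(p w - ‖w‖) - (p z - ‖z‖)| ≤ 5 / 2 * √η * ‖w - z‖ + ‖w - z‖ ^ 2 := by
  have h2 := gauL_loc p η hp h0 h1 z w hz
  have h3 := gauL_loc p η hp h0 h1 w z hw
  rw [norm_sub_rev z w] at h3
  rw [abs_le]
  constructor <;> linarith

theorem gauL_sub (p : E3 → ℝ) (η : ℝ) (hp : Gau p η) (h0 : 0 ≤ η) (h1 : η ≤ 1 / 4) (x y : E3)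
    (hx : ‖x‖ = 1) (hy : ‖y‖ = 1) (hd : ‖y - x‖ ≤ 1) :
    |(p y - ‖y‖) - (p x - ‖x‖)| ≤ 5 / 2 * √η * ‖y - x‖ := by
  have key : ∀ n : ℕ, |(p y - ‖y‖) - (p x - ‖x‖)| ≤
      5 / 2 * √η * ‖y - x‖ + ‖y - x‖ ^ 2 * (1 / ((n : ℝ) + 1)) := by
    intro n
    have hn : (0 : ℝ) < (n : ℝ) + 1 := by positivity
    set z : ℕ → E3 := fun k => x + ((k : ℝ) / ((n : ℝ) + 1)) • (y - x) with hzdef
    have hz : ∀ k ≤ n + 1, 1 / 2 ≤ ‖z k‖ := by
      intro k hk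
      have hk' : (k : ℝ) ≤ (n : ℝ) + 1 := by exact_mod_cast hk
      set s : ℝ := (k : ℝ) / ((n : ℝ) + 1) with hs
      have hs0 : 0 ≤ s := by positivity
      have hs1 : s ≤ 1 := by rw [hs, div_le_one hn]; exact hk'
      have h2 : ‖x‖ ≤ ‖z k‖ + s * ‖y - x‖ := by
        have e : x = z k - s • (y - x) := by rw [hzdef]; simp only [← hs]; abel
        calc ‖x‖ = ‖z k - s • (y - x)‖ := by rw [← e]
          _ ≤ ‖z k‖ + ‖s • (y - x)‖ := norm_sub_le _ _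
          _ = ‖z k‖ + s * ‖y - x‖ := by
            rw [norm_smul, Real.norm_eq_abs, abs_of_nonneg hs0]
      have h3 : ‖y‖ ≤ ‖z k‖ + (1 - s) * ‖y - x‖ := by
        have e : y = z k + (1 - s) • (y - x) := by
          rw [hzdef]; simp only [← hs]; rw [sub_smul, one_smul]; abel
        calc ‖y‖ = ‖z k + (1 - s) • (y - x)‖ := by rw [← e]
          _ ≤ ‖z k‖ + ‖(1 - s) • (y - x)‖ := norm_add_le _ _
          _ = ‖z k‖ + (1 - s) * ‖y - x‖ := by
            rw [norm_smul, Real.norm_eq_abs, abs_of_nonneg (by linarith)]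
      rw [hx] at h2
      rw [hy] at h3
      linarith
    have hstep : ∀ k, z (k + 1) - z k = (1 / ((n : ℝ) + 1)) • (y - x) := by
      intro k
      rw [hzdef]
      simp only
      rw [add_sub_add_left_eq_sub, ← sub_smul]
      congr 1
      push_cast
      field_simp
      try ring
    have htel := Finset.sum_range_sub (fun k => p (z k) - ‖z k‖) (n + 1)
    have e0 : z 0 = x := by rw [hzdef]; simp
    have e1 : z (n + 1) = y := by
      rw [hzdef]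
      simp only
      push_cast
      rw [div_self hn.ne', one_smul]
      abel
    simp only [e0, e1] at htel
    rw [← htel]
    refine (Finset.abs_sum_le_sum_abs _ _).trans ?_
    have hb : ∀ k ∈ Finset.range (n + 1),
        |(p (z (k + 1)) - ‖z (k + 1)‖) - (p (z k) - ‖z k‖)| ≤
          5 / 2 * √η * (1 / ((n : ℝ) + 1) * ‖y - x‖) + (1 / ((n : ℝ) + 1) * ‖y - x‖) ^ 2 := by
      intro k hk
      have hk' := Finset.mem_range.1 hk
      have h2 := gauL_loc2 p η hp h0 h1 (z k) (z (k + 1)) (hz k (by omega)) (hz (k + 1) (by omega))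
      have hpos : (0 : ℝ) ≤ 1 / ((n : ℝ) + 1) := by positivity
      rw [hstep, norm_smul, Real.norm_eq_abs (1 / ((n : ℝ) + 1)), abs_of_nonneg hpos] at h2
      exact h2
    refine (Finset.sum_le_sum hb).trans ?_
    rw [Finset.sum_const, Finset.card_range, nsmul_eq_mul]
    push_cast
    apply le_of_eq
    field_simp
  have hlim : Tendsto (fun n : ℕ => 5 / 2 * √η * ‖y - x‖ + ‖y - x‖ ^ 2 * (1 / ((n : ℝ) + 1)))
      atTop (𝓝 (5 / 2 * √η * ‖y - x‖ + ‖y - x‖ ^ 2 * 0)) :=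
    (tendsto_one_div_add_atTop_nhds_zero_nat.const_mul _).const_add _
  rw [mul_zero, add_zero] at hlim
  exact ge_of_tendsto' hlim key

theorem gauL_p (p : E3 → ℝ) (η : ℝ) (hp : Gau p η) (h0 : 0 ≤ η) (h1 : η ≤ 1 / 4) (x y : E3)
    (hx : ‖x‖ = 1) (hy : ‖y‖ = 1) : |p x - p y| ≤ 5 / 2 * √η * ‖x - y‖ := by
  have hs0 : 0 ≤ √η := Real.sqrt_nonneg η
  rcases le_total ‖x - y‖ 1 with hd | hd
  · have h2 := gauL_sub p η hp h0 h1 y x hy hx hd
    rw [hx, hy] at h2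
    have e : p x - 1 - (p y - 1) = p x - p y := by ring
    rwa [e] at h2
  · have a1 := hp.lo x
    have a2 := hp.up x
    have a3 := hp.lo y
    have a4 := hp.up y
    rw [hx] at a1 a2
    rw [hy] at a3 a4
    have h3 : |p x - p y| ≤ 2 * η := by
      rw [abs_le]
      constructor <;> linarith
    have h4 : √η ≤ 1 / 2 := by
      rw [Real.sqrt_le_left (by norm_num)]
      linarith
    have h5 : 2 * η ≤ √η := by
      have := Real.mul_self_sqrt h0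
      nlinarith
    have h6 : √η * 1 ≤ √η * ‖x - y‖ := mul_le_mul_of_nonneg_left hd hs0
    nlinarith

theorem gauL_lip (p : E3 → ℝ) (η : ℝ) (hp : Gau p η) (h0 : 0 ≤ η) (h1 : η ≤ 1 / 4) (x y : E3)
    (hx : ‖x‖ = 1) (hy : ‖y‖ = 1) : |FF p x - FF p y| ≤ 20 * √η * ‖x - y‖ := by
  have h2 := gauL_p p η hp h0 h1 x y hx hy
  have a1 := hp.lo x
  have a3 := hp.lo y
  rw [hx] at a1
  rw [hy] at a3
  have hpx : 3 / 4 ≤ p x := by linarith
  have hpy : 3 / 4 ≤ p y := by linarith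
  have hx0 : 0 < p x := by linarith
  have hy0 : 0 < p y := by linarith
  have e : FF p x - FF p y =
      (p y - p x) * ((1 / p x) * (1 / p y) ^ 2 + (1 / p x) ^ 2 * (1 / p y)) / 2 := by
    unfold FF
    rw [hx, hy]
    field_simp
    ring
  have b1 : 1 / p x ≤ 4 / 3 := by
    rw [div_le_iff₀ hx0]; linarith
  have b2 : 1 / p y ≤ 4 / 3 := by
    rw [div_le_iff₀ hy0]; linarith
  have b3 : 0 < 1 / p x := by positivity
  have b4 : 0 < 1 / p y := by positivity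
  have c1 : (1 / p y) ^ 2 ≤ 16 / 9 := by nlinarith
  have c2 : (1 / p x) ^ 2 ≤ 16 / 9 := by nlinarith
  have c3 : (1 / p x) * (1 / p y) ^ 2 ≤ 64 / 27 := by
    have := mul_le_mul b1 c1 (by positivity) (by norm_num)
    linarith
  have c4 : (1 / p x) ^ 2 * (1 / p y) ≤ 64 / 27 := by
    have := mul_le_mul c2 b2 (by positivity) (by norm_num)
    linarith
  have c5 : 0 ≤ (1 / p x) * (1 / p y) ^ 2 + (1 / p x) ^ 2 * (1 / p y) := by positivity
  rw [e, abs_div, abs_mul, abs_of_nonneg c5, abs_of_pos (by norm_num : (0 : ℝ) < 2),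
    abs_sub_comm (p y) (p x)]
  have h3 : |p x - p y| * ((1 / p x) * (1 / p y) ^ 2 + (1 / p x) ^ 2 * (1 / p y)) ≤
      (5 / 2 * √η * ‖x - y‖) * (128 / 27) :=
    mul_le_mul h2 (by linarith) c5 (by positivity)
  have h4 : 0 ≤ √η * ‖x - y‖ := by positivity
  rw [div_le_iff₀ (by norm_num)]
  nlinarith

end Pool.Agent.Lib_helper15.STE
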