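import Pool.Agent.Lib_helper15.STE.DefsG
import Pool.Agent.Lib_helper15.STE.B.rad
import Pool.Agent.Lib_helper15.STE.B.gauF
import Pool.Agent.Lib_helper15.STE.B.sigB
import Pool.Agent.Lib_helper15.STE.B.sigC

/-! # STE, block nls : differentiability on almost every section -/

open MeasureTheory Filter Topology
open scoped InnerProductSpace

namespace Pool.Agent.Lib_helper15.STE

/-- a set of the plane whose indicator has iterated integral zero has null sections -/
theorem nls_gen (A : Set (ℝ × ℝ)) (hA : MeasurableSet A) (μ ν : Measure ℝ) [SFinite μ] [SFinite ν]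
    (h : ∫⁻ τ, ∫⁻ φ, A.indicator (fun _ => (1 : ENNReal)) (τ, φ) ∂ν ∂μ = 0) :
    ∀ᵐ φ ∂ν, ∀ᵐ τ ∂μ, (τ, φ) ∉ A := by
  have hm : Measurable (A.indicator (fun _ => (1 : ENNReal))) := measurable_const.indicator hA
  rw [← lintegral_prod _ hm.aemeasurable, lintegral_indicator hA, setLIntegral_one] at h
  have h2 : ∀ᵐ z ∂(μ.prod ν), z ∉ A := by
    rw [ae_iff]
    simpa using h
  have h3 := Measure.ae_ae_of_ae_prod h2
  exact (Measure.ae_ae_comm (p := fun τ φ => (τ, φ) ∉ A) hA.compl).1 h3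

/-- for almost every longitude the function is differentiable at almost every height -/
theorem nls_fub (p : E3 → ℝ) (η : ℝ) (hp : Gau p η) (h0 : 0 ≤ η) (h1 : η ≤ 1 / 4) :
    ∀ᵐ φ ∂(volume.restrict (Set.Ioo (-Real.pi) Real.pi)),
      ∀ᵐ τ ∂(volume.restrict (Set.Ioo (-1:ℝ) 1)), DifferentiableAt ℝ p (pt τ φ) := by
  have hDm : MeasurableSet {x : E3 | DifferentiableAt ℝ p x}ᶜ :=
    (measurableSet_of_differentiableAt ℝ p).compl
  obtain ⟨D, hD⟩ : ∃ D : Set E3, D = {x : E3 | DifferentiableAt ℝ p x}ᶜ := ⟨_, rfl⟩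
  rw [← hD] at hDm
  have hf : Measurable (D.indicator (fun _ => (1 : ENNReal))) := measurable_const.indicator hDm
  have h2 := sigB_lintegral _ hf
  have h3 : ∫⁻ x, D.indicator (fun _ => (1 : ENNReal)) x ∂sig = 0 := by
    rw [lintegral_indicator hDm, setLIntegral_one]
    have := (gauF_diff p η hp h0 h1).2
    rw [ae_iff] at this
    rw [hD]
    exact this
  rw [h3] at h2
  have h4 : ENNReal.ofReal ((4 * Real.pi)⁻¹) ≠ 0 := by
    have : 0 < (4 * Real.pi)⁻¹ := by positivity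
    simpa using this
  have h5 := (mul_eq_zero.1 h2.symm).resolve_left h4
  have hcont : Continuous (fun z : ℝ × ℝ => pt z.1 z.2) := sigC_pt_cont
  have hA : MeasurableSet {z : ℝ × ℝ | pt z.1 z.2 ∈ D} := hcont.measurable hDm
  have h6 := nls_gen {z : ℝ × ℝ | pt z.1 z.2 ∈ D} hA (volume.restrict (Set.Ioo (-1:ℝ) 1))
    (volume.restrict (Set.Ioo (-Real.pi) Real.pi)) h5
  filter_upwards [h6] with φ hφ
  filter_upwards [hφ] with τ hτ
  by_contra hcon
  refine hτ ?_
  show pt τ φ ∈ D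
  rw [hD]
  exact hcon

/-- the preimage of a null set under a map with Lipschitz inverse is null -/
theorem nls_null (S : ℝ → ℝ) (a b : ℝ) (h : ∀ t ∈ Set.Icc a b, ∀ t' ∈ Set.Icc a b,
    |t - t'| ≤ 2 * |S t - S t'|) (N : Set ℝ) (hN : volume N = 0) :
    volume {t | t ∈ Set.Icc a b ∧ S t ∈ N} = 0 := by
  have hanti : AntilipschitzWith 2 (fun t : Set.Icc a b => S t) := by
    refine AntilipschitzWith.of_le_mul_dist ?_
    intro x y
    have := h x x.2 y y.2
    rw [Subtype.dist_eq, Real.dist_eq, Real.dist_eq]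
    simpa using this
  have h1 := hanti.hausdorffMeasure_preimage_le (d := 1) zero_le_one N
  rw [hausdorffMeasure_real, hN, mul_zero] at h1
  have h2 := (isometry_subtype_coe (s := Set.Icc a b)).hausdorffMeasure_image (d := 1)
    (Or.inl zero_le_one) ((fun t : Set.Icc a b => S t) ⁻¹' N)
  rw [hausdorffMeasure_real] at h2
  have h3 : {t | t ∈ Set.Icc a b ∧ S t ∈ N} =
      (Subtype.val : Set.Icc a b → ℝ) '' ((fun t : Set.Icc a b => S t) ⁻¹' N) := by
    ext t
    constructor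
    · rintro ⟨h, h'⟩
      exact ⟨⟨t, h⟩, h', rfl⟩
    · rintro ⟨⟨t', h⟩, h', rfl⟩
      exact ⟨h, h'⟩
  rw [h3]
  exact le_antisymm (h2.trans_le h1) (by positivity)

/-- the directions of the boundary points depend measurably on height and longitude -/
theorem nls_meas (p : E3 → ℝ) (η κ : ℝ) (hp : Gau p η) (h0 : 0 ≤ η) (hκ : 0 < κ) (hκ1 : κ < 1)
    (h1 : η ≤ κ / 4) (D : Set E3) (hD : MeasurableSet D) :
    MeasurableSet {z : ℝ × ℝ | z.1 ∈ Set.Icc (-1 + κ) (1 - κ) → pt (Sp p z.1 z.2) z.2 ∈ D} := by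
  have hS : ContinuousOn (fun z : ℝ × ℝ => Sp p z.1 z.2) {z | |z.1| ≤ 1 - κ} := by
    unfold Sp
    refine ContinuousOn.div continuous_fst.continuousOn ?_ ?_
    · exact (((rad_cont p η κ hp h0 hκ hκ1 h1).pow 2).add
        (continuous_fst.continuousOn.pow 2)).sqrt
    · intro z hz
      have hb := rad_bounds p η κ hp h0 hκ hκ1 h1 z.1 z.2 hz
      have : 0 < Rr p z.1 z.2 ^ 2 + z.1 ^ 2 := by
        have := hb.1
        positivity
      exact (Real.sqrt_pos.2 this).ne'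
  have hg : Continuous (fun z : ℝ × ℝ => ((max (-1 + κ) (min z.1 (1 - κ)) : ℝ), (z.2 : ℝ))) := by
    fun_prop
  have hgs : ∀ z : ℝ × ℝ, ((max (-1 + κ) (min z.1 (1 - κ)) : ℝ), (z.2 : ℝ)) ∈
      {z : ℝ × ℝ | |z.1| ≤ 1 - κ} := by
    intro z
    simp only [Set.mem_ofPred_eq, abs_le]
    constructor
    · linarith [le_max_left (-1 + κ) (min z.1 (1 - κ))]
    · exact max_le (by linarith) (min_le_right _ _)
  have hSc := hS.comp_continuous hg hgs
  have hcont : Continuous (fun z : ℝ × ℝ => pt z.1 z.2) := sigC_pt_cont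
  have hP : Continuous (fun z : ℝ × ℝ => pt (Sp p (max (-1 + κ) (min z.1 (1 - κ))) z.2) z.2) :=
    hcont.comp (hSc.prodMk continuous_snd)
  have h2 : MeasurableSet {z : ℝ × ℝ |
      pt (Sp p (max (-1 + κ) (min z.1 (1 - κ))) z.2) z.2 ∈ D} := hP.measurable hD
  have h3 : MeasurableSet {z : ℝ × ℝ | z.1 ∈ Set.Icc (-1 + κ) (1 - κ)} :=
    measurable_fst measurableSet_Icc
  have h4 : {z : ℝ × ℝ | z.1 ∈ Set.Icc (-1 + κ) (1 - κ) → pt (Sp p z.1 z.2) z.2 ∈ D} =
      {z : ℝ × ℝ | z.1 ∈ Set.Icc (-1 + κ) (1 - κ)}ᶜ ∪ {z : ℝ × ℝ |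
      pt (Sp p (max (-1 + κ) (min z.1 (1 - κ))) z.2) z.2 ∈ D} := by
    ext z
    by_cases hz : z.1 ∈ Set.Icc (-1 + κ) (1 - κ)
    · have : max (-1 + κ) (min z.1 (1 - κ)) = z.1 := by
        rw [min_eq_left hz.2, max_eq_right hz.1]
      constructor
      · intro h
        right
        have h' := h hz
        show pt (Sp p (max (-1 + κ) (min z.1 (1 - κ))) z.2) z.2 ∈ D
        rw [this]
        exact h'
      · intro h _
        rcases h with h | h
        · exact absurd hz h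
        · have h' : pt (Sp p (max (-1 + κ) (min z.1 (1 - κ))) z.2) z.2 ∈ D := h
          rw [this] at h'
          exact h'
    · constructor
      · intro _
        left
        exact hz
      · intro _ h
        exact absurd h hz
  rw [h4]
  exact h3.compl.union h2

theorem nls_main (p : E3 → ℝ) (η κ : ℝ) (hp : Gau p η) (h0 : 0 ≤ η) (hκ : 0 < κ) (hκ1 : κ < 1)
    (h1 : η ≤ κ / 4)
    (h2 : ∀ φ t t' : ℝ, |t| ≤ 1 - κ → |t'| ≤ 1 - κ → |t - t'| ≤ 2 * |Sp p t φ - Sp p t' φ|) :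
    ∀ᵐ t ∂(volume.restrict (Set.Icc (-1 + κ) (1 - κ))),
      ∀ᵐ φ ∂(volume.restrict (Set.Ioo (-Real.pi) Real.pi)),
        DifferentiableAt ℝ p (pt (Sp p t φ) φ) := by
  have h14 : η ≤ 1 / 4 := by linarith
  have hDm : MeasurableSet {x : E3 | DifferentiableAt ℝ p x} :=
    measurableSet_of_differentiableAt ℝ p
  have hm := nls_meas p η κ hp h0 hκ hκ1 h1 _ hDm
  have key : ∀ᵐ t ∂(volume.restrict (Set.Icc (-1 + κ) (1 - κ))),
      ∀ᵐ φ ∂(volume.restrict (Set.Ioo (-Real.pi) Real.pi)),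
        t ∈ Set.Icc (-1 + κ) (1 - κ) → pt (Sp p t φ) φ ∈ {x : E3 | DifferentiableAt ℝ p x} := by
    rw [Measure.ae_ae_comm (p := fun t φ => t ∈ Set.Icc (-1 + κ) (1 - κ) →
      pt (Sp p t φ) φ ∈ {x : E3 | DifferentiableAt ℝ p x}) hm]
    filter_upwards [nls_fub p η hp h0 h14] with φ hφ
    have hN : volume {τ : ℝ | τ ∈ Set.Ioo (-1:ℝ) 1 ∧ ¬ DifferentiableAt ℝ p (pt τ φ)} = 0 := by
      rw [ae_restrict_iff' measurableSet_Ioo, ae_iff] at hφ
      convert hφ using 2
      ext τ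
      simp [and_assoc]
    have hB := nls_null (fun t => Sp p t φ) (-1 + κ) (1 - κ) (fun t ht t' ht' =>
      h2 φ t t' (abs_le.2 ⟨by linarith [ht.1], ht.2⟩) (abs_le.2 ⟨by linarith [ht'.1], ht'.2⟩))
      _ hN
    refine ae_restrict_of_ae ?_
    rw [ae_iff]
    refine measure_mono_null ?_ hB
    intro t ht
    simp only [Set.mem_ofPred_eq, Classical.not_imp] at ht ⊢
    refine ⟨ht.1, ?_, ht.2⟩
    have := (rad_dir p η κ hp h0 hκ hκ1 h1 t φ (abs_le.2 ⟨by linarith [ht.1.1], ht.1.2⟩)).1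
    exact abs_lt.1 this
  filter_upwards [key, ae_restrict_mem measurableSet_Icc] with t ht ht'
  filter_upwards [ht] with φ hφ
  exact hφ ht'

end Pool.Agent.Lib_helper15.STE
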