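import Pool.Agent.Lib_helper15.STE.DefsG

/-! # STE, block nrmA : gauge function of a convex body -/

open MeasureTheory Filter Topology
open scoped InnerProductSpace

namespace Pool.Agent.Lib_helper15.STE

theorem nrmA_main (K : Set E3) (hK : Convex ℝ K) (hKc : IsCompact K) (c : E3) (r η : ℝ)
    (hr : 0 < r) (h0 : 0 ≤ η) (h1 : η ≤ 1 / 4) (hi : Metric.closedBall c ((1 - η) * r) ⊆ K)
    (ho : K ⊆ Metric.closedBall c ((1 + η) * r)) :
    ∃ p : E3 → ℝ, Gau p (2 * η) ∧ K = (fun x => c + r • x) '' Kp p := by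
  have hcont : Continuous (fun x : E3 => c + r • x) := by fun_prop
  set S : Set E3 := (fun x : E3 => c + r • x) ⁻¹' K with hS
  have hSmem : ∀ x : E3, x ∈ S ↔ c + r • x ∈ K := fun x => Iff.rfl
  have hScl : IsClosed S := hKc.isClosed.preimage hcont
  have hSconv : Convex ℝ S := by
    intro x hx y hy a b ha hb hab
    rw [hSmem] at hx hy ⊢
    have h := hK hx hy ha hb hab
    have he : a • (c + r • x) + b • (c + r • y) = c + r • (a • x + b • y) := by
      have : c = (a + b) • c := by rw [hab, one_smul]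
      calc a • (c + r • x) + b • (c + r • y)
          = (a + b) • c + r • (a • x + b • y) := by module
        _ = c + r • (a • x + b • y) := by rw [hab, one_smul]
    rwa [he] at h
  have hin : Metric.closedBall (0 : E3) (1 - η) ⊆ S := by
    intro x hx
    rw [hSmem]
    apply hi
    rw [mem_closedBall_zero_iff] at hx
    rw [mem_closedBall_iff_norm, add_sub_cancel_left, norm_smul, Real.norm_eq_abs, abs_of_pos hr,
      mul_comm]
    exact mul_le_mul_of_nonneg_right hx hr.le
  have hout : S ⊆ Metric.closedBall (0 : E3) (1 + η) := by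
    intro x hx
    have h := ho ((hSmem x).1 hx)
    rw [mem_closedBall_iff_norm, add_sub_cancel_left, norm_smul, Real.norm_eq_abs, abs_of_pos hr,
      mul_comm] at h
    rw [mem_closedBall_zero_iff]
    exact le_of_mul_le_mul_right h hr
  have hpos : 0 < 1 - η := by linarith
  have hnhds : S ∈ 𝓝 (0 : E3) :=
    mem_of_superset (Metric.closedBall_mem_nhds (0 : E3) hpos) hin
  have habs : Absorbent ℝ S := absorbent_nhds_zero hnhds
  have habs' : Absorbent ℝ (Metric.closedBall (0 : E3) (1 - η)) :=
    absorbent_nhds_zero (Metric.closedBall_mem_nhds (0 : E3) hpos)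
  refine ⟨gauge S, ⟨fun x y => gauge_add_le hSconv habs x y, ?_, ?_, ?_⟩, ?_⟩
  · intro x t ht
    rw [gauge_smul_of_nonneg ht, smul_eq_mul]
  · intro x
    have h := gauge_mono habs hout x
    rw [gauge_closedBall (by linarith : (0:ℝ) ≤ 1 + η)] at h
    refine le_trans ?_ h
    rw [le_div_iff₀ (by linarith : (0:ℝ) < 1 + η)]
    have hx := norm_nonneg x
    nlinarith [mul_nonneg h0 hx, mul_nonneg (mul_nonneg h0 h0) hx]
  · intro x
    have h := gauge_mono habs' hin x
    rw [gauge_closedBall (by linarith : (0:ℝ) ≤ 1 - η)] at h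
    refine le_trans h ?_
    rw [div_le_iff₀ hpos]
    have hx := norm_nonneg x
    have h2 : 0 ≤ η * (1 - 2 * η) := mul_nonneg h0 (by linarith)
    nlinarith [mul_nonneg h2 hx]
  · have hKp : Kp (gauge S) = S := by
      ext x
      rw [Kp, Set.mem_ofPred_eq, gauge_le_one_iff_mem_closure hSconv hnhds, hScl.closure_eq]
    rw [hKp, hS, Set.image_preimage_eq]
    intro y
    refine ⟨r⁻¹ • (y - c), ?_⟩
    simp only [smul_smul, mul_inv_cancel₀ hr.ne', one_smul, add_sub_cancel]

end Pool.Agent.Lib_helper15.STE
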