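import Pool.Agent.Lib_helper15.STE.DefsG
import Pool.Agent.Lib_helper15.STE.B.sigA
import Pool.Agent.Lib_helper15.STE.B.gauA
import Pool.Agent.Lib_helper15.STE.B.gauF

/-! # STE, block volK -/

open MeasureTheory Filter Topology
open scoped InnerProductSpace

namespace Pool.Agent.Lib_helper15.STE

theorem volK_cont (p : E3 → ℝ) (η : ℝ) (hp : Gau p η) (h0 : 0 ≤ η) (h1 : η ≤ 1 / 4) :
    Continuous p := (gauA_lip p η hp h0 h1).continuous

theorem volK_meas (p : E3 → ℝ) (η : ℝ) (hp : Gau p η) (h0 : 0 ≤ η) (h1 : η ≤ 1 / 4) :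
    MeasurableSet (Kp p) :=
  (isClosed_le (volK_cont p η hp h0 h1) continuous_const).measurableSet

theorem volK_inner (p : E3 → ℝ) (η : ℝ) (hp : Gau p η) (h1 : η ≤ 1 / 4)
    (k : ℕ) (g : E3 → ℝ) (hg0 : ∀ x, 0 ≤ g x)
    (hh : ∀ (x : E3) (r : ℝ), 0 < r → g (r • x) = r ^ k * g x) (u : E3) (hu : ‖u‖ = 1) :
    ∫⁻ r in Set.Ioi (0:ℝ), ENNReal.ofReal (r ^ 2) *
        (Kp p).indicator (fun x => ENNReal.ofReal (g x)) (r • u) =
      ENNReal.ofReal ((p u)⁻¹ ^ (3 + k) / (3 + k) * g u) := by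
  have hu0 : u ≠ 0 := by
    intro h
    rw [h, norm_zero] at hu
    exact one_ne_zero hu.symm
  have hpu : 0 < p u := gauA_pos p η hp h1 u hu0
  have hR : 0 < (p u)⁻¹ := inv_pos.mpr hpu
  have e1 : ∫⁻ r in Set.Ioi (0:ℝ), ENNReal.ofReal (r ^ 2) *
        (Kp p).indicator (fun x => ENNReal.ofReal (g x)) (r • u) =
      ∫⁻ r in Set.Ioi (0:ℝ), (Set.Ioc (0:ℝ) (p u)⁻¹).indicator
        (fun r => ENNReal.ofReal (r ^ (2 + k) * g u)) r := by
    apply setLIntegral_congr_fun measurableSet_Ioi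
    intro r hr
    have hr0 : 0 < r := hr
    have hiff : r • u ∈ Kp p ↔ r ∈ Set.Ioc (0:ℝ) (p u)⁻¹ := by
      show p (r • u) ≤ 1 ↔ _
      rw [hp.hom u r hr0.le, Set.mem_Ioc]
      constructor
      · intro h
        refine ⟨hr0, ?_⟩
        rw [← one_div, le_div_iff₀ hpu]
        exact h
      · intro h
        have := h.2
        rw [← one_div, le_div_iff₀ hpu] at this
        exact this
    show ENNReal.ofReal (r ^ 2) * (Kp p).indicator (fun x => ENNReal.ofReal (g x)) (r • u) =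
      (Set.Ioc (0:ℝ) (p u)⁻¹).indicator (fun r => ENNReal.ofReal (r ^ (2 + k) * g u)) r
    by_cases h : r • u ∈ Kp p
    · rw [Set.indicator_of_mem h, Set.indicator_of_mem (hiff.mp h), hh u r hr0,
        ← ENNReal.ofReal_mul (by positivity)]
      congr 1
      ring
    · rw [Set.indicator_of_notMem h, Set.indicator_of_notMem (fun h' => h (hiff.mpr h')),
        mul_zero]
  rw [e1, lintegral_indicator measurableSet_Ioc, Measure.restrict_restrict measurableSet_Ioc]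
  have e2 : Set.Ioc (0:ℝ) (p u)⁻¹ ∩ Set.Ioi 0 = Set.Ioc (0:ℝ) (p u)⁻¹ := by
    ext r
    simp only [Set.mem_inter_iff, Set.mem_Ioc, Set.mem_Ioi]
    tauto
  rw [e2]
  have hint : IntegrableOn (fun r : ℝ => r ^ (2 + k) * g u) (Set.Ioc (0:ℝ) (p u)⁻¹) := by
    have : Continuous (fun r : ℝ => r ^ (2 + k) * g u) := by fun_prop
    exact (this.integrableOn_Icc).mono_set Set.Ioc_subset_Icc_self
  rw [← ofReal_integral_eq_lintegral_ofReal hint]
  · congr 1
    rw [← intervalIntegral.integral_of_le hR.le, intervalIntegral.integral_mul_const, integral_pow]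
    have : (0:ℝ) ^ (2 + k + 1) = 0 := by
      apply zero_pow
      omega
    rw [this]
    push_cast
    have e3 : 3 + k = 2 + k + 1 := by omega
    rw [e3]
    ring
  · filter_upwards [ae_restrict_mem measurableSet_Ioc] with r hr
    have : 0 < r := hr.1
    show (0:ℝ) ≤ r ^ (2 + k) * g u
    exact mul_nonneg (by positivity) (hg0 u)

theorem volK_lower (p : E3 → ℝ) (η : ℝ) (hp : Gau p η) (h1 : η ≤ 1 / 4) (u : E3)
    (hu : ‖u‖ = 1) : 3 / 4 ≤ p u := by
  have := hp.lo u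
  rw [hu] at this
  linarith

theorem volK_inv_le (p : E3 → ℝ) (η : ℝ) (hp : Gau p η) (h1 : η ≤ 1 / 4) (u : E3)
    (hu : ‖u‖ = 1) : (p u)⁻¹ ≤ 4 / 3 := by
  have h := volK_lower p η hp h1 u hu
  rw [← one_div, div_le_iff₀ (by linarith)]
  linarith

theorem volK_integrable (p : E3 → ℝ) (η : ℝ) (hp : Gau p η) (h0 : 0 ≤ η) (h1 : η ≤ 1 / 4)
    (k : ℕ) (g : E3 → ℝ) (hg : Measurable g) (C : ℝ) (hb : ∀ x, ‖x‖ = 1 → |g x| ≤ C) :
    Integrable (fun x => (p x)⁻¹ ^ k * g x) sig := by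
  have := sigA_prob
  have hm : Measurable (fun x => (p x)⁻¹ ^ k * g x) :=
    (((volK_cont p η hp h0 h1).measurable.inv).pow_const k).mul hg
  apply Integrable.of_bound hm.aestronglyMeasurable ((4 / 3) ^ k * C)
  filter_upwards [sigA_sphere] with x hx
  have h2 := volK_lower p η hp h1 x hx
  have h3 : 0 ≤ (p x)⁻¹ := inv_nonneg.mpr (by linarith)
  rw [Real.norm_eq_abs, abs_mul, abs_of_nonneg (pow_nonneg h3 k)]
  have h4 : (p x)⁻¹ ^ k ≤ (4 / 3) ^ k := pow_le_pow_left₀ h3 (volK_inv_le p η hp h1 x hx) k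
  exact mul_le_mul h4 (hb x hx) (abs_nonneg _) (by positivity)

theorem volK_main (p : E3 → ℝ) (η : ℝ) (hp : Gau p η) (h0 : 0 ≤ η) (h1 : η ≤ 1 / 4)
    (k : ℕ) (g : E3 → ℝ) (hg : Measurable g) (hg0 : ∀ x, 0 ≤ g x)
    (hh : ∀ (x : E3) (r : ℝ), 0 < r → g (r • x) = r ^ k * g x)
    (C : ℝ) (hb : ∀ x, ‖x‖ = 1 → |g x| ≤ C) :
    ∫⁻ x in Kp p, ENNReal.ofReal (g x) =
      ENNReal.ofReal (4 * Real.pi * ∫ x, (p x)⁻¹ ^ (3 + k) / (3 + k) * g x ∂sig) := by
  rw [← lintegral_indicator (volK_meas p η hp h0 h1),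
    sigA_polar _ ((Measurable.ennreal_ofReal hg).indicator (volK_meas p η hp h0 h1))]
  have e1 : ∫⁻ u, (∫⁻ r in Set.Ioi (0:ℝ), ENNReal.ofReal (r ^ 2) *
        (Kp p).indicator (fun x => ENNReal.ofReal (g x)) (r • u)) ∂sig =
      ∫⁻ u, ENNReal.ofReal ((p u)⁻¹ ^ (3 + k) / (3 + k) * g u) ∂sig := by
    apply lintegral_congr_ae
    filter_upwards [sigA_sphere] with u hu
    exact volK_inner p η hp h1 k g hg0 hh u hu
  rw [e1]
  have hint : Integrable (fun x => (p x)⁻¹ ^ (3 + k) / (3 + k) * g x) sig := by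
    have := (volK_integrable p η hp h0 h1 (3 + k) g hg C hb).div_const ((3:ℝ) + k)
    refine this.congr (Eventually.of_forall fun x => ?_)
    show (p x)⁻¹ ^ (3 + k) * g x / (3 + k) = (p x)⁻¹ ^ (3 + k) / (3 + k) * g x
    ring
  rw [← ofReal_integral_eq_lintegral_ofReal hint, ← ENNReal.ofReal_mul (by positivity)]
  filter_upwards [sigA_sphere] with x hx
  have h2 := volK_lower p η hp h1 x hx
  have h3 : 0 ≤ (p x)⁻¹ := inv_nonneg.mpr (by linarith)
  show (0:ℝ) ≤ (p x)⁻¹ ^ (3 + k) / (3 + k) * g x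
  exact mul_nonneg (by positivity) (hg0 x)

theorem volK_sq (p : E3 → ℝ) (η : ℝ) (hp : Gau p η) (h1 : η ≤ 1 / 4) (x : E3)
    (hx : ‖x‖ = 1) : 1 + 2 * FF p x = (p x)⁻¹ ^ 2 := by
  rw [gauF_eq p η hp h1 x hx, inv_pow]

theorem volK_eq (p : E3 → ℝ) (η : ℝ) (hp : Gau p η) (h0 : 0 ≤ η) (h1 : η ≤ 1 / 4) :
    volume (Kp p) = ENNReal.ofReal (4 * Real.pi / 3 * ∫ x, √(1 + 2 * FF p x) ^ 3 ∂sig) := by
  have h := volK_main p η hp h0 h1 0 (fun _ => 1) measurable_const (fun _ => zero_le_one)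
    (fun _ _ _ => by simp) 1 (fun _ _ => by simp)
  have e1 : ∫⁻ _ in Kp p, ENNReal.ofReal (1:ℝ) = volume (Kp p) := by
    rw [ENNReal.ofReal_one, setLIntegral_one]
  rw [← e1, h]
  congr 1
  have e2 : ∫ x, (p x)⁻¹ ^ (3 + 0) / ((3:ℝ) + ((0:ℕ):ℝ)) * (fun _ : E3 => (1:ℝ)) x ∂sig =
      ∫ x, √(1 + 2 * FF p x) ^ 3 / 3 ∂sig := by
    apply integral_congr_ae
    filter_upwards [sigA_sphere] with x hx
    have h2 := volK_lower p η hp h1 x hx
    have h3 : 0 ≤ (p x)⁻¹ := inv_nonneg.mpr (by linarith)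
    rw [volK_sq p η hp h1 x hx, Real.sqrt_sq h3]
    simp
  rw [e2, integral_div]
  ring

theorem volK_pi4 (p : E3 → ℝ) (η : ℝ) (hp : Gau p η) (h0 : 0 ≤ η) (h1 : η ≤ 1 / 4)
    (g : E3 → ℝ) (hg : Measurable g) (hg0 : ∀ x, 0 ≤ g x)
    (hh : ∀ (x : E3) (r : ℝ), 0 < r → g (r • x) = r * g x)
    (C : ℝ) (hb : ∀ x, ‖x‖ = 1 → |g x| ≤ C) :
    ∫ x in Kp p, g x = Real.pi * ∫ x, (1 + 2 * FF p x) ^ 2 * g x ∂sig ∧
      IntegrableOn g (Kp p) := by
  have h := volK_main p η hp h0 h1 1 g hg hg0 (fun x r hr => by rw [hh x r hr, pow_one]) C hb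
  have hI : 0 ≤ 4 * Real.pi * ∫ x, (p x)⁻¹ ^ (3 + 1) / ((3:ℝ) + ((1:ℕ):ℝ)) * g x ∂sig := by
    apply mul_nonneg (by positivity)
    apply integral_nonneg_of_ae
    filter_upwards [sigA_sphere] with x hx
    have h2 := volK_lower p η hp h1 x hx
    have h3 : 0 ≤ (p x)⁻¹ := inv_nonneg.mpr (by linarith)
    show (0:ℝ) ≤ (p x)⁻¹ ^ (3 + 1) / ((3:ℝ) + ((1:ℕ):ℝ)) * g x
    exact mul_nonneg (by positivity) (hg0 x)
  refine ⟨?_, ?_⟩
  · rw [integral_eq_lintegral_of_nonneg_ae (Eventually.of_forall hg0)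
      hg.aestronglyMeasurable, h, ENNReal.toReal_ofReal hI]
    have e2 : ∫ x, (p x)⁻¹ ^ (3 + 1) / ((3:ℝ) + ((1:ℕ):ℝ)) * g x ∂sig =
        ∫ x, ((1 + 2 * FF p x) ^ 2 * g x) / 4 ∂sig := by
      apply integral_congr_ae
      filter_upwards [sigA_sphere] with x hx
      rw [volK_sq p η hp h1 x hx]
      push_cast
      ring
    rw [e2, integral_div]
    ring
  · refine ⟨hg.aestronglyMeasurable, ?_⟩
    rw [hasFiniteIntegral_iff_ofReal (Eventually.of_forall hg0), h]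
    exact ENNReal.ofReal_lt_top

/-- moments of `Kp p` -/
theorem volK_moment (p : E3 → ℝ) (η : ℝ) (hp : Gau p η) (h0 : 0 ≤ η) (h1 : η ≤ 1 / 4)
    (i : Fin 3) :
    ∫ x in Kp p, x i = Real.pi * ∫ x, (1 + 2 * FF p x) ^ 2 * x i ∂sig := by
  have hm : Measurable (fun x : E3 => x i) := by fun_prop
  have hle : ∀ x : E3, ‖x‖ = 1 → |x i| ≤ 1 := by
    intro x hx
    have := EuclideanSpace.norm_eq x
    have h2 : ‖x i‖ ≤ ‖x‖ := PiLp.norm_apply_le x i
    rw [hx] at h2
    exact h2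
  have hP := volK_pi4 p η hp h0 h1 (fun x => max (x i) 0) (hm.max measurable_const)
    (fun x => le_max_right _ _)
    (fun x r hr => by
      show max ((r • x) i) 0 = r * max (x i) 0
      rw [PiLp.smul_apply, smul_eq_mul]
      rcases le_total (x i) 0 with h | h
      · rw [max_eq_right h, max_eq_right (mul_nonpos_of_nonneg_of_nonpos hr.le h), mul_zero]
      · rw [max_eq_left h, max_eq_left (mul_nonneg hr.le h)])
    1 (fun x hx => by
      show |max (x i) 0| ≤ 1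
      have h3 := hle x hx
      rw [abs_le] at h3
      rw [abs_of_nonneg (le_max_right _ _)]
      exact max_le h3.2 zero_le_one)
  have hN := volK_pi4 p η hp h0 h1 (fun x => max (-x i) 0) (hm.neg.max measurable_const)
    (fun x => le_max_right _ _)
    (fun x r hr => by
      show max (-(r • x) i) 0 = r * max (-x i) 0
      rw [PiLp.smul_apply, smul_eq_mul]
      rcases le_total (-x i) 0 with h | h
      · rw [max_eq_right h, mul_zero, max_eq_right]
        have := mul_nonpos_of_nonneg_of_nonpos hr.le h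
        linarith
      · rw [max_eq_left h, max_eq_left]
        · ring
        · have := mul_nonneg hr.le h
          linarith)
    1 (fun x hx => by
      show |max (-x i) 0| ≤ 1
      have h3 := hle x hx
      rw [abs_le] at h3
      rw [abs_of_nonneg (le_max_right _ _)]
      exact max_le (by linarith [h3.1]) zero_le_one)
  have hsub : ∀ x : E3, x i = max (x i) 0 - max (-x i) 0 := by
    intro x
    rcases le_total (x i) 0 with h | h
    · rw [max_eq_right h, max_eq_left (by linarith)]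
      ring
    · rw [max_eq_left h, max_eq_right (by linarith)]
      ring
  have e1 : ∫ x in Kp p, x i = ∫ x in Kp p, (max (x i) 0 - max (-x i) 0) :=
    integral_congr_ae (Eventually.of_forall hsub)
  have hi : ∀ g : E3 → ℝ, Measurable g → (∀ x, ‖x‖ = 1 → |g x| ≤ 1) →
      Integrable (fun x => (1 + 2 * FF p x) ^ 2 * g x) sig := by
    intro g hg hb
    refine (volK_integrable p η hp h0 h1 4 g hg 1 hb).congr ?_
    filter_upwards [sigA_sphere] with x hx
    rw [volK_sq p η hp h1 x hx]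
    ring
  rw [e1, integral_sub hP.2 hN.2, hP.1, hN.1, ← mul_sub, ← integral_sub]
  · congr 1
    apply integral_congr_ae
    refine Eventually.of_forall fun x => ?_
    show (1 + 2 * FF p x) ^ 2 * max (x i) 0 - (1 + 2 * FF p x) ^ 2 * max (-x i) 0 =
      (1 + 2 * FF p x) ^ 2 * x i
    rw [← mul_sub, ← hsub x]
  · apply hi _ (hm.max measurable_const)
    intro x hx
    have h3 := hle x hx
    rw [abs_le] at h3
    rw [abs_of_nonneg (le_max_right _ _)]
    exact max_le h3.2 zero_le_one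
  · apply hi _ (hm.neg.max measurable_const)
    intro x hx
    have h3 := hle x hx
    rw [abs_le] at h3
    rw [abs_of_nonneg (le_max_right _ _)]
    exact max_le (by
      show -x i ≤ 1
      linarith [h3.1]) zero_le_one

end Pool.Agent.Lib_helper15.STE
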