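import Pool.Agent.Lib_helper15.STE.DefsG
import Pool.Agent.Lib_helper15.STE.B.sigA
import Pool.Agent.Lib_helper15.STE.B.gauA
import Pool.Agent.Lib_helper15.STE.B.gauF
import Pool.Agent.Lib_helper15.STE.B.volK

/-! # STE, block nrmC : first moments and scaling -/

open MeasureTheory Filter Topology
open scoped InnerProductSpace

namespace Pool.Agent.Lib_helper15.STE

theorem nrmC_coord (i : Fin 3) (x : E3) (hx : ‖x‖ = 1) : |x i| ≤ 1 := by
  have h2 : ‖x i‖ ≤ ‖x‖ := PiLp.norm_apply_le x i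
  rw [hx] at h2
  exact h2

theorem nrmC_ne (x : E3) (hx : ‖x‖ = 1) : x ≠ 0 := by
  intro h
  rw [h, norm_zero] at hx
  exact one_ne_zero hx.symm

theorem nrmC_contp (p : E3 → ℝ) (η : ℝ) (hp : Gau p η) (h0 : 0 ≤ η) (h1 : η ≤ 1 / 4) :
    Continuous p := (gauA_lip p η hp h0 h1).continuous

theorem nrmC_measF (p : E3 → ℝ) (η : ℝ) (hp : Gau p η) (h0 : 0 ≤ η) (h1 : η ≤ 1 / 4) :
    Measurable (FF p) := by
  have hm := (nrmC_contp p η hp h0 h1).measurable
  unfold FF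
  exact (((measurable_norm.div hm).pow_const 2).sub_const 1).div_const 2

theorem nrmC_int (f : E3 → ℝ) (hf : Measurable f) (C : ℝ) (hC : ∀ x, ‖x‖ = 1 → |f x| ≤ C) :
    Integrable f sig := by
  have := sigA_prob
  apply Integrable.of_bound hf.aestronglyMeasurable C
  filter_upwards [sigA_sphere] with x hx
  exact hC x hx

/-- the coordinate functions have mean zero -/
theorem nrmC_odd (i : Fin 3) : ∫ x : E3, x i ∂sig = 0 := by
  have h := sigA_map (LinearIsometryEquiv.neg ℝ)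
  have h2 : ∫ x : E3, x i ∂(sig.map (LinearIsometryEquiv.neg ℝ (E := E3))) =
      ∫ x : E3, (LinearIsometryEquiv.neg ℝ (E := E3) x) i ∂sig := by
    apply integral_map
    · exact (LinearIsometryEquiv.neg ℝ (E := E3)).continuous.aemeasurable
    · have hm : Measurable (fun x : E3 => x i) := by fun_prop
      exact hm.aestronglyMeasurable
  rw [h] at h2
  have h3 : ∫ x : E3, (LinearIsometryEquiv.neg ℝ (E := E3) x) i ∂sig =
      - ∫ x : E3, x i ∂sig := by
    rw [← integral_neg]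
    rfl
  rw [h3] at h2
  linarith

theorem nrmC_moment (p : E3 → ℝ) (η : ℝ) (hp : Gau p η) (h0 : 0 ≤ η) (h1 : η ≤ 1 / 4)
    (i : Fin 3) (hm : ∫ x in Kp p, x i = 0) :
    |∫ x, FF p x * x i ∂sig| ≤ 2 * η * √(ff (FF p)) := by
  have hprob := sigA_prob
  have hF := nrmC_measF p η hp h0 h1
  have hFb : ∀ x : E3, ‖x‖ = 1 → |FF p x| ≤ 2 * η := fun x hx =>
    gauF_bound p η hp h0 h1 x (nrmC_ne x hx)
  have hxi : Measurable (fun x : E3 => x i) := by fun_prop
  have hFF1 : ∀ x : E3, ‖x‖ = 1 → |FF p x| ≤ 1 := fun x hx => (hFb x hx).trans (by linarith)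
  -- integrability
  have i1 : Integrable (fun x : E3 => x i) sig := nrmC_int _ hxi 1 (nrmC_coord i)
  have i2 : Integrable (fun x : E3 => FF p x * x i) sig := by
    apply nrmC_int _ (hF.mul hxi) 1
    intro x hx
    show |FF p x * x i| ≤ 1
    rw [abs_mul]
    exact mul_le_one₀ (hFF1 x hx) (abs_nonneg _) (nrmC_coord i x hx)
  have i3 : Integrable (fun x : E3 => FF p x ^ 2 * x i) sig := by
    apply nrmC_int _ ((hF.pow_const 2).mul hxi) 1
    intro x hx
    show |FF p x ^ 2 * x i| ≤ 1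
    rw [abs_mul, abs_pow]
    exact mul_le_one₀ (pow_le_one₀ (abs_nonneg _) (hFF1 x hx)) (abs_nonneg _)
      (nrmC_coord i x hx)
  have i4 : Integrable (fun x : E3 => FF p x ^ 2) sig := by
    apply nrmC_int _ (hF.pow_const 2) 1
    intro x hx
    rw [abs_pow]
    exact pow_le_one₀ (abs_nonneg _) (hFF1 x hx)
  have hv := volK_moment p η hp h0 h1 i
  rw [hm] at hv
  have hexp : ∫ x, (1 + 2 * FF p x) ^ 2 * x i ∂sig =
      ∫ x : E3, x i ∂sig + 4 * ∫ x, FF p x * x i ∂sig + 4 * ∫ x, FF p x ^ 2 * x i ∂sig := by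
    have i5 : Integrable (fun x : E3 => x i + 4 * (FF p x * x i)) sig :=
      i1.add (i2.const_mul 4)
    rw [← integral_const_mul, ← integral_const_mul, ← integral_add i1 (i2.const_mul 4),
      ← integral_add i5 (i3.const_mul 4)]
    apply integral_congr_ae
    refine Eventually.of_forall fun x => ?_
    show (1 + 2 * FF p x) ^ 2 * x i = x i + 4 * (FF p x * x i) + 4 * (FF p x ^ 2 * x i)
    ring
  rw [hexp, nrmC_odd] at hv
  have hpi : (0:ℝ) < Real.pi := Real.pi_pos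
  have hz : 0 + 4 * ∫ x, FF p x * x i ∂sig + 4 * ∫ x, FF p x ^ 2 * x i ∂sig = 0 := by
    rcases mul_eq_zero.mp hv.symm with h | h
    · exact absurd h hpi.ne'
    · exact h
  have heq : ∫ x, FF p x * x i ∂sig = - ∫ x, FF p x ^ 2 * x i ∂sig := by linarith
  rw [heq, abs_neg]
  -- |int F^2 u_i| <= int F^2
  have hA : |∫ x, FF p x ^ 2 * x i ∂sig| ≤ ∫ x, FF p x ^ 2 ∂sig := by
    rw [← Real.norm_eq_abs]
    refine (norm_integral_le_integral_norm _).trans ?_
    apply integral_mono_ae i3.norm i4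
    filter_upwards [sigA_sphere] with x hx
    show ‖FF p x ^ 2 * x i‖ ≤ FF p x ^ 2
    rw [norm_mul, Real.norm_eq_abs, Real.norm_eq_abs, abs_of_nonneg (sq_nonneg (FF p x))]
    exact mul_le_of_le_one_right (sq_nonneg _) (nrmC_coord i x hx)
  refine hA.trans ?_
  -- int F^2 <= 2 eta sqrt(int F^2)
  have hff : ∫ x, FF p x ^ 2 ∂sig = ff (FF p) := rfl
  have hn : 0 ≤ ff (FF p) := by
    rw [← hff]
    exact integral_nonneg fun x => sq_nonneg _
  have hle : ff (FF p) ≤ (2 * η) ^ 2 := by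
    rw [← hff]
    have : ∫ x, FF p x ^ 2 ∂sig ≤ ∫ _x : E3, (2 * η) ^ 2 ∂sig := by
      apply integral_mono_ae i4 (integrable_const _)
      filter_upwards [sigA_sphere] with x hx
      show FF p x ^ 2 ≤ (2 * η) ^ 2
      rw [← sq_abs (FF p x)]
      exact pow_le_pow_left₀ (abs_nonneg _) (hFb x hx) 2
    simpa using this
  have hs : √(ff (FF p)) ≤ 2 * η := by
    rw [Real.sqrt_le_left (by linarith)]
    exact hle
  rw [hff]
  calc ff (FF p) = √(ff (FF p)) * √(ff (FF p)) := (Real.mul_self_sqrt hn).symm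
    _ ≤ 2 * η * √(ff (FF p)) := mul_le_mul_of_nonneg_right hs (Real.sqrt_nonneg _)

theorem nrmC_scale (p : E3 → ℝ) (η : ℝ) (hp : Gau p η) (h0 : 0 ≤ η) (h1 : η ≤ 1 / 16) :
    ∃ l : ℝ, 0 < l ∧ Gau (fun x => l * p x) (4 * η) ∧ ∫ x, FF (fun x => l * p x) x ∂sig = 0 ∧
      Kp p = (fun x => (0 : E3) + l • x) '' Kp (fun x => l * p x) := by
  have hprob := sigA_prob
  have h1' : η ≤ 1 / 4 := by linarith
  have hm := (nrmC_contp p η hp h0 h1').measurable
  set h : E3 → ℝ := fun x => (‖x‖ / p x) ^ 2 with hdef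
  have hhm : Measurable h := (measurable_norm.div hm).pow_const 2
  have hup : ∀ x : E3, ‖x‖ = 1 → h x ≤ ((1 - η)⁻¹) ^ 2 := by
    intro x hx
    have h2 := hp.lo x
    rw [hx, mul_one] at h2
    show (‖x‖ / p x) ^ 2 ≤ ((1 - η)⁻¹) ^ 2
    rw [hx, one_div]
    exact pow_le_pow_left₀ (inv_nonneg.mpr (by linarith)) (inv_anti₀ (by linarith) h2) 2
  have hlo : ∀ x : E3, ‖x‖ = 1 → ((1 + η)⁻¹) ^ 2 ≤ h x := by
    intro x hx
    have h2 := hp.up x
    have h3 := hp.lo x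
    rw [hx, mul_one] at h2 h3
    show ((1 + η)⁻¹) ^ 2 ≤ (‖x‖ / p x) ^ 2
    rw [hx, one_div]
    exact pow_le_pow_left₀ (inv_nonneg.mpr (by linarith)) (inv_anti₀ (by linarith) h2) 2
  have hint : Integrable h sig := by
    apply nrmC_int h hhm (((1 - η)⁻¹) ^ 2)
    intro x hx
    have : 0 ≤ h x := sq_nonneg _
    rw [abs_of_nonneg this]
    exact hup x hx
  set J : ℝ := ∫ x, h x ∂sig with hJ
  have hJup : J ≤ ((1 - η)⁻¹) ^ 2 := by
    have : J ≤ ∫ _x : E3, ((1 - η)⁻¹) ^ 2 ∂sig := by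
      apply integral_mono_ae hint (integrable_const _)
      filter_upwards [sigA_sphere] with x hx
      exact hup x hx
    simpa using this
  have hJlo : ((1 + η)⁻¹) ^ 2 ≤ J := by
    have : ∫ _x : E3, ((1 + η)⁻¹) ^ 2 ∂sig ≤ J := by
      apply integral_mono_ae (integrable_const _) hint
      filter_upwards [sigA_sphere] with x hx
      exact hlo x hx
    simpa using this
  have hp1 : 0 < (1 + η)⁻¹ := inv_pos.mpr (by linarith)
  have hm1 : 0 < (1 - η)⁻¹ := inv_pos.mpr (by linarith)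
  have hJ0 : 0 < J := lt_of_lt_of_le (by positivity) hJlo
  have hl0 : 0 < √J := Real.sqrt_pos.mpr hJ0
  have hlup : √J ≤ (1 - η)⁻¹ := by
    rw [Real.sqrt_le_left hm1.le]
    exact hJup
  have hllo : (1 + η)⁻¹ ≤ √J := Real.le_sqrt_of_sq_le hJlo
  have hA : 1 - 4 * η ≤ √J * (1 - η) := by
    have : (1 + η)⁻¹ * (1 - η) ≤ √J * (1 - η) :=
      mul_le_mul_of_nonneg_right hllo (by linarith)
    refine le_trans ?_ this
    rw [inv_mul_eq_div, le_div_iff₀ (by linarith)]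
    nlinarith
  have hB : √J * (1 + η) ≤ 1 + 4 * η := by
    have : √J * (1 + η) ≤ (1 - η)⁻¹ * (1 + η) :=
      mul_le_mul_of_nonneg_right hlup (by linarith)
    refine this.trans ?_
    rw [inv_mul_eq_div, div_le_iff₀ (by linarith)]
    nlinarith
  refine ⟨√J, hl0, ⟨?_, ?_, ?_, ?_⟩, ?_, ?_⟩
  · intro x y
    show √J * p (x + y) ≤ √J * p x + √J * p y
    rw [← mul_add]
    exact mul_le_mul_of_nonneg_left (hp.sub x y) hl0.le
  · intro x t ht
    show √J * p (t • x) = t * (√J * p x)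
    rw [hp.hom x t ht]
    ring
  · intro x
    show (1 - 4 * η) * ‖x‖ ≤ √J * p x
    calc (1 - 4 * η) * ‖x‖ ≤ √J * (1 - η) * ‖x‖ := mul_le_mul_of_nonneg_right hA (norm_nonneg _)
      _ = √J * ((1 - η) * ‖x‖) := by ring
      _ ≤ √J * p x := mul_le_mul_of_nonneg_left (hp.lo x) hl0.le
  · intro x
    show √J * p x ≤ (1 + 4 * η) * ‖x‖
    calc √J * p x ≤ √J * ((1 + η) * ‖x‖) := mul_le_mul_of_nonneg_left (hp.up x) hl0.le
      _ = √J * (1 + η) * ‖x‖ := by ring
      _ ≤ (1 + 4 * η) * ‖x‖ := mul_le_mul_of_nonneg_right hB (norm_nonneg _)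
  · have e1 : ∀ x : E3, FF (fun x => √J * p x) x = J⁻¹ / 2 * h x - 1 / 2 := by
      intro x
      show ((‖x‖ / (√J * p x)) ^ 2 - 1) / 2 = J⁻¹ / 2 * (‖x‖ / p x) ^ 2 - 1 / 2
      have : ‖x‖ / (√J * p x) = (√J)⁻¹ * (‖x‖ / p x) := by
        rw [div_mul_eq_div_div_swap, div_eq_inv_mul _ (√J)]
      rw [this, mul_pow, inv_pow, Real.sq_sqrt hJ0.le]
      ring
    have e2 : ∫ x, FF (fun x => √J * p x) x ∂sig = ∫ x, (J⁻¹ / 2 * h x - 1 / 2) ∂sig :=
      integral_congr_ae (Eventually.of_forall e1)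
    rw [e2, integral_sub (hint.const_mul _) (integrable_const _), integral_const_mul, ← hJ]
    have e3 : ∫ _x : E3, (1 / 2 : ℝ) ∂sig = 1 / 2 := by simp
    rw [e3]
    field_simp
    ring
  · ext x
    constructor
    · intro hx
      refine ⟨(√J)⁻¹ • x, ?_, ?_⟩
      · show √J * p ((√J)⁻¹ • x) ≤ 1
        rw [hp.hom x _ (inv_nonneg.mpr hl0.le), ← mul_assoc, mul_inv_cancel₀ hl0.ne', one_mul]
        exact hx
      · show (0 : E3) + √J • ((√J)⁻¹ • x) = x
        rw [zero_add, smul_smul, mul_inv_cancel₀ hl0.ne', one_smul]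
    · rintro ⟨y, hy, rfl⟩
      show p ((0 : E3) + √J • y) ≤ 1
      rw [zero_add, hp.hom y _ hl0.le]
      exact hy

end Pool.Agent.Lib_helper15.STE
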