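import Pool.Agent.Lib_helper15.STE.DefsG
import Pool.Agent.Lib_helper15.STE.B.rad
import Pool.Agent.Lib_helper15.STE.B.gauA

/-! # STE, block perim : lower bound for the perimeter of a section -/

open MeasureTheory Filter Topology
open scoped InnerProductSpace

namespace Pool.Agent.Lib_helper15.STE

/-- planar polar coordinates -/
noncomputable def perim_pl (r φ : ℝ) : E2 := !₂[r * Real.cos φ, r * Real.sin φ]

theorem perim_emb_pl (r φ t : ℝ) : emb t (perim_pl r φ) = cy r φ t := by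
  ext i
  fin_cases i <;> simp [emb, perim_pl, cy]

/-- the linear part of `emb t` -/
noncomputable def perim_L : E2 →L[ℝ] E3 :=
  LinearMap.toContinuousLinearMap
    { toFun := fun v => !₂[v 0, v 1, 0]
      map_add' := fun v w => by ext i; fin_cases i <;> simp
      map_smul' := fun c v => by ext i; fin_cases i <;> simp }

theorem perim_L_apply (v : E2) : perim_L v = !₂[v 0, v 1, 0] := rfl

theorem perim_emb_eq (t : ℝ) (y : E2) : emb t y = perim_L y + !₂[0, 0, t] := by
  ext i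
  fin_cases i <;> simp [emb, perim_L_apply]

theorem perim_emb_cont (t : ℝ) : Continuous (emb t) := by
  have h : emb t = fun y => perim_L y + !₂[0, 0, t] := by
    funext y
    exact perim_emb_eq t y
  rw [h]
  fun_prop

theorem perim_emb_deriv (t : ℝ) (y : E2) : HasFDerivAt (emb t) perim_L y := by
  have h : emb t = fun y => perim_L y + !₂[0, 0, t] := by
    funext y
    exact perim_emb_eq t y
  rw [h]
  exact perim_L.hasFDerivAt.add_const _

/-- the equivalence `ℝ × ℝ → E2` -/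
noncomputable def perim_e : ℝ × ℝ ≃ᵐ E2 :=
  (MeasurableEquiv.finTwoArrow (α := ℝ)).symm.trans (MeasurableEquiv.toLp 2 (Fin 2 → ℝ))

theorem perim_e_apply (q : ℝ × ℝ) : perim_e q = !₂[q.1, q.2] := by
  ext i
  fin_cases i <;> rfl

theorem perim_e_mp : MeasurePreserving perim_e volume volume := by
  have h1 : MeasurePreserving (MeasurableEquiv.finTwoArrow (α := ℝ)).symm volume volume :=
    (volume_preserving_finTwoArrow ℝ).symm
  have h2 : MeasurePreserving (MeasurableEquiv.toLp 2 (Fin 2 → ℝ)) volume volume :=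
    (EuclideanSpace.volume_preserving_symm_measurableEquiv_toLp (Fin 2)).symm
  exact h2.comp h1

theorem perim_pl_eq (q : ℝ × ℝ) : perim_e (polarCoord.symm q) = perim_pl q.1 q.2 := by
  rw [perim_e_apply]
  rfl

theorem perim_pl_meas : Measurable (fun q : ℝ × ℝ => perim_pl q.1 q.2) := by
  have h : (fun q : ℝ × ℝ => perim_pl q.1 q.2) =
      fun q : ℝ × ℝ => perim_e (q.1 * Real.cos q.2, q.1 * Real.sin q.2) := by
    funext q
    rw [perim_e_apply]
    rfl
  rw [h]
  refine perim_e.measurable.comp ?_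
  fun_prop

theorem perim_polar (S : Set E2) (hS : MeasurableSet S) :
    volume S = ∫⁻ φ in Set.Ioo (-Real.pi) Real.pi, ∫⁻ r in Set.Ioi (0:ℝ),
      ENNReal.ofReal r * S.indicator (fun _ => 1) (perim_pl r φ) := by
  have h1 : volume S = volume (perim_e ⁻¹' S) :=
    (perim_e_mp.measure_preimage hS.nullMeasurableSet).symm
  have h2 : volume (perim_e ⁻¹' S) =
      ∫⁻ q : ℝ × ℝ, (perim_e ⁻¹' S).indicator (fun _ => (1 : ENNReal)) q := by
    rw [lintegral_indicator (perim_e.measurable hS)]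
    simp
  have h3 : ∀ q : ℝ × ℝ, (perim_e ⁻¹' S).indicator (fun _ => (1 : ENNReal)) (polarCoord.symm q) =
      S.indicator (fun _ => 1) (perim_pl q.1 q.2) := by
    intro q
    rw [← perim_pl_eq]
    rfl
  rw [h1, h2, ← lintegral_comp_polarCoord_symm]
  simp_rw [h3]
  have hm : Measurable (fun q : ℝ × ℝ => ENNReal.ofReal q.1 •
      S.indicator (fun _ => (1 : ENNReal)) (perim_pl q.1 q.2)) := by
    refine Measurable.mul (ENNReal.measurable_ofReal.comp measurable_fst) ?_
    exact (measurable_const.indicator hS).comp perim_pl_meas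
  have h4 : polarCoord.target = Set.Ioi (0 : ℝ) ×ˢ Set.Ioo (-Real.pi) Real.pi := rfl
  rw [h4, Measure.volume_eq_prod, ← Measure.prod_restrict,
    lintegral_prod_symm _ hm.aemeasurable]
  rfl

/-- local statement: the shell contains a radial segment -/
theorem perim_local (q : E2 → ℝ) (G : E2 →L[ℝ] ℝ) (b er u : E2) (her : ‖er‖ = 1) (hu : ‖u‖ = 1)
    (hq : HasFDerivAt q G b) (hb : q b = 1) (k : ℝ) (hk : 0 < k) (hG : k * G er < G u)
    (hGr : 0 < G er) :
    ∀ᶠ ε in 𝓝[>] (0:ℝ), ∀ s, 0 < s → s ≤ k * ε →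
      b + s • er ∈ Metric.cthickening ε {y | q y ≤ 1} := by
  have hδ : 0 < (G u - k * G er) / (k + 1) := by
    apply div_pos
    · linarith
    · linarith
  have h1 := (hasFDerivAt_iff_isLittleO_nhds_zero.mp hq).def hδ
  rw [Metric.eventually_nhds_iff] at h1
  obtain ⟨ρ, hρ, h1⟩ := h1
  have h2 : ∀ᶠ ε in 𝓝[>] (0:ℝ), ε < ρ / (k + 1) :=
    (Filter.Eventually.filter_mono nhdsWithin_le_nhds
      (gt_mem_nhds (div_pos hρ (by linarith))))
  filter_upwards [h2, self_mem_nhdsWithin] with ε hε hε0 s hs hsk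
  rw [Set.mem_Ioi] at hε0
  have hn : ‖s • er - ε • u‖ ≤ (k + 1) * ε := by
    calc ‖s • er - ε • u‖ ≤ ‖s • er‖ + ‖ε • u‖ := norm_sub_le _ _
      _ = s + ε := by
          rw [norm_smul, norm_smul, her, hu, Real.norm_of_nonneg hs.le, Real.norm_of_nonneg hε0.le]
          ring
      _ ≤ (k + 1) * ε := by linarith
  have hk1 : 0 < k + 1 := by linarith
  have hρ' : (k + 1) * ε < ρ := by
    rw [lt_div_iff₀ hk1] at hε
    linarith
  have h3 := h1 (y := s • er - ε • u) (by rw [dist_zero_right]; exact lt_of_le_of_lt hn hρ')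
  rw [Real.norm_eq_abs, hb, map_sub, map_smul, map_smul] at h3
  simp only [smul_eq_mul] at h3
  have h4 : (G u - k * G er) / (k + 1) * ‖s • er - ε • u‖ ≤ (G u - k * G er) * ε := by
    calc (G u - k * G er) / (k + 1) * ‖s • er - ε • u‖
        ≤ (G u - k * G er) / (k + 1) * ((k + 1) * ε) := mul_le_mul_of_nonneg_left hn hδ.le
      _ = (G u - k * G er) * ε := by field_simp
  have h5 := (abs_le.mp (h3.trans h4)).2
  have h6 : s * G er ≤ k * ε * G er := mul_le_mul_of_nonneg_right hsk hGr.le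
  have h7 : q (b + (s • er - ε • u)) ≤ 1 := by nlinarith
  refine Metric.mem_cthickening_of_dist_le _ (b + (s • er - ε • u)) ε _ h7 ?_
  have h8 : b + s • er - (b + (s • er - ε • u)) = ε • u := by abel
  rw [dist_eq_norm, h8, norm_smul, hu, Real.norm_of_nonneg hε0.le, mul_one]

/-- everything about one longitude -/
theorem perim_phi (p : E3 → ℝ) (η κ : ℝ) (hp : Gau p η) (h0 : 0 ≤ η) (hκ : 0 < κ) (hκ1 : κ < 1)
    (h1 : η ≤ κ / 4) (h2 : 3 * √η ≤ √κ / 4) (t φ : ℝ) (ht : |t| ≤ 1 - κ)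
    (hd : DifferentiableAt ℝ p (pt (Sp p t φ) φ)) (k : ℝ) (hk : 0 < k)
    (hkl : k < √(1 + (fderiv ℝ p (pt (Sp p t φ) φ) !₂[-Real.sin φ, Real.cos φ, 0] /
      fderiv ℝ p (pt (Sp p t φ) φ) !₂[Real.cos φ, Real.sin φ, 0]) ^ 2)) :
    ∀ᶠ ε in 𝓝[>] (0:ℝ), ∀ s, 0 < s → s ≤ k * ε →
      perim_pl (Rr p t φ + s) φ ∈ Metric.cthickening ε (Mp p t) \ Mp p t := by
  have hη4 : η ≤ 1 / 4 := by linarith
  obtain ⟨hR0, hRk, hR2, hR1⟩ := rad_bounds p η κ hp h0 hκ hκ1 h1 t φ ht
  obtain ⟨hS, hcy, hρ1, hRρ, -⟩ := rad_dir p η κ hp h0 hκ hκ1 h1 t φ ht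
  set R := Rr p t φ with hRdef
  set S := Sp p t φ with hSdef
  set D := fderiv ℝ p (pt S φ) with hD
  set ρ := √(R ^ 2 + t ^ 2) with hρ
  have hρ0 : 0 < ρ := by
    rw [hρ]
    exact Real.sqrt_pos.mpr (by positivity)
  -- unit vector
  have hS1 : 0 ≤ 1 - S ^ 2 := by
    have := abs_lt.mp hS
    nlinarith
  have hnorm : ‖pt S φ‖ = 1 := by
    rw [EuclideanSpace.norm_eq]
    rw [Fin.sum_univ_three]
    simp only [pt, Real.norm_eq_abs, sq_abs]
    simp only [Matrix.cons_val_zero, Matrix.cons_val_one, Matrix.cons_val]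
    rw [mul_pow, mul_pow, Real.sq_sqrt hS1, ← mul_add, Real.cos_sq_add_sin_sq]
    ring_nf
    simp
  have hin : ⟪pt S φ, !₂[Real.cos φ, Real.sin φ, 0]⟫_ℝ = √(1 - S ^ 2) := by
    simp only [PiLp.inner_apply, Fin.sum_univ_three, pt]
    simp only [Matrix.cons_val_zero, Matrix.cons_val_one, Matrix.cons_val,
      RCLike.inner_apply, conj_trivial]
    have := Real.cos_sq_add_sin_sq φ
    linear_combination √(1 - S ^ 2) * this
  have hner : ‖(!₂[Real.cos φ, Real.sin φ, 0] : E3)‖ = 1 := by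
    rw [EuclideanSpace.norm_eq]
    rw [Fin.sum_univ_three]
    simp
  -- positivity of the radial derivative
  have hρle : ρ ≤ 4 / 3 := by
    have hlo := hp.lo (pt S φ)
    rw [hnorm] at hlo
    have h34 : 3 / 4 ≤ p (pt S φ) := by linarith
    have := hρ1
    nlinarith
  have hRs : √κ / 2 < R := by
    have h5 : (√κ) ^ 2 = κ := Real.sq_sqrt hκ.le
    have h6 : 0 < √κ := Real.sqrt_pos.mpr hκ
    by_contra hcon
    have h7 : R ≤ √κ / 2 := not_lt.mp hcon
    have h8 : R ^ 2 ≤ (√κ / 2) ^ 2 := pow_le_pow_left₀ hR0.le h7 2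
    nlinarith
  have hgr : 0 < D !₂[Real.cos φ, Real.sin φ, 0] := by
    have h5 := gauA_near p η hp h0 hη4 (pt S φ) hnorm hd !₂[Real.cos φ, Real.sin φ, 0]
    rw [hner, hin, mul_one] at h5
    have h6 := (abs_le.mp h5).1
    have h7 : 0 < √κ := Real.sqrt_pos.mpr hκ
    have h8 : √κ / 4 < √(1 - S ^ 2) := by
      by_contra hcon
      have h9 : √(1 - S ^ 2) ≤ √κ / 4 := not_lt.mp hcon
      have h10 : R ≤ 4 / 3 * (√κ / 4) := by
        rw [hRρ]
        exact mul_le_mul hρle h9 (Real.sqrt_nonneg _) (by norm_num)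
      linarith
    linarith
  -- planar data
  have hG : HasFDerivAt (fun y => p (emb t y)) (D.comp perim_L) (perim_pl R φ) := by
    have h5 : DifferentiableAt ℝ p (cy R φ t) ∧ fderiv ℝ p (cy R φ t) = D := by
      rw [hcy]
      have := gauA_hom p η hp (pt S φ) ρ hρ0
      exact ⟨this.1.mpr hd, this.2⟩
    have h6 : HasFDerivAt p D (emb t (perim_pl R φ)) := by
      rw [perim_emb_pl, ← h5.2]
      exact h5.1.hasFDerivAt
    exact h6.comp (perim_pl R φ) (perim_emb_deriv t (perim_pl R φ))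
  have hb : p (emb t (perim_pl R φ)) = 1 := by rw [perim_emb_pl]; exact hR1
  set gr := D !₂[Real.cos φ, Real.sin φ, 0] with hgrd
  set gf := D !₂[-Real.sin φ, Real.cos φ, 0] with hgfd
  set N := √(gr ^ 2 + gf ^ 2) with hN
  have hN0 : 0 < N := Real.sqrt_pos.mpr (by positivity)
  have hN2 : N ^ 2 = gr ^ 2 + gf ^ 2 := Real.sq_sqrt (by positivity)
  have hNl : √(1 + (gf / gr) ^ 2) = N / gr := by
    rw [hN, eq_div_iff hgr.ne']
    nth_rewrite 2 [← Real.sqrt_sq hgr.le]
    rw [← Real.sqrt_mul (by positivity)]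
    congr 1
    field_simp
  rw [hNl, lt_div_iff₀ hgr] at hkl
  let er : E2 := !₂[Real.cos φ, Real.sin φ]
  let ef : E2 := !₂[-Real.sin φ, Real.cos φ]
  let u : E2 := (gr / N) • er + (gf / N) • ef
  have her : ‖er‖ = 1 := by
    rw [EuclideanSpace.norm_eq, Fin.sum_univ_two]
    simp [er]
  have hu : ‖u‖ = 1 := by
    rw [EuclideanSpace.norm_eq, Fin.sum_univ_two]
    simp only [u, er, ef, PiLp.add_apply, PiLp.smul_apply, smul_eq_mul, Real.norm_eq_abs, sq_abs]
    simp only [Matrix.cons_val_zero, Matrix.cons_val_one]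
    have h5 : (gr / N * Real.cos φ + gf / N * -Real.sin φ) ^ 2 +
        (gr / N * Real.sin φ + gf / N * Real.cos φ) ^ 2 =
        (gr ^ 2 + gf ^ 2) / N ^ 2 * (Real.cos φ ^ 2 + Real.sin φ ^ 2) := by
      field_simp
      ring
    rw [h5, Real.cos_sq_add_sin_sq, ← hN2, mul_one, div_self (by positivity), Real.sqrt_one]
  have hLer : perim_L er = !₂[Real.cos φ, Real.sin φ, 0] := rfl
  have hLef : perim_L ef = !₂[-Real.sin φ, Real.cos φ, 0] := rfl
  have hGer : (D.comp perim_L) er = gr := by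
    rw [ContinuousLinearMap.comp_apply, hLer]
  have hGu : (D.comp perim_L) u = N := by
    rw [ContinuousLinearMap.comp_apply, map_add, map_smul, map_smul, hLer, hLef, map_add, map_smul,
      map_smul, ← hgrd, ← hgfd]
    simp only [smul_eq_mul]
    have h5 : gr / N * gr + gf / N * gf = N ^ 2 / N := by
      rw [hN2]
      ring
    rw [h5]
    field_simp
  have h9 := perim_local (fun y => p (emb t y)) (D.comp perim_L) (perim_pl R φ) er u her hu hG hb
    k hk (by rw [hGer, hGu]; exact hkl) (by rw [hGer]; exact hgr)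
  filter_upwards [h9] with ε hε s hs hsk
  have h10 : perim_pl R φ + s • er = perim_pl (R + s) φ := by
    ext i
    fin_cases i <;> simp [perim_pl, er] <;> ring
  refine ⟨?_, ?_⟩
  · rw [← h10]
    exact hε s hs hsk
  · intro h11
    have h12 : p (emb t (perim_pl (R + s) φ)) ≤ 1 := h11
    rw [perim_emb_pl, rad_le p η κ hp h0 hκ hκ1 h1 t φ ht (R + s) (by linarith)] at h12
    linarith

theorem perim_le (p : E3 → ℝ) (η κ : ℝ) (hp : Gau p η) (h0 : 0 ≤ η) (hκ : 0 < κ) (hκ1 : κ < 1)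
    (h1 : η ≤ κ / 4) (h2 : 3 * √η ≤ √κ / 4) (t : ℝ) (ht : |t| ≤ 1 - κ)
    (hd : ∀ᵐ φ ∂(volume.restrict (Set.Ioo (-Real.pi) Real.pi)),
      DifferentiableAt ℝ p (pt (Sp p t φ) φ)) :
    ∫⁻ φ in Set.Ioo (-Real.pi) Real.pi, ENNReal.ofReal (Lam p t φ) ≤ bd (Mp p t) := by
  have hpc : Continuous p := (gauA_lip p η hp h0 (by linarith)).continuous
  have hMc : IsClosed (Mp p t) := by
    have : Mp p t = (fun y => p (emb t y)) ⁻¹' Set.Iic 1 := rfl
    rw [this]
    exact isClosed_Iic.preimage (hpc.comp (perim_emb_cont t))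
  have hSm : ∀ ε : ℝ, MeasurableSet (Metric.cthickening ε (Mp p t) \ Mp p t) := fun ε =>
    Metric.isClosed_cthickening.measurableSet.diff hMc.measurableSet
  let f : ℝ → ℝ → ENNReal := fun ε φ => (∫⁻ r in Set.Ioi (0:ℝ), ENNReal.ofReal r *
      (Metric.cthickening ε (Mp p t) \ Mp p t).indicator (fun _ => 1) (perim_pl r φ)) /
        ENNReal.ofReal ε
  have hfm : ∀ ε, Measurable (f ε) := by
    intro ε
    refine Measurable.div_const ?_ _
    have hm : Measurable (fun q : ℝ × ℝ => ENNReal.ofReal q.1 *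
        (Metric.cthickening ε (Mp p t) \ Mp p t).indicator (fun _ => (1 : ENNReal))
          (perim_pl q.1 q.2)) := by
      refine Measurable.mul (ENNReal.measurable_ofReal.comp measurable_fst) ?_
      exact (measurable_const.indicator (hSm ε)).comp perim_pl_meas
    exact hm.lintegral_prod_left'
  have hint : ∀ ε, ∫⁻ φ in Set.Ioo (-Real.pi) Real.pi, f ε φ =
      volume (Metric.cthickening ε (Mp p t) \ Mp p t) / ENNReal.ofReal ε := by
    intro ε
    simp only [f, div_eq_mul_inv]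
    rw [lintegral_mul_const'', ← perim_polar _ (hSm ε)]
    have hm : Measurable (fun q : ℝ × ℝ => ENNReal.ofReal q.1 *
        (Metric.cthickening ε (Mp p t) \ Mp p t).indicator (fun _ => (1 : ENNReal))
          (perim_pl q.1 q.2)) := by
      refine Measurable.mul (ENNReal.measurable_ofReal.comp measurable_fst) ?_
      exact (measurable_const.indicator (hSm ε)).comp perim_pl_meas
    exact (hm.lintegral_prod_left').aemeasurable
  have hbd : bd (Mp p t) = liminf (fun ε => ∫⁻ φ in Set.Ioo (-Real.pi) Real.pi, f ε φ) (𝓝[>] 0) := by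
    unfold bd
    simp_rw [hint]
  rw [hbd]
  refine le_trans ?_ (lintegral_liminf_le hfm)
  refine lintegral_mono_ae ?_
  filter_upwards [hd] with φ hφ
  obtain ⟨hR0, -, -, -⟩ := rad_bounds p η κ hp h0 hκ hκ1 h1 t φ ht
  set R := Rr p t φ with hRdef
  set l := √(1 + (fderiv ℝ p (pt (Sp p t φ) φ) !₂[-Real.sin φ, Real.cos φ, 0] /
    fderiv ℝ p (pt (Sp p t φ) φ) !₂[Real.cos φ, Real.sin φ, 0]) ^ 2) with hl
  have hl0 : 0 < l := Real.sqrt_pos.mpr (by positivity)
  have key : ∀ k, 0 < k → k < l → ENNReal.ofReal (R * k) ≤ liminf (fun ε => f ε φ) (𝓝[>] 0) := by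
    intro k hk hkl
    have h5 := perim_phi p η κ hp h0 hκ hκ1 h1 h2 t φ ht hφ k hk hkl
    refine le_liminf_of_le (by isBoundedDefault) ?_
    filter_upwards [h5, self_mem_nhdsWithin] with ε hε hε0
    rw [Set.mem_Ioi] at hε0
    have h6 : ENNReal.ofReal (R * k) * ENNReal.ofReal ε ≤ ∫⁻ r in Set.Ioi (0:ℝ), ENNReal.ofReal r *
      (Metric.cthickening ε (Mp p t) \ Mp p t).indicator (fun _ => 1) (perim_pl r φ) := by
      have hsub : Set.Ioc R (R + k * ε) ⊆ Set.Ioi (0:ℝ) := fun r hr => lt_trans hR0 hr.1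
      calc ENNReal.ofReal (R * k) * ENNReal.ofReal ε
          = ENNReal.ofReal R * ENNReal.ofReal (k * ε) := by
            rw [← ENNReal.ofReal_mul (by positivity), ← ENNReal.ofReal_mul hR0.le, mul_assoc]
        _ = ∫⁻ r in Set.Ioc R (R + k * ε), ENNReal.ofReal R := by
            rw [setLIntegral_const, Real.volume_Ioc]
            congr 2
            ring
        _ ≤ ∫⁻ r in Set.Ioc R (R + k * ε), ENNReal.ofReal r *
            (Metric.cthickening ε (Mp p t) \ Mp p t).indicator (fun _ => 1) (perim_pl r φ) := by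
            refine setLIntegral_mono_ae' measurableSet_Ioc (Eventually.of_forall fun r hr => ?_)
            have h7 := hε (r - R) (by linarith [hr.1]) (by linarith [hr.2])
            rw [add_sub_cancel] at h7
            rw [Set.indicator_of_mem h7, mul_one]
            exact ENNReal.ofReal_le_ofReal hr.1.le
        _ ≤ _ := lintegral_mono_set hsub
    show ENNReal.ofReal (R * k) ≤ f ε φ
    rw [ENNReal.le_div_iff_mul_le (Or.inl (by simpa using hε0)) (Or.inl ENNReal.ofReal_ne_top)]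
    exact h6
  have hlim : Tendsto (fun k => ENNReal.ofReal (R * k)) (𝓝[<] l) (𝓝 (ENNReal.ofReal (R * l))) := by
    have hc : Continuous (fun k : ℝ => ENNReal.ofReal (R * k)) :=
      ENNReal.continuous_ofReal.comp (continuous_const.mul continuous_id)
    exact hc.continuousAt.tendsto.mono_left nhdsWithin_le_nhds
  have hev : ∀ᶠ k in 𝓝[<] l, ENNReal.ofReal (R * k) ≤ liminf (fun ε => f ε φ) (𝓝[>] 0) := by
    have h6 : ∀ᶠ k in 𝓝[<] l, 0 < k :=
      Filter.Eventually.filter_mono nhdsWithin_le_nhds (lt_mem_nhds hl0)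
    filter_upwards [h6, self_mem_nhdsWithin] with k hk hkl
    exact key k hk hkl
  exact le_of_tendsto hlim hev

end Pool.Agent.Lib_helper15.STE
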