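import Pool.Agent.Lib_helper15.STE.DefsG

/-! # STE, block pln : planes -/

open MeasureTheory Filter Topology
open scoped InnerProductSpace

namespace Pool.Agent.Lib_helper15.STE

theorem pln_emb_add (t : ℝ) (y z : E2) : emb t (y + z) = emb t y + emb 0 z := by
  ext i
  fin_cases i <;> simp [emb]

theorem pln_emb_zero_add (y z : E2) : emb 0 (y + z) = emb 0 y + emb 0 z := by
  ext i
  fin_cases i <;> simp [emb]

theorem pln_emb_zero_smul (a : ℝ) (y : E2) : emb 0 (a • y) = a • emb 0 y := by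
  ext i
  fin_cases i <;> simp [emb]

theorem pln_emb_smul (a t : ℝ) (y : E2) : emb (a * t) (a • y) = a • emb t y := by
  ext i
  fin_cases i <;> simp [emb]

theorem pln_norm (y : E2) : ‖emb 0 y‖ = ‖y‖ := by
  rw [EuclideanSpace.norm_eq, EuclideanSpace.norm_eq]
  simp [emb, Fin.sum_univ_succ]

theorem pln_main (p : E3 → ℝ) (c : E3) (r : ℝ) (hr : 0 < r) (g : E3 ≃ₗᵢ[ℝ] E3) (t : ℝ) :
    ∃ P : E2 →ᵃⁱ[ℝ] E3,
      P ⁻¹' ((fun x => c + r • x) '' Kp p) = (fun y => (0 : E2) + r • y) '' Mp (p ∘ g) t := by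
  let L : E2 →ₗ[ℝ] E3 :=
    { toFun := fun y => g (emb 0 y)
      map_add' := fun y z => by rw [pln_emb_zero_add, map_add]
      map_smul' := fun a y => by rw [pln_emb_zero_smul, map_smul]; rfl }
  let P : E2 →ᵃⁱ[ℝ] E3 :=
    { toFun := fun y => c + g (emb (r * t) y)
      linear := L
      map_vadd' := fun y z => by
        change c + g (emb (r * t) (z + y)) = g (emb 0 z) + (c + g (emb (r * t) y))
        rw [add_comm z y, pln_emb_add, map_add]
        abel
      norm_map := fun y => by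
        change ‖g (emb 0 y)‖ = ‖y‖
        rw [g.norm_map, pln_norm] }
  refine ⟨P, ?_⟩
  ext y
  change c + g (emb (r * t) y) ∈ (fun x => c + r • x) '' Kp p ↔ _
  constructor
  · rintro ⟨x, hx, e⟩
    have e' : r • x = g (emb (r * t) y) := add_left_cancel (a := c) e
    refine ⟨r⁻¹ • y, ?_, ?_⟩
    · change p (g (emb t (r⁻¹ • y))) ≤ 1
      have h1 : emb (r * t) y = r • emb t (r⁻¹ • y) := by
        rw [← pln_emb_smul, smul_inv_smul₀ hr.ne']
      rw [h1, map_smul] at e'
      have h2 : x = g (emb t (r⁻¹ • y)) := smul_right_injective E3 hr.ne' e'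
      rw [← h2]
      exact hx
    · change (0 : E2) + r • r⁻¹ • y = y
      rw [zero_add, smul_inv_smul₀ hr.ne']
  · rintro ⟨z, hz, rfl⟩
    refine ⟨g (emb t z), hz, ?_⟩
    change c + r • g (emb t z) = c + g (emb (r * t) ((0 : E2) + r • z))
    rw [zero_add, pln_emb_smul, map_smul]

end Pool.Agent.Lib_helper15.STE
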