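import Pool.Agent.Lib_helper15.STE.DefsG
import Pool.Agent.Lib_helper15.STE.B.rad
import Pool.Agent.Lib_helper15.STE.B.gauA
import Pool.Agent.Lib_helper15.STE.B.gauF

/-! # STE, block ptw : pointwise estimate of the integrand -/

open MeasureTheory Filter Topology
open scoped InnerProductSpace

namespace Pool.Agent.Lib_helper15.STE

/-- the elementary inequality -/
lemma ptw_alg (κ ε s q P d : ℝ) (hκ : 0 < κ) (hκ1 : κ < 1) (hε : 0 < ε) (hε1 : ε < 1)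
    (hs : s = ε * √κ / 40) (hq : √κ / 2 ≤ q) (hP : 1 - s ^ 2 ≤ P) (hd0 : 0 ≤ d)
    (hd : d ≤ q + 3 * s) : (1 - ε) * d ^ 2 ≤ q ^ 2 * P ^ 2 := by
  have hκs : 0 < √κ := Real.sqrt_pos.mpr hκ
  have hκs1 : √κ ≤ 1 := by
    rw [← Real.sqrt_one]
    exact Real.sqrt_le_sqrt hκ1.le
  have hq0 : 0 < q := lt_of_lt_of_le (by positivity) hq
  have hs0 : 0 < s := by rw [hs]; positivity
  have hse : 3 * s ≤ (3 / 20) * ε * q := by
    rw [hs]
    nlinarith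
  have h1 : d ≤ q * (1 + (3 / 20) * ε) := by linarith
  have h2 : d ^ 2 ≤ q ^ 2 * (1 + (3 / 20) * ε) ^ 2 := by
    rw [← mul_pow]
    exact pow_le_pow_left₀ hd0 h1 2
  have hs2 : s ^ 2 ≤ ε / 1600 := by
    rw [hs]
    have h3 : (ε * √κ / 40) ^ 2 = ε ^ 2 * (√κ) ^ 2 / 1600 := by ring
    rw [h3, Real.sq_sqrt hκ.le]
    have h4 : ε ^ 2 * κ ≤ ε := by nlinarith
    linarith
  have hP0 : 0 ≤ 1 - ε / 1600 := by linarith
  have h5 : (1 - ε / 1600) ^ 2 ≤ P ^ 2 := pow_le_pow_left₀ hP0 (by linarith) 2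
  have h6 : (1 - ε) * (1 + (3 / 20) * ε) ^ 2 ≤ (1 - ε / 1600) ^ 2 := by
    nlinarith [mul_pos hε hε, mul_pos (mul_pos hε hε) hε]
  calc (1 - ε) * d ^ 2 ≤ (1 - ε) * (q ^ 2 * (1 + (3 / 20) * ε) ^ 2) :=
        mul_le_mul_of_nonneg_left h2 (by linarith)
    _ = q ^ 2 * ((1 - ε) * (1 + (3 / 20) * ε) ^ 2) := by ring
    _ ≤ q ^ 2 * (1 - ε / 1600) ^ 2 := mul_le_mul_of_nonneg_left h6 (sq_nonneg q)
    _ ≤ q ^ 2 * P ^ 2 := mul_le_mul_of_nonneg_left h5 (sq_nonneg q)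

lemma ptw_norm_pt (τ φ : ℝ) (h : |τ| ≤ 1) : ‖pt τ φ‖ = 1 := by
  have h1 : 0 ≤ 1 - τ ^ 2 := by
    have := sq_abs τ
    nlinarith [abs_nonneg τ]
  rw [EuclideanSpace.norm_eq, Real.sqrt_eq_one]
  simp only [pt, Fin.sum_univ_three, Real.norm_eq_abs, sq_abs]
  simp
  rw [mul_pow, mul_pow, Real.sq_sqrt h1]
  have := Real.sin_sq_add_cos_sq φ
  nlinarith

theorem ptw_main (κ ε : ℝ) (hκ : 0 < κ) (hκ1 : κ < 1) (hε : 0 < ε) (hε1 : ε < 1) :
    ∃ η : ℝ, 0 < η ∧ η ≤ κ / 4 ∧ ∀ p : E3 → ℝ, Gau p η → ∀ t φ : ℝ, |t| ≤ 1 - κ →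
      DifferentiableAt ℝ p (pt (Sp p t φ) φ) →
      √(Rr p t φ ^ 2 + (1 - ε) * XX (e 2) (FF p) (pt (Sp p t φ) φ) ^ 2 / Rr p t φ ^ 2)
        ≤ Lam p t φ := by
  have hκs : 0 < √κ := Real.sqrt_pos.mpr hκ
  set s : ℝ := ε * √κ / 40 with hs
  have hs0 : 0 < s := by positivity
  have hs2 : s ^ 2 = ε ^ 2 * κ / 1600 := by
    rw [hs, div_pow, mul_pow, Real.sq_sqrt hκ.le]
    norm_num
  have hη4 : s ^ 2 ≤ κ / 4 := by
    rw [hs2]
    have h1 : ε ^ 2 ≤ 1 := pow_le_one₀ hε.le hε1.le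
    have : ε ^ 2 * κ ≤ 1 * κ := mul_le_mul_of_nonneg_right h1 hκ.le
    linarith
  have hη14 : s ^ 2 ≤ 1 / 4 := by linarith
  have hη0 : 0 ≤ s ^ 2 := sq_nonneg s
  refine ⟨s ^ 2, by positivity, hη4, ?_⟩
  intro p hp t φ ht hdiff
  obtain ⟨hR0, hR1, -, -⟩ := rad_bounds p (s ^ 2) κ hp hη0 hκ hκ1 hη4 t φ ht
  obtain ⟨hS, -, hNP, hRN, -⟩ := rad_dir p (s ^ 2) κ hp hη0 hκ hκ1 hη4 t φ ht
  have hu := ptw_norm_pt (Sp p t φ) φ hS.le
  have hnear := gauA_near p (s ^ 2) hp hη0 hη14 _ hu hdiff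
  have hfd := gauF_fderiv p (s ^ 2) hp hη14 _ hu hdiff
  have hPlo := hp.lo (pt (Sp p t φ) φ)
  rw [hu, mul_one] at hPlo
  unfold Lam XX
  set u := pt (Sp p t φ) φ with hudef
  set P := p u with hPdef
  set R := Rr p t φ with hRdef
  set S := Sp p t φ with hSdef
  set N := √(R ^ 2 + t ^ 2) with hN
  set q := √(1 - S ^ 2) with hq
  have hP0 : 0 < P := by linarith
  have hS1 : 0 < 1 - S ^ 2 := by
    have h1 := sq_abs S
    have h2 : |S| ^ 2 < 1 := by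
      have := abs_nonneg S
      nlinarith
    linarith
  have hq0 : 0 < q := Real.sqrt_pos.mpr hS1
  have hRP : R * P = q := by
    calc R * P = (N * q) * P := by rw [← hRN]
      _ = (N * P) * q := by ring
      _ = q := by rw [hNP, one_mul]
  have hP34 : 3 / 4 ≤ P := by linarith
  have hq2 : √κ / 2 ≤ q := by
    apply le_of_sq_le_sq _ hq0.le
    rw [div_pow, Real.sq_sqrt hκ.le, ← hRP, mul_pow]
    have h1 : (3 / 4 : ℝ) ^ 2 ≤ P ^ 2 := pow_le_pow_left₀ (by norm_num) hP34 2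
    calc κ / 2 ^ 2 ≤ κ / 2 * (3 / 4) ^ 2 := by nlinarith
      _ ≤ R ^ 2 * P ^ 2 := mul_le_mul hR1 h1 (by norm_num) (sq_nonneg R)
  -- the coordinate vectors
  set vr : E3 := !₂[Real.cos φ, Real.sin φ, 0] with hvr
  set vp : E3 := !₂[-Real.sin φ, Real.cos φ, 0] with hvp
  have hvr1 : ‖vr‖ = 1 := by
    rw [EuclideanSpace.norm_eq, Real.sqrt_eq_one]
    simp [hvr, Fin.sum_univ_three]
  have hin1 : ⟪u, vr⟫_ℝ = q := by
    simp only [hudef, hvr, pt, PiLp.inner_apply, Fin.sum_univ_three]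
    simp
    have := Real.sin_sq_add_cos_sq φ
    linear_combination q * this
  have hin2 : ⟪u, vp⟫_ℝ = 0 := by
    simp only [hudef, hvp, pt, PiLp.inner_apply, Fin.sum_univ_three]
    simp
    ring
  have hcr : cr (e 2) u = q • vp := by
    ext i
    fin_cases i <;> simp [cr, e, hudef, hvp, pt, hq]
  set dr := fderiv ℝ p u vr with hdr
  set dp := fderiv ℝ p u vp with hdp
  have hdrn := hnear vr
  rw [← hdr, hin1, hvr1, mul_one, Real.sqrt_sq hs0.le, abs_le] at hdrn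
  have hdr0 : 0 < dr := by
    have h1 : 3 * s < √κ / 2 := by
      rw [hs]
      nlinarith
    linarith [hdrn.1]
  have hkey := ptw_alg κ ε s q P dr hκ hκ1 hε hε1 hs hq2 hPlo hdr0.le (by linarith [hdrn.2])
  have hX : fderiv ℝ (FF p) u (cr (e 2) u) = -(q * dp / P ^ 3) := by
    rw [hcr, map_smul, hfd vp, hin2, ← hdp, smul_eq_mul]
    ring
  rw [hX]
  have hLam : R * √(1 + (dp / dr) ^ 2) = √(R ^ 2 * (1 + (dp / dr) ^ 2)) := by
    rw [Real.sqrt_mul (sq_nonneg R), Real.sqrt_sq hR0.le]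
  rw [hLam]
  apply Real.sqrt_le_sqrt
  have h1 : (1 - ε) * (-(q * dp / P ^ 3)) ^ 2 / R ^ 2 = (1 - ε) * dp ^ 2 / P ^ 4 := by
    rw [← hRP]
    field_simp
  have h2 : (1 - ε) * dp ^ 2 / P ^ 4 ≤ R ^ 2 * (dp / dr) ^ 2 := by
    rw [div_pow, ← mul_div_assoc, div_le_div_iff₀ (by positivity) (by positivity)]
    have h3 : q ^ 2 * P ^ 2 = R ^ 2 * P ^ 4 := by rw [← hRP]; ring
    rw [h3] at hkey
    nlinarith [mul_le_mul_of_nonneg_left hkey (sq_nonneg dp)]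
  rw [h1]
  linarith

end Pool.Agent.Lib_helper15.STE
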