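import Pool.Agent.Lib_helper15.STE.DefsG
import Pool.Agent.Lib_helper15.STE.B.rad
import Pool.Agent.Lib_helper15.STE.B.gauF
import Pool.Agent.Lib_helper15.STE.B.gauL
import Pool.Agent.Lib_helper15.STE.B.sigC

/-! # STE, block slp : the map `t ↦ Sp p t φ` -/

open MeasureTheory Filter Topology
open scoped InnerProductSpace

namespace Pool.Agent.Lib_helper15.STE

theorem slp_pt_lip (κ : ℝ) (hκ : 0 < κ) (hκ1 : κ < 1) (a b φ : ℝ) (ha : |a| ≤ 1) (hb : |b| ≤ 1)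
    (ha' : κ / 4 ≤ 1 - a ^ 2) (hb' : κ / 4 ≤ 1 - b ^ 2) :
    ‖pt a φ - pt b φ‖ ≤ 5 / κ * |a - b| := by
  have h1 : ‖pt a φ - pt b φ‖ ^ 2 = (√(1 - a ^ 2) - √(1 - b ^ 2)) ^ 2 + (a - b) ^ 2 := by
    rw [EuclideanSpace.norm_sq_eq, Fin.sum_univ_three]
    simp only [pt, PiLp.sub_apply, Real.norm_eq_abs, sq_abs]
    simp only [Matrix.cons_val_zero, Matrix.cons_val_one, Matrix.cons_val]
    have h2 := Real.cos_sq_add_sin_sq φ
    linear_combination (√(1 - a ^ 2) - √(1 - b ^ 2)) ^ 2 * h2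
  set u := √(1 - a ^ 2) with hu
  set v := √(1 - b ^ 2) with hv
  have hu0 : 0 ≤ u := Real.sqrt_nonneg _
  have hv0 : 0 ≤ v := Real.sqrt_nonneg _
  have hu2 : u ^ 2 = 1 - a ^ 2 := Real.sq_sqrt (by linarith)
  have hv2 : v ^ 2 = 1 - b ^ 2 := Real.sq_sqrt (by linarith)
  -- `(u + v) ^ 2 ≥ κ`
  have huv : κ ≤ (u + v) ^ 2 := by
    have h3 : κ / 4 ≤ u * v := by
      have h4 : (κ / 4) ^ 2 ≤ (u * v) ^ 2 := by
        rw [mul_pow, hu2, hv2]
        have := mul_le_mul ha' hb' (by positivity) (by linarith)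
        nlinarith [this]
      exact (abs_le_of_sq_le_sq' h4 (by positivity)).2
    nlinarith
  have hab : (a + b) ^ 2 ≤ 4 := by
    have h5 := abs_le.mp ha
    have h6 := abs_le.mp hb
    nlinarith [h5.1, h5.2, h6.1, h6.2]
  have h7 : (u - v) * (u + v) = -(a - b) * (a + b) := by nlinarith
  have h8 : κ * (u - v) ^ 2 ≤ 4 * (a - b) ^ 2 := by
    have h9 : (u - v) ^ 2 * (u + v) ^ 2 = (a - b) ^ 2 * (a + b) ^ 2 := by
      calc (u - v) ^ 2 * (u + v) ^ 2 = ((u - v) * (u + v)) ^ 2 := by ring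
        _ = (-(a - b) * (a + b)) ^ 2 := by rw [h7]
        _ = _ := by ring
    have h10 : (u - v) ^ 2 * κ ≤ (u - v) ^ 2 * (u + v) ^ 2 :=
      mul_le_mul_of_nonneg_left huv (sq_nonneg _)
    have h11 : (a - b) ^ 2 * (a + b) ^ 2 ≤ (a - b) ^ 2 * 4 :=
      mul_le_mul_of_nonneg_left hab (sq_nonneg _)
    linarith
  have h12 : ‖pt a φ - pt b φ‖ ^ 2 ≤ (5 / κ * |a - b|) ^ 2 := by
    rw [h1, mul_pow, sq_abs, div_pow]
    rw [div_mul_eq_mul_div, le_div_iff₀ (by positivity)]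
    have h13 : 0 ≤ (a - b) ^ 2 := sq_nonneg _
    have h14 : κ * (κ * (u - v) ^ 2) ≤ 1 * (4 * (a - b) ^ 2) :=
      mul_le_mul hκ1.le h8 (by positivity) zero_le_one
    nlinarith [mul_le_mul_of_nonneg_right (show κ ^ 2 ≤ 1 by nlinarith) h13]
  exact (abs_le_of_sq_le_sq' h12 (by positivity)).2

/-- the data of one height -/
theorem slp_data (κ : ℝ) (hκ : 0 < κ) (hκ1 : κ < 1) (p : E3 → ℝ) (η : ℝ) (hp : Gau p η)
    (h0 : 0 ≤ η) (h1 : η ≤ κ / 4) (φ t : ℝ) (ht : |t| ≤ 1 - κ) :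
    ∃ N : ℝ, 1 - 4 * η ≤ N ∧ N ≤ 1 + 4 * η ∧ 0 < N ∧ t = Sp p t φ * N ∧
      N ^ 2 = 1 + 2 * FF p (pt (Sp p t φ) φ) ∧ |Sp p t φ| ≤ 1 ∧ κ / 4 ≤ 1 - Sp p t φ ^ 2 ∧
      κ / 4 ≤ 1 - t ^ 2 ∧ |FF p (pt (Sp p t φ) φ)| ≤ 2 * η := by
  have hη : η ≤ 1 / 4 := by linarith
  obtain ⟨hS, -, -, hR, hR2⟩ := rad_dir p η κ hp h0 hκ hκ1 h1 t φ ht
  obtain ⟨hR0, hRk, -, -⟩ := rad_bounds p η κ hp h0 hκ hκ1 h1 t φ ht
  set S := Sp p t φ with hSdef
  set R := Rr p t φ with hRdef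
  have hF : |FF p (pt S φ)| ≤ 2 * η := by
    refine gauF_bound p η hp h0 hη _ ?_
    intro h
    have := sigC_pt_norm S φ hS.le
    rw [h, norm_zero] at this
    exact zero_ne_one this
  have hF' := abs_le.mp hF
  set N := √(R ^ 2 + t ^ 2) with hN
  have hN2 : N ^ 2 = R ^ 2 + t ^ 2 := Real.sq_sqrt (by positivity)
  have hN0 : 0 < N := Real.sqrt_pos.mpr (by positivity)
  have hN3 : N ^ 2 = 1 + 2 * FF p (pt S φ) := by rw [hN2, hR2]; ring
  have ht2 := abs_le.mp ht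
  have hSt : t = S * N := by
    rw [hSdef, Sp, ← hRdef, ← hN]
    field_simp
  have hlo : 1 - 4 * η ≤ N := by
    by_contra hcon
    push Not at hcon
    nlinarith [hF'.1, hF'.2]
  have hhi : N ≤ 1 + 4 * η := by
    by_contra hcon
    push Not at hcon
    nlinarith [hF'.1, hF'.2]
  have hS2 : κ / 4 ≤ 1 - S ^ 2 := by
    have h2 : R ^ 2 = N ^ 2 * (1 - S ^ 2) := by
      rw [mul_sub, mul_one, ← mul_pow, mul_comm N S, ← hSt, hN2]
      ring
    have h3 : N ^ 2 ≤ 2 := by rw [hN3]; linarith [hF'.2]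
    have h4 : 0 ≤ 1 - S ^ 2 := by
      have := abs_le.mp hS.le
      nlinarith
    nlinarith
  refine ⟨N, hlo, hhi, hN0, hSt, hN3, hS.le, hS2, ?_, hF⟩
  nlinarith [ht2.1, ht2.2]

theorem slp_main (κ ε : ℝ) (hκ : 0 < κ) (hκ1 : κ < 1) (hε : 0 < ε) (hε1 : ε < 1) :
    ∃ η : ℝ, 0 < η ∧ η ≤ κ / 4 ∧ ∀ p : E3 → ℝ, Gau p η → ∀ φ : ℝ,
      (∀ t, |t| ≤ 1 - κ → |Sp p t φ - t| ≤ ε ∧
        |FF p (pt (Sp p t φ) φ) - FF p (pt t φ)| ≤ ε * |FF p (pt t φ)|) ∧
      (∀ t t', |t| ≤ 1 - κ → |t'| ≤ 1 - κ →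
        |Sp p t φ - Sp p t' φ| ≤ (1 + ε) * |t - t'| ∧ |t - t'| ≤ 2 * |Sp p t φ - Sp p t' φ|) := by
  have hs0 : 0 < ε * κ / 800 := by positivity
  have hek : ε * κ ≤ 1 := by nlinarith
  have hek' : ε * κ ≤ ε := by nlinarith
  have hek'' : ε * κ ≤ κ := by nlinarith
  have hle : (ε * κ / 800) ^ 2 ≤ ε * κ / 800 := by nlinarith
  refine ⟨(ε * κ / 800) ^ 2, by positivity, by linarith, ?_⟩
  intro p hp φ
  set η := (ε * κ / 800) ^ 2 with hη
  have h0 : 0 ≤ η := by positivity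
  have h1 : η ≤ κ / 4 := by linarith
  have h14 : η ≤ 1 / 4 := by linarith
  have h4e : 4 * η ≤ ε / 8 := by linarith
  have hsq : √η = ε * κ / 800 := by rw [hη]; exact Real.sqrt_sq hs0.le
  have hθ : 20 * √η * (5 / κ) = ε / 8 := by
    rw [hsq]
    field_simp
    norm_num
  -- the Lipschitz bound along a meridian
  have hL : ∀ a b : ℝ, |a| ≤ 1 → |b| ≤ 1 → κ / 4 ≤ 1 - a ^ 2 → κ / 4 ≤ 1 - b ^ 2 →
      |FF p (pt a φ) - FF p (pt b φ)| ≤ ε / 8 * |a - b| := by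
    intro a b ha hb ha' hb'
    have h2 := gauL_lip p η hp h0 h14 (pt a φ) (pt b φ) (sigC_pt_norm a φ ha)
      (sigC_pt_norm b φ hb)
    have h3 := slp_pt_lip κ hκ hκ1 a b φ ha hb ha' hb'
    calc |FF p (pt a φ) - FF p (pt b φ)| ≤ 20 * √η * ‖pt a φ - pt b φ‖ := h2
      _ ≤ 20 * √η * (5 / κ * |a - b|) := by gcongr
      _ = 20 * √η * (5 / κ) * |a - b| := by ring
      _ = ε / 8 * |a - b| := by rw [hθ]
  constructor
  · intro t ht
    obtain ⟨N, hlo, hhi, hN0, hSt, hN2, hS1, hS2, ht2, hF⟩ :=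
      slp_data κ hκ hκ1 p η hp h0 h1 φ t ht
    set S := Sp p t φ with hS
    have ht1 : |t| ≤ 1 := by linarith
    -- `|S - t| ≤ 2 |F(pt S)|`
    have h2 : |S - t| ≤ 2 * |FF p (pt S φ)| := by
      have h3 : |N - 1| ≤ 2 * |FF p (pt S φ)| := by
        have h4 : (N - 1) * (N + 1) = 2 * FF p (pt S φ) := by linear_combination hN2
        have h5 : |N - 1| * |N + 1| = 2 * |FF p (pt S φ)| := by
          rw [← abs_mul, h4, abs_mul]
          norm_num
        have h6 : 1 ≤ |N + 1| := by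
          rw [abs_of_pos (by linarith)]
          linarith
        nlinarith [abs_nonneg (N - 1)]
      have h7 : S - t = -(S * (N - 1)) := by
        conv_lhs => rw [hSt]
        ring
      rw [h7, abs_neg, abs_mul]
      calc |S| * |N - 1| ≤ 1 * |N - 1| := by gcongr
        _ = |N - 1| := one_mul _
        _ ≤ _ := h3
    constructor
    · linarith
    · have h3 := hL S t hS1 ht1 hS2 ht2
      have h4 : |FF p (pt S φ) - FF p (pt t φ)| ≤ ε / 4 * |FF p (pt S φ)| := by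
        calc _ ≤ ε / 8 * |S - t| := h3
          _ ≤ ε / 8 * (2 * |FF p (pt S φ)|) := by gcongr
          _ = _ := by ring
      have h5 : |FF p (pt S φ)| ≤ |FF p (pt t φ)| + |FF p (pt S φ) - FF p (pt t φ)| := by
        have := abs_add_le (FF p (pt t φ)) (FF p (pt S φ) - FF p (pt t φ))
        simpa using this
      have h6 : |FF p (pt S φ)| ≤ 2 * |FF p (pt t φ)| := by
        nlinarith [abs_nonneg (FF p (pt S φ))]
      nlinarith [abs_nonneg (FF p (pt t φ))]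
  · intro t t' ht ht'
    obtain ⟨N, hlo, hhi, hN0, hSt, hN2, hS1, hS2, -, hF⟩ :=
      slp_data κ hκ hκ1 p η hp h0 h1 φ t ht
    obtain ⟨N', hlo', hhi', hN0', hSt', hN2', hS1', hS2', -, hF'⟩ :=
      slp_data κ hκ hκ1 p η hp h0 h1 φ t' ht'
    set S := Sp p t φ with hS
    set S' := Sp p t' φ with hS'
    have h3 := hL S S' hS1 hS1' hS2 hS2'
    have h4 : |N - N'| ≤ ε / 4 * |S - S'| := by
      have h5 : (N - N') * (N + N') = 2 * (FF p (pt S φ) - FF p (pt S' φ)) := by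
        linear_combination hN2 - hN2'
      have h6 : |N - N'| * |N + N'| = 2 * |FF p (pt S φ) - FF p (pt S' φ)| := by
        rw [← abs_mul, h5, abs_mul]
        norm_num
      have h7 : 1 ≤ |N + N'| := by
        rw [abs_of_pos (by linarith)]
        linarith
      nlinarith [abs_nonneg (N - N')]
    have h5 : t - t' = N * (S - S') + S' * (N - N') := by
      conv_lhs => rw [hSt, hSt']
      ring
    have h6 : |S' * (N - N')| ≤ ε / 4 * |S - S'| := by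
      rw [abs_mul]
      calc |S'| * |N - N'| ≤ 1 * |N - N'| := by gcongr
        _ ≤ _ := by rw [one_mul]; exact h4
    have h7 : |N * (S - S')| = N * |S - S'| := by rw [abs_mul, abs_of_pos hN0]
    have hx := abs_nonneg (S - S')
    constructor
    · have h8 : N * |S - S'| ≤ |t - t'| + ε / 4 * |S - S'| := by
        have h9 : N * (S - S') = (t - t') - S' * (N - N') := by rw [h5]; ring
        have h10 := abs_sub (t - t') (S' * (N - N'))
        rw [← h9, h7] at h10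
        linarith
      have h11 : (1 - ε / 2) * |S - S'| ≤ |t - t'| := by nlinarith
      have h12 : (1 + ε) * ((1 - ε / 2) * |S - S'|) ≤ (1 + ε) * |t - t'| :=
        mul_le_mul_of_nonneg_left h11 (by linarith)
      have h13 : 0 ≤ (ε / 2 - ε ^ 2 / 2) * |S - S'| :=
        mul_nonneg (by nlinarith) hx
      nlinarith
    · have h8 : |t - t'| ≤ N * |S - S'| + ε / 4 * |S - S'| := by
        rw [h5]
        have h10 := abs_add_le (N * (S - S')) (S' * (N - N'))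
        rw [h7] at h10
        linarith
      have h13 : 0 ≤ (2 - N - ε / 4) * |S - S'| :=
        mul_nonneg (by linarith) hx
      linarith

end Pool.Agent.Lib_helper15.STE
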