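import Pool.Agent.Lib_helper15.STE.DefsG
import Pool.Agent.Lib_helper15.STE.B.sigA
import Pool.Agent.Lib_helper15.STE.B.gauA
import Pool.Agent.Lib_helper15.STE.B.gauF

/-! # STE, block surf : upper bound for the surface area -/

open MeasureTheory Filter Topology
open scoped InnerProductSpace

namespace Pool.Agent.Lib_helper15.STE

theorem surf_compact (p : E3 → ℝ) (η : ℝ) (hp : Gau p η) (h0 : 0 ≤ η) (h1 : η ≤ 1 / 4) :
    IsCompact (Kp p) := by
  apply Metric.isCompact_of_isClosed_isBounded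
  · exact isClosed_le (gauA_lip p η hp h0 h1).continuous continuous_const
  · apply (Metric.isBounded_closedBall (x := (0:E3)) (r := 4 / 3)).subset
    intro x hx
    have h2 := hp.lo x
    have h3 : p x ≤ 1 := hx
    rw [mem_closedBall_zero_iff]
    nlinarith [norm_nonneg x]

theorem surf_near (p : E3 → ℝ) (η : ℝ) (hp : Gau p η) (h0 : 0 ≤ η) (h1 : η ≤ 1 / 4)
    (ε : ℝ) (hε : 0 ≤ ε) (x : E3) (hx : x ∈ Metric.cthickening ε (Kp p))
    (hd : DifferentiableAt ℝ p x) : p x ≤ 1 + ε * ‖fderiv ℝ p x‖ := by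
  rw [(surf_compact p η hp h0 h1).cthickening_eq_biUnion_closedBall hε] at hx
  obtain ⟨y, hy, hxy⟩ := Set.mem_iUnion₂.mp hx
  have h2 := gauA_subgrad p η hp x hd y
  have h3 := (fderiv ℝ p x).le_opNorm (y - x)
  rw [Real.norm_eq_abs] at h3
  have h4 := neg_abs_le (fderiv ℝ p x (y - x))
  have h5 : ‖y - x‖ ≤ ε := by
    rw [← dist_eq_norm, dist_comm]
    exact hxy
  have h6 : ‖fderiv ℝ p x‖ * ‖y - x‖ ≤ ‖fderiv ℝ p x‖ * ε :=
    mul_le_mul_of_nonneg_left h5 (norm_nonneg _)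
  have h7 : p y ≤ 1 := hy
  linarith

theorem surf_inner (p : E3 → ℝ) (η : ℝ) (hp : Gau p η) (h0 : 0 ≤ η) (h1 : η ≤ 1 / 4)
    (ε : ℝ) (hε : 0 < ε) (hε1 : ε ≤ 1) (u : E3) (hu : ‖u‖ = 1) :
    ∫⁻ r in Set.Ioi (0:ℝ), ENNReal.ofReal (r ^ 2) *
      ({x : E3 | 1 < p x ∧ p x ≤ 1 + ε * ‖fderiv ℝ p x‖}.indicator 1 (r • u)) ≤
    ENNReal.ofReal (ε * (‖fderiv ℝ p u‖ / p u ^ 3 + 15 * ε)) := by
  have hu0 : u ≠ 0 := by
    intro h
    rw [h, norm_zero] at hu
    exact zero_ne_one hu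
  have hpu : 0 < p u := gauA_pos p η hp h1 u hu0
  have hplo : 3 / 4 ≤ p u := by
    have := hp.lo u
    rw [hu] at this
    linarith
  set N := ‖fderiv ℝ p u‖ with hN
  have hN0 : 0 ≤ N := norm_nonneg _
  have hN1 : N ≤ 5 / 4 := (gauA_norm p η hp h0 u).trans (by linarith)
  have hb : ∀ r ∈ Set.Ioi (0:ℝ), ENNReal.ofReal (r ^ 2) *
      ({x : E3 | 1 < p x ∧ p x ≤ 1 + ε * ‖fderiv ℝ p x‖}.indicator 1 (r • u)) ≤
      (Set.Ioc (1 / p u) ((1 + ε * N) / p u)).indicator
        (fun _ => ENNReal.ofReal (((1 + ε * N) / p u) ^ 2)) r := by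
    intro r hr
    have hr0 : (0:ℝ) < r := hr
    by_cases hmem : r • u ∈ {x : E3 | 1 < p x ∧ p x ≤ 1 + ε * ‖fderiv ℝ p x‖}
    · have h2 : 1 < p (r • u) ∧ p (r • u) ≤ 1 + ε * ‖fderiv ℝ p (r • u)‖ := hmem
      rw [hp.hom _ _ hr0.le, (gauA_hom p η hp u r hr0).2, ← hN] at h2
      have h3 : r ∈ Set.Ioc (1 / p u) ((1 + ε * N) / p u) := by
        constructor
        · rw [div_lt_iff₀ hpu]
          exact h2.1
        · rw [le_div_iff₀ hpu]
          exact h2.2
      rw [Set.indicator_of_mem hmem, Set.indicator_of_mem h3, Pi.one_apply, mul_one]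
      apply ENNReal.ofReal_le_ofReal
      exact pow_le_pow_left₀ hr0.le h3.2 2
    · rw [Set.indicator_of_notMem hmem, mul_zero]
      exact zero_le
  refine (setLIntegral_mono' measurableSet_Ioi hb).trans ?_
  refine (setLIntegral_le_lintegral _ _).trans ?_
  rw [lintegral_indicator measurableSet_Ioc, setLIntegral_const, Real.volume_Ioc,
    ← ENNReal.ofReal_mul (by positivity)]
  apply ENNReal.ofReal_le_ofReal
  have e1 : ((1 + ε * N) / p u) ^ 2 * ((1 + ε * N) / p u - 1 / p u) =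
      ε * (N / p u ^ 3 * (1 + ε * N) ^ 2) := by
    field_simp
    ring
  rw [e1]
  apply mul_le_mul_of_nonneg_left _ hε.le
  have h4 : N / p u ^ 3 ≤ 3 := by
    rw [div_le_iff₀ (by positivity)]
    have : (3 / 4 : ℝ) ^ 3 ≤ p u ^ 3 := pow_le_pow_left₀ (by norm_num) hplo 3
    nlinarith
  have h5 : 0 ≤ N / p u ^ 3 := by positivity
  have h6 : (1 + ε * N) ^ 2 ≤ 1 + 5 * ε := by
    have h7 : ε * N ≤ ε * (5 / 4) := mul_le_mul_of_nonneg_left hN1 hε.le
    have h8 : 0 ≤ ε * N := by positivity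
    have h9 : (ε * N) ^ 2 ≤ (ε * (5 / 4)) ^ 2 := pow_le_pow_left₀ h8 h7 2
    nlinarith
  calc N / p u ^ 3 * (1 + ε * N) ^ 2 ≤ N / p u ^ 3 * (1 + 5 * ε) :=
        mul_le_mul_of_nonneg_left h6 h5
    _ = N / p u ^ 3 + N / p u ^ 3 * (5 * ε) := by ring
    _ ≤ N / p u ^ 3 + 3 * (5 * ε) := by
        have := mul_le_mul_of_nonneg_right h4 (show 0 ≤ 5 * ε by positivity)
        linarith
    _ = N / p u ^ 3 + 15 * ε := by ring

theorem surf_vol (p : E3 → ℝ) (η : ℝ) (hp : Gau p η) (h0 : 0 ≤ η) (h1 : η ≤ 1 / 4)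
    (ε : ℝ) (hε : 0 < ε) (hε1 : ε ≤ 1) :
    volume (Metric.cthickening ε (Kp p) \ Kp p) ≤ ENNReal.ofReal (4 * Real.pi) *
      ∫⁻ u, ENNReal.ofReal (ε * (‖fderiv ℝ p u‖ / p u ^ 3 + 15 * ε)) ∂sig := by
  have hpc : Continuous p := (gauA_lip p η hp h0 h1).continuous
  have hNm : Measurable fun x => ‖fderiv ℝ p x‖ := (measurable_fderiv ℝ p).norm
  have hA : MeasurableSet {x : E3 | 1 < p x ∧ p x ≤ 1 + ε * ‖fderiv ℝ p x‖} := by
    apply MeasurableSet.inter
    · exact measurableSet_lt measurable_const hpc.measurable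
    · exact measurableSet_le hpc.measurable ((hNm.const_mul ε).const_add 1)
  have h2 : volume (Metric.cthickening ε (Kp p) \ Kp p) ≤
      volume {x : E3 | 1 < p x ∧ p x ≤ 1 + ε * ‖fderiv ℝ p x‖} := by
    apply measure_mono_ae
    filter_upwards [(gauF_diff p η hp h0 h1).1] with x hx hmem
    refine ⟨?_, surf_near p η hp h0 h1 ε hε.le x hmem.1 hx⟩
    have : ¬ p x ≤ 1 := hmem.2
    exact not_le.mp this
  refine h2.trans ?_
  rw [← lintegral_indicator_one hA, sigA_polar _ (measurable_one.indicator hA)]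
  apply mul_le_mul_right
  apply lintegral_mono_ae
  filter_upwards [sigA_sphere] with u hu
  exact surf_inner p η hp h0 h1 ε hε hε1 u hu

theorem surf_le (p : E3 → ℝ) (η : ℝ) (hp : Gau p η) (h0 : 0 ≤ η) (h1 : η ≤ 1 / 4) :
    bd (Kp p) ≤ ENNReal.ofReal (4 * Real.pi *
      ∫ x, √((1 + 2 * FF p x) ^ 2 + ‖fderiv ℝ (FF p) x‖ ^ 2) ∂sig) := by
  have := sigA_prob
  have hpc : Continuous p := (gauA_lip p η hp h0 h1).continuous
  set G : E3 → ℝ := fun x => √((1 + 2 * FF p x) ^ 2 + ‖fderiv ℝ (FF p) x‖ ^ 2) with hG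
  have hG0 : ∀ x, 0 ≤ G x := fun x => Real.sqrt_nonneg _
  have hFm : Measurable (FF p) := by
    unfold FF
    exact ((((measurable_norm).div hpc.measurable).pow_const 2).sub_const 1).div_const 2
  have hGm : Measurable G := by
    apply Measurable.sqrt
    exact (((hFm.const_mul 2).const_add 1).pow_const 2).add
      (((measurable_fderiv ℝ (FF p)).norm).pow_const 2)
  have hGb : ∀ᵐ x ∂sig, ‖G x‖ ≤ 4 := by
    filter_upwards [sigA_sphere] with x hx
    have hx0 : x ≠ 0 := by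
      intro h
      rw [h, norm_zero] at hx
      exact zero_ne_one hx
    have h2 := gauF_bound p η hp h0 h1 x hx0
    have h3 := gauF_grad_bound p η hp h0 h1 x hx
    have h4 : √η ≤ 1 / 2 := by
      rw [Real.sqrt_le_left (by norm_num)]
      linarith
    rw [Real.norm_of_nonneg (hG0 x)]
    apply Real.sqrt_le_iff.mpr
    refine ⟨by norm_num, ?_⟩
    have h5 : ‖fderiv ℝ (FF p) x‖ ^ 2 ≤ (5 / 2) ^ 2 :=
      pow_le_pow_left₀ (norm_nonneg _) (by linarith) 2
    have h6 : |FF p x| ≤ 1 / 2 := by linarith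
    have h7 := abs_le.mp h6
    nlinarith
  have hGi : Integrable G sig :=
    (integrable_const (4:ℝ)).mono' hGm.aestronglyMeasurable hGb
  have hmain : ∀ᶠ ε : ℝ in 𝓝[>] (0:ℝ),
      volume (Metric.cthickening ε (Kp p) \ Kp p) / ENNReal.ofReal ε ≤
        ENNReal.ofReal (4 * Real.pi) * (∫⁻ x, ENNReal.ofReal (G x) ∂sig + ENNReal.ofReal (15 * ε)) := by
    filter_upwards [Ioc_mem_nhdsGT (zero_lt_one' ℝ)] with ε hε
    obtain ⟨hε0, hε1⟩ := hε
    have hε' : ENNReal.ofReal ε ≠ 0 := by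
      rw [ne_eq, ENNReal.ofReal_eq_zero, not_le]
      exact hε0
    rw [ENNReal.div_le_iff hε' ENNReal.ofReal_ne_top]
    refine (surf_vol p η hp h0 h1 ε hε0 hε1).trans ?_
    rw [mul_assoc]
    apply mul_le_mul_right
    have h2 : ∀ᵐ u ∂sig, ENNReal.ofReal (ε * (‖fderiv ℝ p u‖ / p u ^ 3 + 15 * ε)) ≤
        (ENNReal.ofReal (G u) + ENNReal.ofReal (15 * ε)) * ENNReal.ofReal ε := by
      filter_upwards [sigA_sphere] with u hu
      have hu0 : u ≠ 0 := by
        intro h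
        rw [h, norm_zero] at hu
        exact zero_ne_one hu
      have hpu : 0 < p u := gauA_pos p η hp h1 u hu0
      rw [← ENNReal.ofReal_add (hG0 u) (by positivity), mul_comm,
        ← ENNReal.ofReal_mul (by have := hG0 u; positivity)]
      apply ENNReal.ofReal_le_ofReal
      apply mul_le_mul_of_nonneg_right _ hε0.le
      apply add_le_add_left
      by_cases hd : DifferentiableAt ℝ p u
      · have h3 := gauF_grad_eq p η hp h1 u hu hd
        rw [div_le_iff₀ (by positivity)]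
        apply le_of_eq
        have h4 : ‖fderiv ℝ p u‖ ^ 2 = (G u * p u ^ 3) ^ 2 := by
          rw [h3, mul_pow, hG, Real.sq_sqrt (by positivity)]
          ring
        have h5 : 0 ≤ G u * p u ^ 3 := by
          have := hG0 u
          positivity
        exact (pow_left_inj₀ (norm_nonneg _) h5 two_ne_zero).mp h4
      · rw [fderiv_zero_of_not_differentiableAt hd, norm_zero, zero_div]
        exact hG0 u
    refine (lintegral_mono_ae h2).trans ?_
    have hm2 : Measurable fun u => ENNReal.ofReal (G u) + ENNReal.ofReal (15 * ε) :=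
      hGm.ennreal_ofReal.add measurable_const
    rw [lintegral_mul_const _ hm2,
      lintegral_add_right _ measurable_const, lintegral_const, measure_univ, mul_one]
  have hlim : Tendsto (fun ε : ℝ => ENNReal.ofReal (4 * Real.pi) *
      (∫⁻ x, ENNReal.ofReal (G x) ∂sig + ENNReal.ofReal (15 * ε))) (𝓝[>] (0:ℝ))
      (𝓝 (ENNReal.ofReal (4 * Real.pi) * (∫⁻ x, ENNReal.ofReal (G x) ∂sig + ENNReal.ofReal (15 * 0)))) := by
    apply Tendsto.mono_left _ nhdsWithin_le_nhds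
    apply ENNReal.Tendsto.const_mul _ (Or.inr ENNReal.ofReal_ne_top)
    apply Tendsto.const_add
    apply ENNReal.tendsto_ofReal
    exact (continuous_const.mul continuous_id).tendsto 0
  calc bd (Kp p) ≤ liminf (fun ε : ℝ => ENNReal.ofReal (4 * Real.pi) *
      (∫⁻ x, ENNReal.ofReal (G x) ∂sig + ENNReal.ofReal (15 * ε))) (𝓝[>] (0:ℝ)) :=
        liminf_le_liminf hmain
    _ = ENNReal.ofReal (4 * Real.pi) * (∫⁻ x, ENNReal.ofReal (G x) ∂sig + ENNReal.ofReal (15 * 0)) :=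
        hlim.liminf_eq
    _ = ENNReal.ofReal (4 * Real.pi * ∫ x, G x ∂sig) := by
        rw [mul_zero, ENNReal.ofReal_zero, add_zero,
          ENNReal.ofReal_mul (p := 4 * Real.pi) (by positivity),
          ofReal_integral_eq_lintegral_ofReal hGi (Eventually.of_forall hG0)]

end Pool.Agent.Lib_helper15.STE
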