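import Pool.Agent.Lib_helper15.STE.DefsG
import Pool.Agent.Lib_helper15.STE.B.sigA
import Pool.Agent.Lib_helper15.STE.B.sigC
import Pool.Agent.Lib_helper15.STE.B.admA
import Pool.Agent.Lib_helper15.STE.B.gauA
import Pool.Agent.Lib_helper15.STE.B.gauF
import Pool.Agent.Lib_helper15.STE.B.volK
import Pool.Agent.Lib_helper15.STE.B.surf
import Pool.Agent.Lib_helper15.STE.B.bdpos

/-! # STE, block vs : isoperimetric quotient of the body -/

open MeasureTheory Filter Topology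
open scoped InnerProductSpace

namespace Pool.Agent.Lib_helper15.STE

/-- the pointwise inequality for the volume -/
theorem vs_vol (η F : ℝ) (h0 : 0 < η) (h1 : η ≤ 1 / 100) (hF : |F| ≤ 2 * η) :
    1 + 3 * F + (3 / 2 - 12 * η) * F ^ 2 ≤ √(1 + 2 * F) ^ 3 := by
  have hF' := abs_le.1 hF
  have hpos : 0 < 1 + 2 * F := by linarith [hF'.1]
  set u := √(1 + 2 * F) with hu
  have hu0 : 0 < u := Real.sqrt_pos.2 hpos
  have hu2 : u ^ 2 = 1 + 2 * F := Real.sq_sqrt hpos.le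
  have hFu : F = (u ^ 2 - 1) / 2 := by linarith
  have hu1 : |u - 1| ≤ 4 * η := by
    have h3 : |u - 1| * (u + 1) ≤ 4 * η := by
      have h4 : |u - 1| * (u + 1) = |u ^ 2 - 1| := by
        have h5 : u ^ 2 - 1 = (u - 1) * (u + 1) := by ring
        rw [h5, abs_mul, abs_of_pos (by linarith : 0 < u + 1)]
      rw [h4, hu2]
      have h6 : 1 + 2 * F - 1 = 2 * F := by ring
      rw [h6, abs_mul, abs_of_pos (by norm_num : (0:ℝ) < 2)]
      linarith
    have h7 : 0 ≤ |u - 1| := abs_nonneg _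
    nlinarith
  obtain ⟨hl, hr⟩ := abs_le.1 hu1
  have key : (3 / 2 - 12 * η) * ((u + 1) ^ 2 / 4) ≤ u + 1 / 2 := by
    have h8 : (u + 1) ^ 2 / 4 ≤ 1 + 5 * η := by nlinarith
    have h9 : (3 / 2 - 12 * η) * ((u + 1) ^ 2 / 4) ≤ (3 / 2 - 12 * η) * (1 + 5 * η) :=
      mul_le_mul_of_nonneg_left h8 (by linarith)
    nlinarith
  have h10 : √(1 + 2 * F) ^ 3 - (1 + 3 * F + (3 / 2 - 12 * η) * F ^ 2)
      = (u - 1) ^ 2 * (u + 1 / 2 - (3 / 2 - 12 * η) * ((u + 1) ^ 2 / 4)) := by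
    rw [← hu, hFu]
    ring
  have h11 : 0 ≤ (u - 1) ^ 2 * (u + 1 / 2 - (3 / 2 - 12 * η) * ((u + 1) ^ 2 / 4)) :=
    mul_nonneg (sq_nonneg _) (by linarith)
  linarith

/-- the pointwise inequality for the surface -/
theorem vs_srf (η F B : ℝ) (h0 : 0 < η) (h1 : η ≤ 1 / 100) (hF : |F| ≤ 2 * η) (hB : 0 ≤ B) :
    √((1 + 2 * F) ^ 2 + B) ≤ 1 + 2 * F + (1 + 5 * η) / 2 * B := by
  have hF' := abs_le.1 hF
  have hpos : 0 < 1 + 2 * F := by linarith [hF'.1]
  have h2 : 0 ≤ 1 + 2 * F + (1 + 5 * η) / 2 * B := by positivity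
  rw [Real.sqrt_le_left h2]
  have h3 : 1 ≤ (1 + 2 * F) * (1 + 5 * η) := by nlinarith [hF'.1]
  have h4 : B ≤ (1 + 2 * F) * (1 + 5 * η) * B := by nlinarith
  nlinarith [sq_nonneg ((1 + 5 * η) / 2 * B)]

/-- the final inequality -/
theorem vs_fin (a b V S : ℝ) (ha : 0 ≤ a) (hb : 0 ≤ b) (hS : 0 < S)
    (hV : 4 * Real.pi / 3 * (1 + a) ≤ V) (hSb : S ≤ 4 * Real.pi * (1 + b)) :
    1 + 2 * a - 3 * b - 6 * a * b ≤ 36 * Real.pi * (V ^ 2 / S ^ 3) := by
  have hpi := Real.pi_pos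
  have h1 : (4 * Real.pi / 3 * (1 + a)) ^ 2 ≤ V ^ 2 :=
    pow_le_pow_left₀ (by positivity) hV 2
  have h2 : S ^ 3 ≤ (4 * Real.pi * (1 + b)) ^ 3 := pow_le_pow_left₀ hS.le hSb 3
  have h3 : (4 * Real.pi / 3 * (1 + a)) ^ 2 / (4 * Real.pi * (1 + b)) ^ 3 ≤ V ^ 2 / S ^ 3 :=
    div_le_div₀ (sq_nonneg _) h1 (by positivity) h2
  have h4 : 36 * Real.pi * ((4 * Real.pi / 3 * (1 + a)) ^ 2 / (4 * Real.pi * (1 + b)) ^ 3)
      = (1 + a) ^ 2 / (1 + b) ^ 3 := by
    field_simp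
    ring
  have h5 : 1 + 2 * a - 3 * b - 6 * a * b ≤ (1 + a) ^ 2 / (1 + b) ^ 3 := by
    rw [le_div_iff₀ (by positivity)]
    have h6 : (1 - 3 * b) * (1 + b) ^ 3 ≤ 1 := by
      have : (1 - 3 * b) * (1 + b) ^ 3 = 1 - 6 * b ^ 2 - 8 * b ^ 3 - 3 * b ^ 4 := by ring
      rw [this]
      have h7 : 0 ≤ b ^ 2 := by positivity
      have h8 : 0 ≤ b ^ 3 := by positivity
      have h9 : 0 ≤ b ^ 4 := by positivity
      linarith
    have h7 : (1 + 2 * a - 3 * b - 6 * a * b) * (1 + b) ^ 3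
        = (1 + 2 * a) * ((1 - 3 * b) * (1 + b) ^ 3) := by ring
    rw [h7]
    have h8 : (1 + 2 * a) * ((1 - 3 * b) * (1 + b) ^ 3) ≤ (1 + 2 * a) * 1 :=
      mul_le_mul_of_nonneg_left h6 (by linarith)
    nlinarith [sq_nonneg a]
  calc 1 + 2 * a - 3 * b - 6 * a * b ≤ (1 + a) ^ 2 / (1 + b) ^ 3 := h5
    _ = 36 * Real.pi * ((4 * Real.pi / 3 * (1 + a)) ^ 2 / (4 * Real.pi * (1 + b)) ^ 3) := h4.symm
    _ ≤ 36 * Real.pi * (V ^ 2 / S ^ 3) :=
        mul_le_mul_of_nonneg_left h3 (by positivity)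

theorem vs_main (ε : ℝ) (hε : 0 < ε) : ∃ η : ℝ, 0 < η ∧ η ≤ 1 / 4 ∧ ∀ p : E3 → ℝ, Gau p η →
    ∫ x, FF p x ∂sig = 0 →
    1 - DD (FF p) - ε * (GG (FF p) + ff (FF p)) ≤
      36 * Real.pi * ((volume (Kp p)).toReal ^ 2 / (bd (Kp p)).toReal ^ 3) := by
  refine ⟨min (1 / 100) (ε / 200), by positivity, (min_le_left _ _).trans (by norm_num), ?_⟩
  set η := min (1 / 100) (ε / 200) with hη
  have h0 : 0 < η := by positivity
  have h1 : η ≤ 1 / 100 := min_le_left _ _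
  have h2 : η ≤ ε / 200 := min_le_right _ _
  have h14 : η ≤ 1 / 4 := by linarith
  intro p hp hF0
  have hprob := sigA_prob
  set F := FF p with hF
  have hadm : Adm F := gauF_adm p η hp h0.le h14
  have hFm : Measurable F := admA_meas F hadm
  have hGm : Measurable (fun x => ‖fderiv ℝ F x‖ ^ 2) := (admA_meas_fderiv F).1
  have hne : ∀ x : E3, ‖x‖ = 1 → x ≠ 0 := by
    rintro x hx rfl
    rw [norm_zero] at hx
    exact zero_ne_one hx
  have hFb : ∀ x : E3, ‖x‖ = 1 → |F x| ≤ 2 * η := fun x hx =>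
    gauF_bound p η hp h0.le h14 x (hne x hx)
  have hGb : ∀ x : E3, ‖x‖ = 1 → ‖fderiv ℝ F x‖ ^ 2 ≤ 25 * η := by
    intro x hx
    have h3 := gauF_grad_bound p η hp h0.le h14 x hx
    calc ‖fderiv ℝ F x‖ ^ 2 ≤ (5 * √η) ^ 2 := pow_le_pow_left₀ (norm_nonneg _) h3 2
      _ = 25 * (√η) ^ 2 := by ring
      _ = 25 * η := by rw [Real.sq_sqrt h0.le]
  -- integrability
  have iF : Integrable F sig := (sigC_integral F hFm _ hFb).1
  have iF2 : Integrable (fun x => F x ^ 2) sig := by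
    refine (sigC_integral _ (hFm.pow_const 2) 1 fun x hx => ?_).1
    rw [abs_pow]
    exact pow_le_one₀ (abs_nonneg _) ((hFb x hx).trans (by linarith))
  have iG : Integrable (fun x => ‖fderiv ℝ F x‖ ^ 2) sig := by
    refine (sigC_integral _ hGm 1 fun x hx => ?_).1
    rw [abs_of_nonneg (sq_nonneg _)]
    exact (hGb x hx).trans (by linarith)
  have iV : Integrable (fun x => √(1 + 2 * F x) ^ 3) sig := by
    refine (sigC_integral _ (((hFm.const_mul 2).const_add 1).sqrt.pow_const 3) 8 fun x hx => ?_).1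
    have h4 := abs_le.1 (hFb x hx)
    have h5 : √(1 + 2 * F x) ≤ 2 := by
      rw [Real.sqrt_le_left (by norm_num)]
      linarith [h4.2]
    rw [abs_of_nonneg (by positivity)]
    calc √(1 + 2 * F x) ^ 3 ≤ 2 ^ 3 := pow_le_pow_left₀ (Real.sqrt_nonneg _) h5 3
      _ = 8 := by norm_num
  have iS : Integrable (fun x => √((1 + 2 * F x) ^ 2 + ‖fderiv ℝ F x‖ ^ 2)) sig := by
    have hm : Measurable (fun x => √((1 + 2 * F x) ^ 2 + ‖fderiv ℝ F x‖ ^ 2)) :=
      ((((hFm.const_mul 2).const_add 1).pow_const 2).add hGm).sqrt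
    refine (sigC_integral (fun x => √((1 + 2 * F x) ^ 2 + ‖fderiv ℝ F x‖ ^ 2)) hm 3
      fun x hx => ?_).1
    have h4 := abs_le.1 (hFb x hx)
    rw [abs_of_nonneg (Real.sqrt_nonneg _), Real.sqrt_le_left (by norm_num)]
    have h5 := hGb x hx
    nlinarith [h4.1, h4.2]
  -- volume
  have hff : ff F = ∫ x, F x ^ 2 ∂sig := rfl
  have hGG : GG F = ∫ x, ‖fderiv ℝ F x‖ ^ 2 ∂sig := rfl
  have hff0 : 0 ≤ ff F := integral_nonneg fun x => sq_nonneg _
  have hGG0 : 0 ≤ GG F := integral_nonneg fun x => sq_nonneg _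
  have hGG1 : GG F ≤ 25 * η := by
    have h3 : GG F ≤ ∫ _, 25 * η ∂sig := by
      refine integral_mono_ae iG (integrable_const _) ?_
      filter_upwards [sigA_sphere] with x hx
      exact hGb x hx
    simpa using h3
  have hVol : 1 + (3 / 2 - 12 * η) * ff F ≤ ∫ x, √(1 + 2 * F x) ^ 3 ∂sig := by
    have h3 : ∫ x, (1 + 3 * F x + (3 / 2 - 12 * η) * F x ^ 2) ∂sig
        ≤ ∫ x, √(1 + 2 * F x) ^ 3 ∂sig := by
      refine integral_mono_ae (((integrable_const _).add (iF.const_mul 3)).add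
        (iF2.const_mul _)) iV ?_
      filter_upwards [sigA_sphere] with x hx
      exact vs_vol η (F x) h0 h1 (hFb x hx)
    have h4 : ∫ x, (1 + 3 * F x + (3 / 2 - 12 * η) * F x ^ 2) ∂sig
        = 1 + (3 / 2 - 12 * η) * ff F := by
      have i1 : Integrable (fun x => 1 + 3 * F x) sig := (integrable_const _).add (iF.const_mul 3)
      rw [integral_add i1 (iF2.const_mul _),
        integral_add (integrable_const _) (iF.const_mul 3), integral_const_mul, integral_const_mul,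
        hF0, hff]
      simp
    linarith
  have hSur : ∫ x, √((1 + 2 * F x) ^ 2 + ‖fderiv ℝ F x‖ ^ 2) ∂sig
      ≤ 1 + (1 + 5 * η) / 2 * GG F := by
    have h3 : ∫ x, √((1 + 2 * F x) ^ 2 + ‖fderiv ℝ F x‖ ^ 2) ∂sig
        ≤ ∫ x, (1 + 2 * F x + (1 + 5 * η) / 2 * ‖fderiv ℝ F x‖ ^ 2) ∂sig := by
      refine integral_mono_ae iS (((integrable_const _).add (iF.const_mul 2)).add
        (iG.const_mul _)) ?_
      filter_upwards [sigA_sphere] with x hx
      exact vs_srf η (F x) _ h0 h1 (hFb x hx) (sq_nonneg _)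
    have h4 : ∫ x, (1 + 2 * F x + (1 + 5 * η) / 2 * ‖fderiv ℝ F x‖ ^ 2) ∂sig
        = 1 + (1 + 5 * η) / 2 * GG F := by
      have i1 : Integrable (fun x => 1 + 2 * F x) sig := (integrable_const _).add (iF.const_mul 2)
      rw [integral_add i1 (iG.const_mul _),
        integral_add (integrable_const _) (iF.const_mul 2), integral_const_mul, integral_const_mul,
        hF0, hGG]
      simp
    linarith
  -- the geometric quantities
  have hpi := Real.pi_pos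
  have hV : (volume (Kp p)).toReal = 4 * Real.pi / 3 * ∫ x, √(1 + 2 * F x) ^ 3 ∂sig := by
    rw [volK_eq p η hp h0.le h14, ENNReal.toReal_ofReal]
    exact mul_nonneg (by positivity) (integral_nonneg fun x => by positivity)
  have hI0 : 0 ≤ ∫ x, √((1 + 2 * F x) ^ 2 + ‖fderiv ℝ F x‖ ^ 2) ∂sig :=
    integral_nonneg fun x => Real.sqrt_nonneg _
  have hSle : (bd (Kp p)).toReal ≤
      4 * Real.pi * ∫ x, √((1 + 2 * F x) ^ 2 + ‖fderiv ℝ F x‖ ^ 2) ∂sig :=
    ENNReal.toReal_le_of_le_ofReal (by positivity) (surf_le p η hp h0.le h14)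
  have hS0 : 0 < (bd (Kp p)).toReal := by
    obtain ⟨k1, _, k3⟩ := bdpos_K p η hp h0.le h14
    refine ENNReal.toReal_pos (lt_of_lt_of_le k1 k3).ne' ?_
    exact ne_top_of_le_ne_top ENNReal.ofReal_ne_top (surf_le p η hp h0.le h14)
  have hb0 : 0 ≤ (1 + 5 * η) / 2 * GG F := by positivity
  have hb1 : (1 + 5 * η) / 2 * GG F ≤ 14 * η := by
    have h3 : (1 + 5 * η) / 2 * GG F ≤ (1 + 5 * η) / 2 * (25 * η) :=
      mul_le_mul_of_nonneg_left hGG1 (by positivity)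
    nlinarith
  have ha0 : 0 ≤ (3 / 2 - 12 * η) * ff F := mul_nonneg (by linarith) hff0
  have hfin := vs_fin ((3 / 2 - 12 * η) * ff F) ((1 + 5 * η) / 2 * GG F)
    (volume (Kp p)).toReal (bd (Kp p)).toReal ha0 hb0 hS0
    (by rw [hV]; exact mul_le_mul_of_nonneg_left hVol (by positivity))
    (hSle.trans (mul_le_mul_of_nonneg_left hSur (by positivity)))
  refine le_trans ?_ hfin
  unfold DD
  have h6 : (3 / 2 - 12 * η) * ff F * ((1 + 5 * η) / 2 * GG F) ≤ 3 / 2 * ff F * (14 * η) := by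
    refine mul_le_mul ?_ hb1 hb0 (by positivity)
    nlinarith
  have h7 : 0 ≤ (ε - 150 * η) * ff F := mul_nonneg (by linarith) hff0
  have h8 : 0 ≤ (ε - 8 * η) * GG F := mul_nonneg (by linarith) hGG0
  nlinarith [mul_nonneg h0.le hff0, mul_nonneg h0.le hGG0]

end Pool.Agent.Lib_helper15.STE
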