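import Pool.Agent.Lib_helper15.STE.B.admA
import Pool.Agent.Lib_helper15.STE.B.alg
import Pool.Agent.Lib_helper15.STE.B.area
import Pool.Agent.Lib_helper15.STE.B.ball
import Pool.Agent.Lib_helper15.STE.B.bdpos
import Pool.Agent.Lib_helper15.STE.B.cov
import Pool.Agent.Lib_helper15.STE.B.gauA
import Pool.Agent.Lib_helper15.STE.B.gauF
import Pool.Agent.Lib_helper15.STE.B.gauL
import Pool.Agent.Lib_helper15.STE.B.nls
import Pool.Agent.Lib_helper15.STE.B.nrmA
import Pool.Agent.Lib_helper15.STE.B.nrmB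
import Pool.Agent.Lib_helper15.STE.B.nrmC
import Pool.Agent.Lib_helper15.STE.B.perim
import Pool.Agent.Lib_helper15.STE.B.pln
import Pool.Agent.Lib_helper15.STE.B.ptw
import Pool.Agent.Lib_helper15.STE.B.rad
import Pool.Agent.Lib_helper15.STE.B.rot
import Pool.Agent.Lib_helper15.STE.B.scl
import Pool.Agent.Lib_helper15.STE.B.sigA
import Pool.Agent.Lib_helper15.STE.B.sigB
import Pool.Agent.Lib_helper15.STE.B.sigC
import Pool.Agent.Lib_helper15.STE.B.slp
import Pool.Agent.Lib_helper15.STE.B.surf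
import Pool.Agent.Lib_helper15.STE.B.volK
import Pool.Agent.Lib_helper15.STE.B.vs
import Pool.Agent.Lib_helper15.STE.B.zer
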