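import Pool.Agent.Lib_helper15.STE.DefsG

/-! # STE, block nrmB : centroid -/

open MeasureTheory Filter Topology
open scoped InnerProductSpace

namespace Pool.Agent.Lib_helper15.STE

theorem nrmB_sym (c : E3) (ρ : ℝ) : ∫ x in Metric.closedBall c ρ, (x - c) = 0 := by
  have hm : MeasurableSet (Metric.closedBall c ρ) := Metric.isClosed_closedBall.measurableSet
  have h1 : ∫ x in Metric.closedBall c ρ, (x - c) = - ∫ x in Metric.closedBall c ρ, (x - c) := by
    rw [← integral_neg, ← integral_indicator hm, ← integral_indicator hm,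
      ← integral_sub_left_eq_self (fun x => (Metric.closedBall c ρ).indicator
        (fun x => x - c) x) volume (c + c)]
    refine integral_congr_ae (Eventually.of_forall fun x => ?_)
    show (Metric.closedBall c ρ).indicator (fun x => x - c) (c + c - x) =
      (Metric.closedBall c ρ).indicator (fun x => -(x - c)) x
    have hiff : (c + c - x ∈ Metric.closedBall c ρ) ↔ x ∈ Metric.closedBall c ρ := by
      rw [Metric.mem_closedBall, Metric.mem_closedBall, dist_eq_norm, dist_eq_norm]
      have : c + c - x - c = -(x - c) := by abel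
      rw [this, norm_neg]
    by_cases hx : x ∈ Metric.closedBall c ρ
    · rw [Set.indicator_of_mem hx, Set.indicator_of_mem (hiff.2 hx)]
      abel
    · rw [Set.indicator_of_notMem hx, Set.indicator_of_notMem (fun h => hx (hiff.1 h))]
  have h2 : (2 : ℝ) • ∫ x in Metric.closedBall c ρ, (x - c) = 0 := by
    rw [two_smul]
    nth_rewrite 1 [h1]
    exact neg_add_cancel _
  exact (smul_eq_zero.1 h2).resolve_left two_ne_zero

theorem nrmB_main (K : Set E3) (hKc : IsCompact K) (c : E3) (r η : ℝ)
    (hr : 0 < r) (h0 : 0 ≤ η) (h1 : η ≤ 1 / 10) (hi : Metric.closedBall c ((1 - η) * r) ⊆ K)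
    (ho : K ⊆ Metric.closedBall c ((1 + η) * r)) :
    ∃ c' : E3, ‖c' - c‖ ≤ 10 * η * r ∧ ∀ i, ∫ x in K, (x i - c' i) = 0 := by
  have hKm : MeasurableSet K := hKc.isClosed.measurableSet
  have hfin : Module.finrank ℝ E3 = 3 := by simp
  set w : ℝ := (volume (Metric.ball (0 : E3) 1)).toReal with hw
  have hwtop : volume (Metric.ball (0 : E3) 1) ≠ ⊤ := Metric.isBounded_ball.measure_lt_top.ne
  have hw0 : 0 < w := ENNReal.toReal_pos (Metric.measure_ball_pos _ _ one_pos).ne' hwtop
  have hball : ∀ ρ : ℝ, 0 ≤ ρ → volume.real (Metric.closedBall c ρ) = ρ ^ 3 * w := by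
    intro ρ hρ
    rw [Measure.real, Measure.addHaar_closedBall volume c hρ, hfin, ENNReal.toReal_mul,
      ENNReal.toReal_ofReal (by positivity)]
  set B : Set E3 := Metric.closedBall c ((1 - η) * r) with hB
  have hBm : MeasurableSet B := Metric.isClosed_closedBall.measurableSet
  have hρ1 : 0 ≤ (1 - η) * r := mul_nonneg (by linarith) hr.le
  have hρ2 : 0 ≤ (1 + η) * r := by positivity
  have hKtop : volume K ≠ ⊤ := hKc.measure_lt_top.ne
  have hBtop : volume B ≠ ⊤ := (isCompact_closedBall c _).measure_lt_top.ne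
  have hVlo : ((1 - η) * r) ^ 3 * w ≤ volume.real K := by
    rw [← hball _ hρ1]
    exact measureReal_mono hi hKtop
  have hVhi : volume.real K ≤ ((1 + η) * r) ^ 3 * w := by
    rw [← hball _ hρ2]
    exact measureReal_mono ho (isCompact_closedBall c _).measure_lt_top.ne
  have hVpos : 0 < volume.real K :=
    lt_of_lt_of_le (mul_pos (pow_pos (mul_pos (by linarith) hr) 3) hw0) hVlo
  have hint : IntegrableOn (fun x : E3 => x - c) K :=
    (continuous_id.sub continuous_const).continuousOn.integrableOn_compact hKc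
  have hshell : volume.real (K \ B) ≤ (((1 + η) * r) ^ 3 - ((1 - η) * r) ^ 3) * w := by
    rw [measureReal_sdiff hi hBm hKtop, hball _ hρ1]
    linarith
  have hI : ‖∫ x in K, (x - c)‖ ≤
      (1 + η) * r * ((((1 + η) * r) ^ 3 - ((1 - η) * r) ^ 3) * w) := by
    have hsplit : ∫ x in K, (x - c) = ∫ x in K \ B, (x - c) := by
      have h2 := setIntegral_union (μ := volume) (f := fun x : E3 => x - c)
        (Set.disjoint_sdiff_left (s := B) (t := K)) hBm
        (hint.mono_set Set.sdiff_subset) (hint.mono_set hi)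
      rw [Set.sdiff_union_of_subset hi, nrmB_sym, add_zero] at h2
      exact h2
    rw [hsplit]
    refine (norm_setIntegral_le_of_norm_le_const (C := (1 + η) * r) ?_ ?_).trans ?_
    · exact (measure_mono Set.sdiff_subset).trans_lt hKc.measure_lt_top
    · intro x hx
      have := ho hx.1
      rwa [Metric.mem_closedBall, dist_eq_norm] at this
    · exact mul_le_mul_of_nonneg_left hshell hρ2
  refine ⟨c + (volume.real K)⁻¹ • ∫ x in K, (x - c), ?_, fun i => ?_⟩
  · rw [add_sub_cancel_left, norm_smul, Real.norm_eq_abs, abs_of_pos (inv_pos.2 hVpos),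
      inv_mul_le_iff₀ hVpos]
    refine hI.trans ?_
    have h3 : (1 + η) * r * ((((1 + η) * r) ^ 3 - ((1 - η) * r) ^ 3) * w) ≤
        ((1 - η) * r) ^ 3 * w * (10 * η * r) := by
      have h4 : (1 + η) * ((1 + η) ^ 3 - (1 - η) ^ 3) ≤ (1 - η) ^ 3 * (10 * η) := by
        have e1 : (1 + η) * ((1 + η) ^ 3 - (1 - η) ^ 3) = η * ((1 + η) * (6 + 2 * η ^ 2)) := by
          ring
        have e2 : (1 - η) ^ 3 * (10 * η) = η * (10 * (1 - η) ^ 3) := by ring
        rw [e1, e2]
        refine mul_le_mul_of_nonneg_left ?_ h0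
        have h5 : (9 / 10 : ℝ) ^ 3 ≤ (1 - η) ^ 3 := pow_le_pow_left₀ (by norm_num) (by linarith) 3
        nlinarith
      have e3 : (1 + η) * r * ((((1 + η) * r) ^ 3 - ((1 - η) * r) ^ 3) * w) =
          ((1 + η) * ((1 + η) ^ 3 - (1 - η) ^ 3)) * (r ^ 4 * w) := by ring
      have e4 : ((1 - η) * r) ^ 3 * w * (10 * η * r) = ((1 - η) ^ 3 * (10 * η)) * (r ^ 4 * w) := by
        ring
      rw [e3, e4]
      exact mul_le_mul_of_nonneg_right h4 (by positivity)
    refine h3.trans ?_
    exact mul_le_mul_of_nonneg_right hVlo (by positivity)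
  · have hproj : ∫ x in K, (x i - c i) = (∫ x in K, (x - c)) i := by
      have := (EuclideanSpace.proj (𝕜 := ℝ) i : E3 →L[ℝ] ℝ).integral_comp_comm hint
      simpa using this
    have hci : IntegrableOn (fun x : E3 => x i - c i) K := by
      have hc : Continuous fun x : E3 => x i - c i := by fun_prop
      exact hc.continuousOn.integrableOn_compact hKc
    have h6 : ∀ x : E3, x i - (c + (volume.real K)⁻¹ • ∫ x in K, (x - c)) i =
        (x i - c i) - (volume.real K)⁻¹ * (∫ x in K, (x - c)) i := by
      intro x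
      simp only [PiLp.add_apply, PiLp.smul_apply, smul_eq_mul]
      ring
    simp_rw [h6]
    rw [integral_sub hci (integrableOn_const hKtop), hproj, setIntegral_const, smul_eq_mul]
    field_simp
    ring

end Pool.Agent.Lib_helper15.STE
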